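import Mathlib

/-!
# A volume bound for symmetric slabs in John position (K. Ball), via transport
-/

open MeasureTheory Metric Set Filter Topology
open scoped Pointwise ENNReal

set_option linter.unusedSectionVars false
set_option linter.unusedVariables false

namespace Pool.Agent.Helper86.GM

section Det

variable {V : Type*} [NormedAddCommGroup V] [InnerProductSpace ℝ V] [FiniteDimensional ℝ V]
variable {ι : Type*} [Fintype ι]

/-- The operator `∑ wᵢ uᵢ ⊗ uᵢ`. -/
noncomputable def wop (u : ι → V) (w : ι → ℝ) : V →L[ℝ] V :=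
  ∑ i, w i • (innerSL ℝ (u i)).smulRight (u i)

theorem wop_apply (u : ι → V) (w : ι → ℝ) (x : V) :
    wop u w x = ∑ i, (w i * inner ℝ (u i) x) • u i := by
  simp [wop, smul_smul]

theorem inner_wop (u : ι → V) (w : ι → ℝ) (x y : V) :
    inner ℝ (wop u w x) y = ∑ i, w i * (inner ℝ (u i) x * inner ℝ (u i) y) := by
  rw [wop_apply, sum_inner]
  refine Finset.sum_congr rfl fun i _ => ?_
  rw [inner_smul_left]; simp only [conj_trivial]; ring

theorem wop_isSymmetric (u : ι → V) (w : ι → ℝ) :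
    ((wop u w : V →L[ℝ] V) : V →ₗ[ℝ] V).IsSymmetric := by
  intro x y
  change inner ℝ (wop u w x) y = inner ℝ x (wop u w y)
  rw [real_inner_comm (wop u w y) x, inner_wop, inner_wop]
  refine Finset.sum_congr rfl fun i _ => ?_
  ring

/-- Ball's determinant inequality. -/
theorem prod_rpow_le_det (u : ι → V) (c t : ι → ℝ) (hu : ∀ i, ‖u i‖ = 1) (hc : ∀ i, 0 ≤ c i)
    (hdec : ∀ x : V, ∑ i, c i * (inner ℝ (u i) x) ^ 2 = ‖x‖ ^ 2) (ht : ∀ i, 0 < t i) :
    ∏ i, t i ^ c i ≤ (wop u fun i => c i * t i).det := by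
  have hsym := wop_isSymmetric u fun i => c i * t i
  have hdet : (wop u fun i => c i * t i).det =
      ∏ j, hsym.eigenvalues rfl j := by
    have := hsym.det_eq_prod_eigenvalues rfl
    exact_mod_cast this
  rw [hdet]
  set b := hsym.eigenvectorBasis rfl with hb
  have hlam : ∀ j, hsym.eigenvalues rfl j =
      ∑ i, (c i * (inner ℝ (u i) (b j)) ^ 2) * t i := by
    intro j
    have h1 : inner ℝ (wop u (fun i => c i * t i) (b j)) (b j) =
        hsym.eigenvalues rfl j := by
      have h2 := hsym.apply_eigenvectorBasis rfl j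
      simp only [ContinuousLinearMap.coe_coe] at h2
      rw [← hb] at h2
      rw [h2, inner_smul_left, real_inner_self_eq_norm_sq, b.norm_eq_one]
      simp
    rw [← h1, inner_wop]
    refine Finset.sum_congr rfl fun i _ => ?_
    ring
  have hone : ∀ j, ∑ i, c i * (inner ℝ (u i) (b j)) ^ 2 = 1 := by
    intro j
    rw [hdec, b.norm_eq_one, one_pow]
  have hge : ∀ j, ∏ i, t i ^ (c i * (inner ℝ (u i) (b j)) ^ 2) ≤ hsym.eigenvalues rfl j := by
    intro j
    rw [hlam j]
    exact Real.geom_mean_le_arith_mean_weighted Finset.univ _ _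
      (fun i _ => mul_nonneg (hc i) (sq_nonneg _)) (hone j) (fun i _ => (ht i).le)
  calc ∏ i, t i ^ c i = ∏ i, ∏ j, t i ^ (c i * (inner ℝ (u i) (b j)) ^ 2) := by
        refine Finset.prod_congr rfl fun i _ => ?_
        rw [← Real.rpow_sum_of_pos (ht i), ← Finset.mul_sum]
        have h3 : ∑ j, (inner ℝ (u i) (b j)) ^ 2 = 1 := by
          have := b.sum_sq_norm_inner_left (u i)
          simp only [Real.norm_eq_abs, sq_abs, hu i, one_pow] at this
          exact this
        rw [h3, mul_one]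
    _ = ∏ j, ∏ i, t i ^ (c i * (inner ℝ (u i) (b j)) ^ 2) := Finset.prod_comm
    _ ≤ ∏ j, hsym.eigenvalues rfl j := by
        refine Finset.prod_le_prod (fun j _ => Finset.prod_nonneg fun i _ => ?_) fun j _ => hge j
        exact Real.rpow_nonneg (ht i).le _

theorem sum_eq_finrank (u : ι → V) (c : ι → ℝ) (hu : ∀ i, ‖u i‖ = 1)
    (hdec : ∀ x : V, ∑ i, c i * (inner ℝ (u i) x) ^ 2 = ‖x‖ ^ 2) :
    ∑ i, c i = Module.finrank ℝ V := by
  set b := stdOrthonormalBasis ℝ V
  calc ∑ i, c i = ∑ i, c i * ∑ j, (inner ℝ (u i) (b j)) ^ 2 := by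
        refine Finset.sum_congr rfl fun i _ => ?_
        have := b.sum_sq_norm_inner_left (u i)
        simp only [Real.norm_eq_abs, sq_abs, hu i, one_pow] at this
        rw [this, mul_one]
    _ = ∑ j, ∑ i, c i * (inner ℝ (u i) (b j)) ^ 2 := by
        simp only [Finset.mul_sum]
        exact Finset.sum_comm
    _ = ∑ j : Fin (Module.finrank ℝ V), (1 : ℝ) := by
        refine Finset.sum_congr rfl fun j _ => ?_
        rw [hdec, b.norm_eq_one, one_pow]
    _ = Module.finrank ℝ V := by simp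

theorem norm_sq_sum_le (u : ι → V) (c a : ι → ℝ) (hc : ∀ i, 0 ≤ c i)
    (hdec : ∀ x : V, ∑ i, c i * (inner ℝ (u i) x) ^ 2 = ‖x‖ ^ 2) :
    ‖∑ i, (c i * a i) • u i‖ ^ 2 ≤ ∑ i, c i * a i ^ 2 := by
  set θ := ∑ i, (c i * a i) • u i with hθ
  have h1 : ‖θ‖ ^ 2 = ∑ i, c i * (a i * inner ℝ (u i) θ) := by
    rw [← real_inner_self_eq_norm_sq]
    conv_lhs => rw [hθ, sum_inner]
    refine Finset.sum_congr rfl fun i _ => ?_
    rw [inner_smul_left]; simp only [conj_trivial]; ring
  have h2 : ∑ i, c i * (a i * inner ℝ (u i) θ) ≤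
      ∑ i, (c i * a i ^ 2 / 2 + c i * (inner ℝ (u i) θ) ^ 2 / 2) := by
    refine Finset.sum_le_sum fun i _ => ?_
    nlinarith [mul_nonneg (hc i) (sq_nonneg (a i - inner ℝ (u i) θ))]
  rw [Finset.sum_add_distrib, ← Finset.sum_div, ← Finset.sum_div, hdec] at h2
  linarith

end Det

section Transport

/-- The distribution function, `Φ(s) = 2 ∫₀ˢ exp(-π x²) dx`. -/
noncomputable def Phi (s : ℝ) : ℝ := ∫ x in (0 : ℝ)..s, 2 * Real.exp (-Real.pi * x ^ 2)

theorem continuous_gauss : Continuous fun x : ℝ => 2 * Real.exp (-Real.pi * x ^ 2) := by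
  fun_prop

theorem hasDerivAt_Phi (s : ℝ) : HasDerivAt Phi (2 * Real.exp (-Real.pi * s ^ 2)) s :=
  intervalIntegral.integral_hasDerivAt_right (continuous_gauss.intervalIntegrable _ _)
    (continuous_gauss.stronglyMeasurableAtFilter _ _) continuous_gauss.continuousAt

theorem continuous_Phi : Continuous Phi :=
  continuous_iff_continuousAt.2 fun s => (hasDerivAt_Phi s).continuousAt

theorem strictMono_Phi : StrictMono Phi := by
  refine strictMono_of_deriv_pos fun s => ?_
  rw [(hasDerivAt_Phi s).deriv]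
  positivity

theorem Phi_neg (s : ℝ) : Phi (-s) = -Phi s := by
  unfold Phi
  have h := intervalIntegral.integral_comp_neg (a := 0) (b := s)
    (fun x : ℝ => 2 * Real.exp (-Real.pi * x ^ 2))
  simp only [even_two, Even.neg_pow, neg_zero] at h
  rw [h, intervalIntegral.integral_symm]

theorem tendsto_Phi_atTop : Tendsto Phi atTop (𝓝 1) := by
  have hint : Integrable (fun x : ℝ => 2 * Real.exp (-Real.pi * x ^ 2)) :=
    (integrable_exp_neg_mul_sq Real.pi_pos).const_mul 2
  have h := intervalIntegral_tendsto_integral_Ioi (0 : ℝ) hint.integrableOn tendsto_id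
  have h2 : ∫ x in Ioi (0 : ℝ), 2 * Real.exp (-Real.pi * x ^ 2) = 1 := by
    rw [integral_const_mul, integral_gaussian_Ioi, div_self Real.pi_ne_zero, Real.sqrt_one]
    norm_num
  rw [h2] at h
  exact h

theorem tendsto_Phi_atBot : Tendsto Phi atBot (𝓝 (-1)) := by
  have h := (tendsto_Phi_atTop.comp tendsto_neg_atBot_atTop).neg
  refine h.congr fun s => ?_
  simp [Phi_neg]

theorem Phi_lt_one (s : ℝ) : Phi s < 1 :=
  (strictMono_Phi (lt_add_one s)).trans_le
    (ge_of_tendsto tendsto_Phi_atTop ((eventually_ge_atTop (s + 1)).mono fun _ h =>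
      strictMono_Phi.monotone h))

theorem neg_one_lt_Phi (s : ℝ) : -1 < Phi s := by
  have := Phi_lt_one (-s)
  rw [Phi_neg] at this
  linarith

theorem exists_Phi_eq {t : ℝ} (ht : t ∈ Ioo (-1 : ℝ) 1) : ∃ s, Phi s = t := by
  obtain ⟨a, ha⟩ := (tendsto_Phi_atBot.eventually (gt_mem_nhds ht.1)).exists
  obtain ⟨b, hb⟩ := (tendsto_Phi_atTop.eventually (lt_mem_nhds ht.2)).exists
  have h : t ∈ Icc (Phi a) (Phi b) := ⟨ha.le, hb.le⟩
  have := mem_range_of_exists_le_of_exists_ge continuous_Phi ⟨a, ha.le⟩ ⟨b, hb.le⟩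
  exact this

open Classical in
/-- The inverse of `Φ` on `(-1,1)` (the transport map of the uniform distribution to the
Gaussian). -/
noncomputable def phi (t : ℝ) : ℝ := if h : ∃ s, Phi s = t then h.choose else 0

theorem Phi_phi {t : ℝ} (ht : t ∈ Ioo (-1 : ℝ) 1) : Phi (phi t) = t := by
  unfold phi
  rw [dif_pos (exists_Phi_eq ht)]
  exact (exists_Phi_eq ht).choose_spec

theorem phi_Phi (s : ℝ) : phi (Phi s) = s :=
  strictMono_Phi.injective (Phi_phi ⟨neg_one_lt_Phi s, Phi_lt_one s⟩)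

theorem phi_strictMonoOn : StrictMonoOn phi (Ioo (-1) 1) := by
  intro a ha b hb hab
  rw [← strictMono_Phi.lt_iff_lt, Phi_phi ha, Phi_phi hb]
  exact hab

theorem continuousAt_phi {t : ℝ} (ht : t ∈ Ioo (-1 : ℝ) 1) : ContinuousAt phi t := by
  refine phi_strictMonoOn.continuousAt_of_image_mem_nhds (Ioo_mem_nhds ht.1 ht.2) ?_
  have : phi '' Ioo (-1) 1 = univ := by
    refine eq_univ_of_forall fun s => ⟨Phi s, ⟨neg_one_lt_Phi s, Phi_lt_one s⟩, phi_Phi s⟩
  rw [this]
  exact univ_mem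

/-- derivative of `phi`. -/
noncomputable def dphi (t : ℝ) : ℝ := (2 * Real.exp (-Real.pi * (phi t) ^ 2))⁻¹

theorem dphi_pos (t : ℝ) : 0 < dphi t := by unfold dphi; positivity

theorem hasDerivAt_phi {t : ℝ} (ht : t ∈ Ioo (-1 : ℝ) 1) : HasDerivAt phi (dphi t) t := by
  refine HasDerivAt.of_local_left_inverse (continuousAt_phi ht) (hasDerivAt_Phi (phi t))
    (by positivity) ?_
  filter_upwards [Ioo_mem_nhds ht.1 ht.2] with y hy
  exact Phi_phi hy

end Transport


section Volume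

variable {V : Type*} [NormedAddCommGroup V] [InnerProductSpace ℝ V] [FiniteDimensional ℝ V]
  [MeasurableSpace V] [BorelSpace V]
variable {ι : Type*} [Fintype ι]

/-- The transport map. -/
noncomputable def Theta (u : ι → V) (c : ι → ℝ) (z : V) : V :=
  ∑ i, (c i * phi (inner ℝ (u i) z)) • u i

/-- The open slab intersection. -/
def slab (u : ι → V) : Set V := {z | ∀ i, |inner ℝ (u i) z| < 1}

theorem isOpen_slab (u : ι → V) : IsOpen (slab u) := by
  have : slab u = ⋂ i, {z : V | |inner ℝ (u i) z| < 1} := by ext z; simp [slab]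
  rw [this]
  exact isOpen_iInter_of_finite fun i => isOpen_lt (by fun_prop) continuous_const

theorem mem_Ioo_of_mem_slab {u : ι → V} {z : V} (hz : z ∈ slab u) (i : ι) :
    inner ℝ (u i) z ∈ Ioo (-1 : ℝ) 1 := abs_lt.1 (hz i)

theorem hasFDerivAt_Theta (u : ι → V) (c : ι → ℝ) {z : V} (hz : z ∈ slab u) :
    HasFDerivAt (Theta u c) (wop u fun i => c i * dphi (inner ℝ (u i) z)) z := by
  unfold Theta wop
  refine HasFDerivAt.fun_sum fun i _ => ?_
  have h1 : HasFDerivAt (fun z : V => inner ℝ (u i) z) (innerSL ℝ (u i)) z :=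
    (innerSL ℝ (u i)).hasFDerivAt
  have h2 := (hasDerivAt_phi (mem_Ioo_of_mem_slab hz i)).comp_hasFDerivAt z h1
  have h3 := (h2.const_mul (c i)).smul_const (u i)
  refine h3.congr_fderiv ?_
  ext x
  simp [smul_smul, mul_assoc]

theorem injOn_Theta (u : ι → V) (c : ι → ℝ) (hc : ∀ i, 0 ≤ c i)
    (hdec : ∀ x : V, ∑ i, c i * (inner ℝ (u i) x) ^ 2 = ‖x‖ ^ 2) :
    InjOn (Theta u c) (slab u) := by
  intro z hz z' hz' h
  have h1 : inner ℝ (Theta u c z - Theta u c z') (z - z') = 0 := by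
    rw [h, sub_self, inner_zero_left]
  have h2 : inner ℝ (Theta u c z - Theta u c z') (z - z') =
      ∑ i, c i * ((phi (inner ℝ (u i) z) - phi (inner ℝ (u i) z')) *
        (inner ℝ (u i) z - inner ℝ (u i) z')) := by
    rw [inner_sub_left, Theta, Theta, sum_inner, sum_inner, ← Finset.sum_sub_distrib]
    refine Finset.sum_congr rfl fun i _ => ?_
    rw [inner_smul_left, inner_smul_left, inner_sub_right]
    simp only [conj_trivial]
    ring
  have h3 : ∀ i, 0 ≤ c i * ((phi (inner ℝ (u i) z) - phi (inner ℝ (u i) z')) *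
        (inner ℝ (u i) z - inner ℝ (u i) z')) := by
    intro i
    refine mul_nonneg (hc i) ?_
    have ha := mem_Ioo_of_mem_slab hz i
    have hb := mem_Ioo_of_mem_slab hz' i
    rcases le_total (inner ℝ (u i) z) (inner ℝ (u i) z') with h | h
    · exact mul_nonneg_of_nonpos_of_nonpos
        (sub_nonpos.2 (phi_strictMonoOn.monotoneOn ha hb h)) (sub_nonpos.2 h)
    · exact mul_nonneg (sub_nonneg.2 (phi_strictMonoOn.monotoneOn hb ha h)) (sub_nonneg.2 h)
  rw [h1] at h2
  have h4 := (Finset.sum_eq_zero_iff_of_nonneg fun i _ => h3 i).1 h2.symm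
  have h5 : ∀ i, c i * (inner ℝ (u i) (z - z')) ^ 2 = 0 := by
    intro i
    have h6 := h4 i (Finset.mem_univ i)
    rcases mul_eq_zero.1 h6 with h7 | h7
    · rw [h7, zero_mul]
    · have h8 : inner ℝ (u i) z = inner ℝ (u i) z' := by
        rcases mul_eq_zero.1 h7 with h9 | h9
        · exact phi_strictMonoOn.injOn (mem_Ioo_of_mem_slab hz i) (mem_Ioo_of_mem_slab hz' i)
            (sub_eq_zero.1 h9)
        · exact sub_eq_zero.1 h9
      rw [inner_sub_right, h8, sub_self]; simp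
  have h6 := hdec (z - z')
  rw [Finset.sum_eq_zero fun i _ => h5 i] at h6
  have : ‖z - z'‖ = 0 := by
    have := h6.symm
    exact pow_eq_zero_iff (two_ne_zero) |>.1 this
  exact sub_eq_zero.1 (norm_eq_zero.1 this)

theorem pointwise_bound (u : ι → V) (c : ι → ℝ) (hu : ∀ i, ‖u i‖ = 1) (hc : ∀ i, 0 ≤ c i)
    (hdec : ∀ x : V, ∑ i, c i * (inner ℝ (u i) x) ^ 2 = ‖x‖ ^ 2) (z : V) :
    (1 / 2 : ℝ) ^ (Module.finrank ℝ V) ≤
      |(wop u fun i => c i * dphi (inner ℝ (u i) z)).det| *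
        Real.exp (-Real.pi * ‖Theta u c z‖ ^ 2) := by
  have h1 := prod_rpow_le_det u c (fun i => dphi (inner ℝ (u i) z)) hu hc hdec
    (fun i => dphi_pos _)
  have h2 := norm_sq_sum_le u c (fun i => phi (inner ℝ (u i) z)) hc hdec
  have h3 : Real.exp (-Real.pi * ∑ i, c i * (phi (inner ℝ (u i) z)) ^ 2) ≤
      Real.exp (-Real.pi * ‖Theta u c z‖ ^ 2) := by
    rw [Real.exp_le_exp]
    have := mul_le_mul_of_nonneg_left h2 Real.pi_pos.le
    unfold Theta
    linarith
  have h4 : (1 / 2 : ℝ) ^ (Module.finrank ℝ V) =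
      (∏ i, dphi (inner ℝ (u i) z) ^ c i) *
        Real.exp (-Real.pi * ∑ i, c i * (phi (inner ℝ (u i) z)) ^ 2) := by
    rw [Finset.mul_sum, Real.exp_sum, ← Finset.prod_mul_distrib]
    have h5 : ∀ i, dphi (inner ℝ (u i) z) ^ c i *
        Real.exp (-Real.pi * (c i * phi (inner ℝ (u i) z) ^ 2)) = (1 / 2 : ℝ) ^ c i := by
      intro i
      have h6 : Real.exp (-Real.pi * (c i * phi (inner ℝ (u i) z) ^ 2)) =
          (Real.exp (-Real.pi * phi (inner ℝ (u i) z) ^ 2)) ^ c i := by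
        rw [← Real.exp_mul]; ring_nf
      rw [h6, ← Real.mul_rpow (dphi_pos _).le (Real.exp_pos _).le]
      congr 1
      unfold dphi
      field_simp
    rw [Finset.prod_congr rfl fun i _ => h5 i, ← Real.rpow_sum_of_pos (by norm_num),
      sum_eq_finrank u c hu hdec, Real.rpow_natCast]
  rw [h4]
  have h5 : (0 : ℝ) ≤ ∏ i, dphi (inner ℝ (u i) z) ^ c i :=
    Finset.prod_nonneg fun i _ => Real.rpow_nonneg (dphi_pos _).le _
  refine mul_le_mul (h1.trans (le_abs_self _)) h3 (Real.exp_pos _).le (abs_nonneg _)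

theorem lintegral_gauss : ∫⁻ y : V, ENNReal.ofReal (Real.exp (-Real.pi * ‖y‖ ^ 2)) = 1 := by
  have h1 := GaussianFourier.integral_rexp_neg_mul_sq_norm (V := V) Real.pi_pos
  rw [div_self Real.pi_ne_zero, Real.one_rpow] at h1
  have hint : Integrable (fun y : V => Real.exp (-Real.pi * ‖y‖ ^ 2)) := by
    by_contra h
    rw [integral_undef h] at h1
    norm_num at h1
  rw [← ofReal_integral_eq_lintegral_ofReal hint (Eventually.of_forall fun _ => (Real.exp_pos _).le),
    h1, ENNReal.ofReal_one]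

theorem volume_slab_le (u : ι → V) (c : ι → ℝ) (hu : ∀ i, ‖u i‖ = 1) (hc : ∀ i, 0 ≤ c i)
    (hdec : ∀ x : V, ∑ i, c i * (inner ℝ (u i) x) ^ 2 = ‖x‖ ^ 2) :
    volume (slab u) ≤ 2 ^ (Module.finrank ℝ V) := by
  have h1 := lintegral_image_eq_lintegral_abs_det_fderiv_mul volume (isOpen_slab u).measurableSet
    (fun z hz => (hasFDerivAt_Theta u c hz).hasFDerivWithinAt) (injOn_Theta u c hc hdec)
    (fun y => ENNReal.ofReal (Real.exp (-Real.pi * ‖y‖ ^ 2)))
  have h2 : ∫⁻ y in Theta u c '' slab u, ENNReal.ofReal (Real.exp (-Real.pi * ‖y‖ ^ 2)) ≤ 1 := by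
    rw [← lintegral_gauss (V := V)]
    exact setLIntegral_le_lintegral _ _
  have h3 : ENNReal.ofReal ((1 / 2 : ℝ) ^ (Module.finrank ℝ V)) * volume (slab u) ≤ 1 := by
    refine le_trans ?_ h2
    rw [h1, ← setLIntegral_const]
    refine lintegral_mono fun z => ?_
    rw [← ENNReal.ofReal_mul (abs_nonneg _)]
    exact ENNReal.ofReal_le_ofReal (pointwise_bound u c hu hc hdec z)
  have h4 : ENNReal.ofReal ((1 / 2 : ℝ) ^ (Module.finrank ℝ V)) =
      ((2 : ℝ≥0∞) ^ (Module.finrank ℝ V))⁻¹ := by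
    rw [ENNReal.ofReal_pow (by norm_num), one_div, ENNReal.ofReal_inv_of_pos (by norm_num),
      ← ENNReal.inv_pow]
    norm_num
  rw [h4, mul_comm, ← div_eq_mul_inv] at h3
  rw [ENNReal.div_le_iff_le_mul (Or.inl (by positivity)) (Or.inl (by finiteness))] at h3
  simpa using h3

end Volume

end Pool.Agent.Helper86.GM
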