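import Mathlib

/-!
# Arithmetic-harmonic iteration of convex bodies: definitions and basic theory
-/

open MeasureTheory Metric Set Filter Topology
open scoped Pointwise

namespace Pool.Agent.Helper86.GM

variable {V : Type*} [NormedAddCommGroup V] [InnerProductSpace ℝ V]
variable {W : Type*} [NormedAddCommGroup W] [InnerProductSpace ℝ W]

/-- The polar `K° = {y : ⟪x, y⟫ ≤ 1 for all x ∈ K}` of a set in a real inner product space. -/
def polarBody (K : Set V) : Set V := {y | ∀ x ∈ K, inner ℝ x y ≤ 1}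

/-- `K` is an origin-symmetric convex body: compact, convex, with nonempty interior, `-K = K`. -/
structure IsSymBody (K : Set V) : Prop where
  isCompact : IsCompact K
  convex : Convex ℝ K
  interior_nonempty : (interior K).Nonempty
  neg_mem : ∀ x ∈ K, -x ∈ K

/-- The arithmetic mean `(A + H) / 2` (Minkowski addition). -/
def arithMean (A H : Set V) : Set V := (1 / 2 : ℝ) • (A + H)

/-- The harmonic mean `((A° + H°) / 2)°`. -/
def harmMean (A H : Set V) : Set V := polarBody ((1 / 2 : ℝ) • (polarBody A + polarBody H))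

/-- The arithmetic-harmonic iteration `(A_k, H_k)` started at `(A_0, H_0) = (K, T)`. -/
def meanSeq (K T : Set V) : ℕ → Set V × Set V
  | 0 => (K, T)
  | k + 1 => (arithMean (meanSeq K T k).1 (meanSeq K T k).2,
      harmMean (meanSeq K T k).1 (meanSeq K T k).2)

/-- `G` is the geometric mean of `K` and `T`: a nonempty compact set that is the limit, in the
Hausdorff metric, of both sequences `A_k` and `H_k`. -/
structure IsGeomMean (K T G : Set V) : Prop where
  isCompact : IsCompact G
  nonempty : G.Nonempty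
  tendsto_arith : Tendsto (fun k => hausdorffDist (meanSeq K T k).1 G) atTop (𝓝 0)
  tendsto_harm : Tendsto (fun k => hausdorffDist (meanSeq K T k).2 G) atTop (𝓝 0)

/-! ### Elementary facts -/

theorem mem_polar {K : Set V} {y : V} : y ∈ polarBody K ↔ ∀ x ∈ K, inner ℝ x y ≤ 1 := Iff.rfl

theorem polar_anti {K L : Set V} (h : K ⊆ L) : polarBody L ⊆ polarBody K :=
  fun _ hy x hx => hy x (h hx)

theorem mem_arith {A H : Set V} {x : V} :
    x ∈ arithMean A H ↔ ∃ a ∈ A, ∃ h ∈ H, (1 / 2 : ℝ) • (a + h) = x := by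
  unfold arithMean
  constructor
  · rintro ⟨y, ⟨a, ha, h, hh, rfl⟩, rfl⟩
    exact ⟨a, ha, h, hh, rfl⟩
  · rintro ⟨a, ha, h, hh, rfl⟩
    exact ⟨a + h, ⟨a, ha, h, hh, rfl⟩, rfl⟩

theorem mem_harm {A H : Set V} {x : V} :
    x ∈ harmMean A H ↔ ∀ y ∈ polarBody A, ∀ z ∈ polarBody H,
      inner ℝ ((1 / 2 : ℝ) • (y + z)) x ≤ 1 := by
  unfold harmMean
  constructor
  · intro h y hy z hz
    exact h _ ⟨y + z, ⟨y, hy, z, hz, rfl⟩, rfl⟩
  · rintro h w ⟨_, ⟨y, hy, z, hz, rfl⟩, rfl⟩
    exact h y hy z hz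

theorem arith_mono {A A' H H' : Set V} (hA : A ⊆ A') (hH : H ⊆ H') :
    arithMean A H ⊆ arithMean A' H' := by
  intro x hx
  rw [mem_arith] at hx ⊢
  obtain ⟨a, ha, h, hh, rfl⟩ := hx
  exact ⟨a, hA ha, h, hH hh, rfl⟩

theorem harm_mono {A A' H H' : Set V} (hA : A ⊆ A') (hH : H ⊆ H') :
    harmMean A H ⊆ harmMean A' H' := by
  intro x hx
  rw [mem_harm] at hx ⊢
  intro y hy z hz
  exact hx y (polar_anti hA hy) z (polar_anti hH hz)

theorem seq_mono {K K' T T' : Set V} (hK : K ⊆ K') (hT : T ⊆ T') (k : ℕ) :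
    (meanSeq K T k).1 ⊆ (meanSeq K' T' k).1 ∧ (meanSeq K T k).2 ⊆ (meanSeq K' T' k).2 := by
  induction k with
  | zero => exact ⟨hK, hT⟩
  | succ k ih => exact ⟨arith_mono ih.1 ih.2, harm_mono ih.1 ih.2⟩

theorem seq_add (K T : Set V) (k j : ℕ) :
    meanSeq K T (k + j) = meanSeq (meanSeq K T k).1 (meanSeq K T k).2 j := by
  induction j with
  | zero => rfl
  | succ j ih =>
    rw [← Nat.add_assoc]
    simp only [meanSeq, ih]

/-- Compatibility of the iteration with a linear map having a formal adjoint. -/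
theorem map_seq (P : V →ₗ[ℝ] W) (Q : W →ₗ[ℝ] V) (hPQ : ∀ x y, inner ℝ (P x) y = inner ℝ x (Q y))
    (K T : Set V) (k : ℕ) :
    P '' (meanSeq K T k).1 ⊆ (meanSeq (P '' K) (P '' T) k).1 ∧
      P '' (meanSeq K T k).2 ⊆ (meanSeq (P '' K) (P '' T) k).2 := by
  induction k with
  | zero => exact ⟨subset_rfl, subset_rfl⟩
  | succ k ih =>
    constructor
    · rintro _ ⟨x, hx, rfl⟩
      obtain ⟨a, ha, h, hh, rfl⟩ := mem_arith.1 hx
      refine mem_arith.2 ⟨P a, ih.1 ⟨a, ha, rfl⟩, P h, ih.2 ⟨h, hh, rfl⟩, ?_⟩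
      simp
    · rintro _ ⟨x, hx, rfl⟩
      refine mem_harm.2 fun y hy z hz => ?_
      have hx' := mem_harm.1 hx (Q y) ?_ (Q z) ?_
      · have : inner ℝ ((1 / 2 : ℝ) • (y + z)) (P x) =
            inner ℝ ((1 / 2 : ℝ) • (Q y + Q z)) x := by
          rw [real_inner_comm, hPQ, real_inner_comm]
          simp
        rw [this]
        exact hx'
      · intro a ha
        rw [← hPQ]
        exact hy _ (ih.1 ⟨a, ha, rfl⟩)
      · intro a ha
        rw [← hPQ]
        exact hz _ (ih.2 ⟨a, ha, rfl⟩)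

/-- Linear equivariance of the iteration. -/
theorem map_seq_eq (P : V ≃ₗ[ℝ] W) (Q : W ≃ₗ[ℝ] V)
    (hPQ : ∀ x y, inner ℝ (P x) y = inner ℝ x (Q y)) (K T : Set V) (k : ℕ) :
    (meanSeq (P '' K) (P '' T) k).1 = P '' (meanSeq K T k).1 ∧
      (meanSeq (P '' K) (P '' T) k).2 = P '' (meanSeq K T k).2 := by
  have h1 := map_seq P.toLinearMap Q.toLinearMap hPQ K T k
  have h2 := map_seq P.symm.toLinearMap Q.symm.toLinearMap (fun x y => by
    have := hPQ (P.symm x) (Q.symm y)
    simpa using this.symm) (P '' K) (P '' T) k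
  have e1 : ∀ S : Set V, (P.symm.toLinearMap : W → V) '' (P '' S) = S := by
    intro S; ext x; simp
  have e2 : ∀ (S : Set W) (S' : Set V), (P.symm.toLinearMap : W → V) '' S ⊆ S' → S ⊆ P '' S' := by
    intro S S' h x hx
    exact ⟨P.symm x, h ⟨x, hx, rfl⟩, by simp⟩
  rw [e1, e1] at h2
  refine ⟨subset_antisymm (e2 _ _ h2.1) h1.1, subset_antisymm (e2 _ _ h2.2) h1.2⟩

/-- Homogeneity of the iteration. -/
theorem smul_seq {c : ℝ} (hc : c ≠ 0) (K T : Set V) (k : ℕ) :
    (meanSeq (c • K) (c • T) k).1 = c • (meanSeq K T k).1 ∧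
      (meanSeq (c • K) (c • T) k).2 = c • (meanSeq K T k).2 := by
  have := map_seq_eq (LinearEquiv.smulOfNeZero ℝ V c hc) (LinearEquiv.smulOfNeZero ℝ V c hc)
    (fun x y => by simp [inner_smul_left, inner_smul_right]) K T k
  simpa using this

theorem isClosed_polar (K : Set V) : IsClosed (polarBody K) := by
  have : polarBody K = ⋂ x ∈ K, {y | inner ℝ x y ≤ 1} := by
    ext y; simp [polarBody]
  rw [this]
  exact isClosed_biInter fun x _ => isClosed_le (by fun_prop) continuous_const

theorem convex_polar (K : Set V) : Convex ℝ (polarBody K) := by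
  intro y hy z hz a b ha hb hab x hx
  rw [inner_add_right, inner_smul_right, inner_smul_right]
  have h1 := hy x hx
  have h2 := hz x hx
  nlinarith [mul_le_mul_of_nonneg_left h1 ha, mul_le_mul_of_nonneg_left h2 hb]

theorem zero_mem_polar (K : Set V) : (0 : V) ∈ polarBody K := fun x _ => by simp

theorem subset_polar_polar (K : Set V) : K ⊆ polarBody (polarBody K) := by
  intro x hx y hy
  rw [real_inner_comm]
  exact hy x hx

/-- Bipolar theorem. -/
theorem polar_polar [CompleteSpace V] {K : Set V} (hc : Convex ℝ K) (hcl : IsClosed K)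
    (h0 : (0 : V) ∈ K) : polarBody (polarBody K) = K := by
  refine subset_antisymm ?_ (subset_polar_polar K)
  intro x hx
  by_contra hxK
  obtain ⟨f, u, hfu, hux⟩ := geometric_hahn_banach_closed_point hc hcl hxK
  have hu : 0 < u := by simpa using hfu 0 h0
  set y : V := (InnerProductSpace.toDual ℝ V).symm f with hy
  have hfy : ∀ z, f z = inner ℝ y z := fun z => by
    rw [hy, InnerProductSpace.toDual_symm_apply]
  have hyK : u⁻¹ • y ∈ polarBody K := by
    intro z hz
    rw [inner_smul_right, real_inner_comm, ← hfy]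
    have := (hfu z hz).le
    rw [inv_mul_le_iff₀ hu]
    simpa using this
  have := hx _ hyK
  rw [inner_smul_left, ← hfy] at this
  simp only [conj_trivial] at this
  rw [inv_mul_le_iff₀ hu] at this
  linarith

theorem inner_le_norm_mul {x y : V} : inner ℝ x y ≤ ‖x‖ * ‖y‖ := real_inner_le_norm x y

/-! ### Symmetric convex bodies -/

namespace IsSymBody

variable {K T A H : Set V}

theorem zero_mem_interior (h : IsSymBody K) : (0 : V) ∈ interior K := by
  obtain ⟨x, hx⟩ := h.interior_nonempty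
  have hx' : -x ∈ interior K := by
    have h1 : -K = K := by
      ext y
      rw [Set.mem_neg]
      exact ⟨fun hy => by simpa using h.neg_mem _ hy, fun hy => h.neg_mem _ hy⟩
    have h2 : interior (-K) = -interior K := by
      have := (Homeomorph.neg V).preimage_interior K
      simpa using this.symm
    rw [h1] at h2
    rw [h2]
    simpa using hx
  have := h.convex.interior hx hx' (by norm_num : (0 : ℝ) ≤ 1 / 2) (by norm_num : (0 : ℝ) ≤ 1 / 2)
    (by norm_num)
  simpa using this

theorem zero_mem (h : IsSymBody K) : (0 : V) ∈ K := interior_subset h.zero_mem_interior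

theorem isClosed (h : IsSymBody K) : IsClosed K := h.isCompact.isClosed

theorem nonempty (h : IsSymBody K) : K.Nonempty := ⟨0, h.zero_mem⟩

theorem exists_ball (h : IsSymBody K) : ∃ r > 0, closedBall (0 : V) r ⊆ K := by
  have : K ∈ 𝓝 (0 : V) := mem_interior_iff_mem_nhds.1 h.zero_mem_interior
  obtain ⟨r, hr, hrK⟩ := Metric.nhds_basis_closedBall.mem_iff.1 this
  exact ⟨r, hr, hrK⟩

theorem exists_norm_le (h : IsSymBody K) : ∃ R > 0, ∀ x ∈ K, ‖x‖ ≤ R := by
  obtain ⟨R, hR⟩ := h.isCompact.isBounded.exists_norm_le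
  exact ⟨max R 1, by positivity, fun x hx => (hR x hx).trans (le_max_left _ _)⟩

theorem of_mem [FiniteDimensional ℝ V] (hc : IsClosed K) (hconv : Convex ℝ K)
    {r R : ℝ} (hr : 0 < r) (h1 : closedBall (0 : V) r ⊆ K) (h2 : ∀ x ∈ K, ‖x‖ ≤ R)
    (hneg : ∀ x ∈ K, -x ∈ K) : IsSymBody K where
  isCompact := by
    have : K ⊆ closedBall (0 : V) R := fun x hx => by simpa using h2 x hx
    have hp : ProperSpace V := FiniteDimensional.proper_real V
    exact (isCompact_closedBall (0 : V) R).of_isClosed_subset hc this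
  convex := hconv
  interior_nonempty := ⟨0, by
    rw [mem_interior_iff_mem_nhds]
    exact Filter.mem_of_superset (closedBall_mem_nhds _ hr) h1⟩
  neg_mem := hneg

theorem polar [FiniteDimensional ℝ V] (h : IsSymBody K) : IsSymBody (polarBody K) := by
  obtain ⟨r, hr, hrK⟩ := h.exists_ball
  obtain ⟨R, hR, hRK⟩ := h.exists_norm_le
  refine of_mem (r := R⁻¹) (R := r⁻¹) (isClosed_polar K) (convex_polar K) (by positivity)
    ?_ ?_ ?_
  · intro y hy x hx
    have hy' : ‖y‖ ≤ R⁻¹ := by simpa using hy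
    calc inner ℝ x y ≤ ‖x‖ * ‖y‖ := real_inner_le_norm x y
      _ ≤ R * R⁻¹ := mul_le_mul (hRK x hx) hy' (norm_nonneg _) hR.le
      _ = 1 := mul_inv_cancel₀ hR.ne'
  · intro y hy
    by_cases hy0 : y = 0
    · simp [hy0]; positivity
    have hyn : 0 < ‖y‖ := norm_pos_iff.2 hy0
    have hmem : (r / ‖y‖) • y ∈ K := hrK (by
      rw [mem_closedBall_zero_iff, norm_smul, norm_div, norm_norm, Real.norm_of_nonneg hr.le,
        div_mul_cancel₀ _ hyn.ne'])
    have := hy _ hmem
    rw [inner_smul_left, real_inner_self_eq_norm_sq] at this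
    simp only [conj_trivial] at this
    have h2 : r / ‖y‖ * ‖y‖ ^ 2 = r * ‖y‖ := by field_simp
    rw [h2] at this
    rw [← one_div, le_div_iff₀ hr]
    linarith
  · intro y hy x hx
    have := hy (-x) (h.neg_mem x hx)
    rw [inner_neg_left] at this
    rw [inner_neg_right]
    exact this

theorem arith [FiniteDimensional ℝ V] (hA : IsSymBody A) (hH : IsSymBody H) :
    IsSymBody (arithMean A H) := by
  obtain ⟨r, hr, hrA⟩ := hA.exists_ball
  obtain ⟨r', hr', hrH⟩ := hH.exists_ball
  have hcomp : IsCompact (arithMean A H) := (hA.isCompact.add hH.isCompact).smul _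
  refine ⟨hcomp, (hA.convex.add hH.convex).smul _, ?_, ?_⟩
  · refine ⟨0, ?_⟩
    rw [mem_interior_iff_mem_nhds]
    refine Filter.mem_of_superset (closedBall_mem_nhds (0 : V) (by positivity : 0 < r / 2)) ?_
    intro x hx
    refine mem_arith.2 ⟨(2 : ℝ) • x, hrA ?_, 0, hH.zero_mem, ?_⟩
    · rw [mem_closedBall_zero_iff] at hx ⊢
      rw [norm_smul, Real.norm_of_nonneg (by norm_num)]
      linarith
    · rw [add_zero, smul_smul]; norm_num
  · intro x hx
    obtain ⟨a, ha, h, hh, rfl⟩ := mem_arith.1 hx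
    refine mem_arith.2 ⟨-a, hA.neg_mem a ha, -h, hH.neg_mem h hh, ?_⟩
    rw [← smul_neg]; congr 1; abel

theorem harm [FiniteDimensional ℝ V] (hA : IsSymBody A) (hH : IsSymBody H) :
    IsSymBody (harmMean A H) := (hA.polar.arith hH.polar).polar

theorem seq [FiniteDimensional ℝ V] (hK : IsSymBody K) (hT : IsSymBody T) (k : ℕ) :
    IsSymBody (meanSeq K T k).1 ∧ IsSymBody (meanSeq K T k).2 := by
  induction k with
  | zero => exact ⟨hK, hT⟩
  | succ k ih => exact ⟨ih.1.arith ih.2, ih.1.harm ih.2⟩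

end IsSymBody

end Pool.Agent.Helper86.GM
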