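import Pool.Agent.Helper86.GMBasic

/-!
# Convergence of the arithmetic-harmonic iteration
-/

open MeasureTheory Metric Set Filter Topology
open scoped Pointwise

namespace Pool.Agent.Helper86.GM

set_option linter.unusedSectionVars false
set_option linter.unusedVariables false

variable {V : Type*} [NormedAddCommGroup V] [InnerProductSpace ℝ V] [FiniteDimensional ℝ V]

variable {K T A H : Set V}

theorem IsSymBody.polar_polar (h : IsSymBody K) : polarBody (polarBody K) = K := by
  have : CompleteSpace V := FiniteDimensional.complete ℝ V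
  exact Pool.Agent.Helper86.GM.polar_polar h.convex h.isClosed h.zero_mem

/-- support-function type estimate: if `⟪a, y⟫ ≤ s` on `A`, `s > 0`, then `s⁻¹ y ∈ A°`. -/
theorem smul_mem_polar {y : V} {s : ℝ} (hs : 0 < s) (h : ∀ a ∈ A, inner ℝ a y ≤ s) {t : ℝ}
    (ht : 0 ≤ t) (hts : t * s ≤ 1) : t • y ∈ polarBody A := by
  intro a ha
  rw [inner_smul_right]
  exact (mul_le_mul_of_nonneg_left (h a ha) ht).trans hts

/-- `harm ⊆ arith`. -/
theorem harm_subset_arith (hA : IsSymBody A) (hH : IsSymBody H) :
    harmMean A H ⊆ arithMean A H := by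
  have key : polarBody (arithMean A H) ⊆ arithMean (polarBody A) (polarBody H) := by
    intro y hy
    by_cases hy0 : y = 0
    · subst hy0
      exact mem_arith.2 ⟨0, zero_mem_polar A, 0, zero_mem_polar H, by simp⟩
    -- support values
    obtain ⟨a, ha, hamax⟩ := hA.isCompact.exists_isMaxOn hA.nonempty
      (f := fun x => inner ℝ x y) (by fun_prop)
    obtain ⟨h, hh, hhmax⟩ := hH.isCompact.exists_isMaxOn hH.nonempty
      (f := fun x => inner ℝ x y) (by fun_prop)
    have hapos : 0 < inner ℝ a y := by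
      obtain ⟨r, hr, hrA⟩ := hA.exists_ball
      have hyn : 0 < ‖y‖ := norm_pos_iff.2 hy0
      have hmem : (r / ‖y‖) • y ∈ A := hrA (by
        rw [mem_closedBall_zero_iff, norm_smul, norm_div, norm_norm, Real.norm_of_nonneg hr.le,
          div_mul_cancel₀ _ hyn.ne'])
      have h1 := hamax hmem
      simp only [mem_ofPred_eq, inner_smul_left, conj_trivial, real_inner_self_eq_norm_sq] at h1
      have : 0 < r / ‖y‖ * ‖y‖ ^ 2 := by positivity
      linarith
    have hhpos : 0 < inner ℝ h y := by
      obtain ⟨r, hr, hrA⟩ := hH.exists_ball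
      have hyn : 0 < ‖y‖ := norm_pos_iff.2 hy0
      have hmem : (r / ‖y‖) • y ∈ H := hrA (by
        rw [mem_closedBall_zero_iff, norm_smul, norm_div, norm_norm, Real.norm_of_nonneg hr.le,
          div_mul_cancel₀ _ hyn.ne'])
      have h1 := hhmax hmem
      simp only [mem_ofPred_eq, inner_smul_left, conj_trivial, real_inner_self_eq_norm_sq] at h1
      have : 0 < r / ‖y‖ * ‖y‖ ^ 2 := by positivity
      linarith
    set p := inner ℝ a y with hp
    set q := inner ℝ h y with hq
    have hpq : p + q ≤ 2 := by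
      have := hy ((1 / 2 : ℝ) • (a + h)) (mem_arith.2 ⟨a, ha, h, hh, rfl⟩)
      rw [inner_smul_left, inner_add_left] at this
      simp only [conj_trivial] at this
      rw [← hp, ← hq] at this
      linarith
    have hpq0 : 0 < p + q := by linarith
    have hprod : 2 * q * p ≤ p + q := by nlinarith [sq_nonneg (p - q)]
    refine mem_arith.2 ⟨(2 * q / (p + q)) • y, smul_mem_polar hapos (fun x hx => hamax hx)
      (by positivity) ?_, (2 * p / (p + q)) • y, smul_mem_polar hhpos (fun x hx => hhmax hx)
      (by positivity) ?_, ?_⟩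
    · rw [div_mul_eq_mul_div, div_le_one hpq0]; linarith
    · rw [div_mul_eq_mul_div, div_le_one hpq0]; linarith
    · rw [← add_smul, smul_smul]
      have : 1 / 2 * (2 * q / (p + q) + 2 * p / (p + q)) = 1 := by field_simp; ring
      rw [this, one_smul]
  have h1 := polar_anti key
  rw [(hA.arith hH).polar_polar] at h1
  exact h1

theorem seq_harm_subset_arith (hK : IsSymBody K) (hT : IsSymBody T) (k : ℕ) :
    (meanSeq K T (k + 1)).2 ⊆ (meanSeq K T (k + 1)).1 :=
  harm_subset_arith (hK.seq hT k).1 (hK.seq hT k).2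

theorem arith_subset_of_convex (hA : Convex ℝ A) (h : H ⊆ A) : arithMean A H ⊆ A := by
  intro x hx
  obtain ⟨a, ha, y, hy, rfl⟩ := mem_arith.1 hx
  rw [smul_add]
  exact hA ha (h hy) (by norm_num) (by norm_num) (by norm_num)

theorem subset_harm (hA : IsSymBody A) (hH : IsSymBody H) (h : H ⊆ A) : H ⊆ harmMean A H := by
  have h1 : arithMean (polarBody A) (polarBody H) ⊆ polarBody H := by
    intro x hx
    obtain ⟨a, ha, y, hy, rfl⟩ := mem_arith.1 hx
    rw [smul_add]
    exact (convex_polar H) (polar_anti h ha) hy (by norm_num) (by norm_num) (by norm_num)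
  have h2 := polar_anti h1
  rw [hH.polar_polar] at h2
  exact h2

theorem seq_arith_succ_subset (hK : IsSymBody K) (hT : IsSymBody T) (k : ℕ) :
    (meanSeq K T (k + 2)).1 ⊆ (meanSeq K T (k + 1)).1 :=
  arith_subset_of_convex (hK.seq hT (k + 1)).1.convex (seq_harm_subset_arith hK hT k)

theorem seq_harm_subset_succ (hK : IsSymBody K) (hT : IsSymBody T) (k : ℕ) :
    (meanSeq K T (k + 1)).2 ⊆ (meanSeq K T (k + 2)).2 :=
  subset_harm (hK.seq hT (k + 1)).1 (hK.seq hT (k + 1)).2 (seq_harm_subset_arith hK hT k)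

theorem seq_arith_antitone (hK : IsSymBody K) (hT : IsSymBody T) :
    Antitone fun k => (meanSeq K T (k + 1)).1 :=
  antitone_nat_of_succ_le fun k => seq_arith_succ_subset hK hT k

theorem seq_harm_monotone (hK : IsSymBody K) (hT : IsSymBody T) :
    Monotone fun k => (meanSeq K T (k + 1)).2 :=
  monotone_nat_of_le_succ fun k => seq_harm_subset_succ hK hT k

/-- Convex set scaling: if `C` convex, contains 0, then `s • C ⊆ t • C` for `0 ≤ s ≤ t`. -/
theorem smul_subset_smul_of_le {C : Set V} (hC : Convex ℝ C) (h0 : (0 : V) ∈ C) {s t : ℝ}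
    (hs : 0 ≤ s) (hst : s ≤ t) : s • C ⊆ t • C := by
  rintro _ ⟨x, hx, rfl⟩
  rcases hs.eq_or_lt with rfl | hs
  · exact ⟨0, h0, by simp⟩
  have ht : 0 < t := hs.trans_le hst
  refine ⟨(s / t) • x, ?_, ?_⟩
  · have := hC h0 hx (a := 1 - s / t) (b := s / t) (by
      rw [sub_nonneg, div_le_one ht]; exact hst) (by positivity) (by ring)
    simpa using this
  · simp only [smul_smul]
    congr 1
    field_simp

/-- The gap halves at every step. -/
theorem seq_gap (hK : IsSymBody K) (hT : IsSymBody T) :
    ∃ δ : ℝ, 0 ≤ δ ∧ ∀ k : ℕ,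
      (meanSeq K T (k + 1)).1 ⊆ (1 + δ / 2 ^ k) • (meanSeq K T (k + 1)).2 := by
  obtain ⟨R, hR, hA⟩ := (hK.seq hT 1).1.exists_norm_le
  obtain ⟨r, hr, hH⟩ := (hK.seq hT 1).2.exists_ball
  refine ⟨R / r, by positivity, fun k => ?_⟩
  induction k with
  | zero =>
    have h1 : (meanSeq K T (0 + 1)).1 ⊆ (R / r) • (meanSeq K T (0 + 1)).2 := by
      intro x hx
      refine ⟨(r / R) • x, hH ?_, ?_⟩
      · rw [mem_closedBall_zero_iff, norm_smul, Real.norm_of_nonneg (by positivity)]
        have := hA x hx
        calc r / R * ‖x‖ ≤ r / R * R := by gcongr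
          _ = r := by field_simp
      · simp only [smul_smul]
        have : R / r * (r / R) = 1 := by field_simp
        rw [this, one_smul]
    refine h1.trans (smul_subset_smul_of_le (hK.seq hT (0 + 1)).2.convex
      (hK.seq hT (0 + 1)).2.zero_mem (by positivity) (by simp))
  | succ k ih =>
    have hsub := seq_harm_subset_succ hK hT k
    intro x hx
    obtain ⟨a, ha, h, hh, rfl⟩ := mem_arith.1 hx
    obtain ⟨b, hb, hba⟩ := ih ha
    have hconv := (hK.seq hT (k + 1)).2.convex
    set δ := R / r with hδ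
    set e := δ / 2 ^ (k + 1) with he
    have he' : δ / 2 ^ k = 2 * e := by rw [he, pow_succ]; field_simp
    have he0 : 0 ≤ e := by positivity
    refine ⟨((1 + 2 * e) / (2 * (1 + e))) • b + (1 / (2 * (1 + e))) • h, hsub ?_, ?_⟩
    · exact hconv hb hh (by positivity) (by positivity) (by field_simp; ring)
    · have hba' : a = (1 + 2 * e) • b := by
        rw [← hba, he']
      rw [hba']
      simp only [smul_add, smul_smul]
      congr 1
      · congr 1; field_simp
      · congr 1; field_simp

/-- The candidate for the geometric mean: the intersection of the decreasing sequence `A_k`. -/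
def geomMean (K T : Set V) : Set V := ⋂ k : ℕ, (meanSeq K T (k + 1)).1

theorem geomMean_subset (k : ℕ) : geomMean K T ⊆ (meanSeq K T (k + 1)).1 := iInter_subset _ k

theorem harm_subset_geomMean (hK : IsSymBody K) (hT : IsSymBody T) (k : ℕ) :
    (meanSeq K T (k + 1)).2 ⊆ geomMean K T := by
  refine subset_iInter fun j => ?_
  rcases le_total k j with h | h
  · exact (seq_harm_monotone hK hT h).trans (seq_harm_subset_arith hK hT j)
  · exact (seq_harm_subset_arith hK hT k).trans (seq_arith_antitone hK hT h)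

theorem isSymBody_geomMean (hK : IsSymBody K) (hT : IsSymBody T) :
    IsSymBody (geomMean K T) := by
  obtain ⟨R, hR, hA⟩ := (hK.seq hT 1).1.exists_norm_le
  obtain ⟨r, hr, hH⟩ := (hK.seq hT 1).2.exists_ball
  refine IsSymBody.of_mem (isClosed_iInter fun k => (hK.seq hT (k + 1)).1.isClosed)
    (convex_iInter fun k => (hK.seq hT (k + 1)).1.convex) hr
    (hH.trans (harm_subset_geomMean hK hT 0)) (fun x hx => hA x (geomMean_subset 0 hx)) ?_
  intro x hx
  refine mem_iInter.2 fun k => (hK.seq hT (k + 1)).1.neg_mem x (mem_iInter.1 hx k)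

/-- Sandwich criterion for the Hausdorff distance. -/
theorem hausdorffDist_le_of_sandwich {C D : Set V} {R η : ℝ} (hR : 0 ≤ R)
    (hη : 0 ≤ η) (hDR : ∀ x ∈ D, ‖x‖ ≤ R) (h1 : D ⊆ C) (h2 : C ⊆ (1 + η) • D) :
    hausdorffDist C D ≤ η * R := by
  refine hausdorffDist_le_of_mem_dist (by positivity) ?_ ?_
  · intro x hx
    obtain ⟨y, hy, rfl⟩ := h2 hx
    refine ⟨y, hy, ?_⟩
    have : (fun x => (1 + η) • x) y - y = η • y := by simp [add_smul]
    rw [dist_eq_norm, this, norm_smul, Real.norm_of_nonneg hη]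
    exact mul_le_mul_of_nonneg_left (hDR y hy) hη
  · intro y hy
    refine ⟨y, h1 hy, ?_⟩
    rw [dist_self]; positivity

theorem isGeomMean_geomMean (hK : IsSymBody K) (hT : IsSymBody T) :
    IsGeomMean K T (geomMean K T) := by
  have hG := isSymBody_geomMean hK hT
  obtain ⟨δ, hδ, hgap⟩ := seq_gap hK hT
  obtain ⟨R, hR, hA⟩ := (hK.seq hT 1).1.exists_norm_le
  have hGR : ∀ x ∈ geomMean K T, ‖x‖ ≤ R := fun x hx => hA x (geomMean_subset 0 hx)
  have hlim : Tendsto (fun k : ℕ => δ / 2 ^ k * R) atTop (𝓝 0) := by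
    have h1 : Tendsto (fun k : ℕ => (1 / 2 : ℝ) ^ k) atTop (𝓝 0) :=
      tendsto_pow_atTop_nhds_zero_of_lt_one (by norm_num) (by norm_num)
    have h2 := h1.const_mul (δ * R)
    rw [mul_zero] at h2
    refine h2.congr fun k => ?_
    rw [one_div, inv_pow]; field_simp
  refine ⟨hG.isCompact, hG.nonempty, ?_, ?_⟩
  · rw [← tendsto_add_atTop_iff_nat 1]
    refine squeeze_zero (fun _ => hausdorffDist_nonneg) (fun k => ?_) hlim
    refine hausdorffDist_le_of_sandwich hR.le (by positivity) hGR (geomMean_subset k)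
      ((hgap k).trans ?_)
    exact smul_set_mono (harm_subset_geomMean hK hT k)
  · rw [← tendsto_add_atTop_iff_nat 1]
    refine squeeze_zero (fun _ => hausdorffDist_nonneg) (fun k => ?_) hlim
    rw [hausdorffDist_comm]
    refine hausdorffDist_le_of_sandwich hR.le (by positivity)
      (fun x hx => hGR x (harm_subset_geomMean hK hT k hx)) (harm_subset_geomMean hK hT k)
      ((geomMean_subset k).trans (hgap k))

theorem IsGeomMean.unique {K T G G' : Set V} (hK : IsSymBody K) (hT : IsSymBody T)
    (h : IsGeomMean K T G) (h' : IsGeomMean K T G') : G = G' := by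
  have key : hausdorffDist G G' = 0 := by
    refine le_antisymm ?_ hausdorffDist_nonneg
    have h1 : Tendsto (fun k => hausdorffDist (meanSeq K T k).1 G +
        hausdorffDist (meanSeq K T k).1 G') atTop (𝓝 0) := by
      simpa using h.tendsto_arith.add h'.tendsto_arith
    refine ge_of_tendsto' h1 fun k => ?_
    rw [hausdorffDist_comm (s := (meanSeq K T k).1) (t := G)]
    refine hausdorffDist_triangle ?_
    exact hausdorffEDist_ne_top_of_nonempty_of_bounded h.nonempty (hK.seq hT k).1.nonempty
      h.isCompact.isBounded (hK.seq hT k).1.isCompact.isBounded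
  refine (h.isCompact.isClosed.hausdorffDist_zero_iff_eq h'.isCompact.isClosed ?_).1 key
  exact hausdorffEDist_ne_top_of_nonempty_of_bounded h.nonempty h'.nonempty
    h.isCompact.isBounded h'.isCompact.isBounded

theorem isGeomMean_iff {K T G : Set V} (hK : IsSymBody K) (hT : IsSymBody T) :
    IsGeomMean K T G ↔ G = geomMean K T :=
  ⟨fun h => h.unique hK hT (isGeomMean_geomMean hK hT),
    fun h => h ▸ isGeomMean_geomMean hK hT⟩

/-! ### The dual pair -/

theorem seq_dual {X : Set V} (hX : IsSymBody X) (k : ℕ) :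
    (meanSeq X (polarBody X) k).2 = polarBody (meanSeq X (polarBody X) k).1 := by
  induction k with
  | zero => rfl
  | succ k ih =>
    have hs := hX.seq hX.polar k
    change harmMean _ _ = polarBody (arithMean _ _)
    unfold harmMean arithMean
    rw [ih, hs.1.polar_polar, add_comm]

/-- The harmonic iterates of a dual pair are contained in the unit ball. -/
theorem seq_dual_harm_subset {X : Set V} (hX : IsSymBody X) (k : ℕ) :
    (meanSeq X (polarBody X) (k + 1)).2 ⊆ closedBall (0 : V) 1 := by
  intro x hx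
  have h1 := seq_harm_subset_arith hX hX.polar k hx
  rw [seq_dual hX] at hx
  have := hx x h1
  rw [real_inner_self_eq_norm_sq] at this
  rw [mem_closedBall_zero_iff]
  nlinarith [norm_nonneg x]

/-- The arithmetic iterates of a dual pair contain the unit ball. -/
theorem seq_dual_ball_subset {X : Set V} (hX : IsSymBody X) (k : ℕ) :
    closedBall (0 : V) 1 ⊆ (meanSeq X (polarBody X) (k + 1)).1 := by
  have h1 := polar_anti (seq_dual_harm_subset hX k)
  rw [seq_dual hX, (hX.seq hX.polar (k + 1)).1.polar_polar] at h1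
  refine Subset.trans ?_ h1
  intro y hy x hx
  rw [mem_closedBall_zero_iff] at hx hy
  calc inner ℝ x y ≤ ‖x‖ * ‖y‖ := real_inner_le_norm x y
    _ ≤ 1 * 1 := mul_le_mul hx hy (norm_nonneg _) zero_le_one
    _ = 1 := one_mul 1

/-- `G(X, X°)` is the unit ball. -/
theorem geomMean_dual {X : Set V} (hX : IsSymBody X) :
    geomMean X (polarBody X) = closedBall (0 : V) 1 := by
  refine subset_antisymm ?_ (subset_iInter fun k => seq_dual_ball_subset hX k)
  obtain ⟨δ, hδ, hgap⟩ := seq_gap hX hX.polar
  intro x hx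
  rw [mem_closedBall_zero_iff]
  have hlim : Tendsto (fun k : ℕ => 1 + δ / 2 ^ k) atTop (𝓝 (1 + 0)) := by
    refine Tendsto.const_add 1 ?_
    have h1 : Tendsto (fun k : ℕ => (1 / 2 : ℝ) ^ k) atTop (𝓝 0) :=
      tendsto_pow_atTop_nhds_zero_of_lt_one (by norm_num) (by norm_num)
    have h2 := h1.const_mul δ
    rw [mul_zero] at h2
    refine h2.congr fun k => ?_
    rw [one_div, inv_pow]; field_simp
  rw [add_zero] at hlim
  refine ge_of_tendsto' hlim fun k => ?_
  obtain ⟨y, hy, rfl⟩ := hgap k (geomMean_subset k hx)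
  have hy1 := seq_dual_harm_subset hX k hy
  rw [mem_closedBall_zero_iff] at hy1
  have h0 : 0 ≤ 1 + δ / 2 ^ k := by positivity
  change ‖(1 + δ / 2 ^ k) • y‖ ≤ _
  rw [norm_smul, Real.norm_of_nonneg h0]
  nlinarith

theorem geomMean_mono {K K' T T' : Set V} (hK : K ⊆ K') (hT : T ⊆ T') :
    geomMean K T ⊆ geomMean K' T' :=
  iInter_mono fun k => (seq_mono hK hT (k + 1)).1

theorem image_geomMean (P : V ≃ₗ[ℝ] V) (Q : V ≃ₗ[ℝ] V)
    (hPQ : ∀ x y, inner ℝ (P x) y = inner ℝ x (Q y)) (K T : Set V) :
    geomMean (P '' K) (P '' T) = P '' geomMean K T := by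
  unfold geomMean
  rw [image_iInter P.bijective]
  exact iInter_congr fun k => (map_seq_eq P Q hPQ K T (k + 1)).1

end Pool.Agent.Helper86.GM
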