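import Pool.Agent.Helper86.GMBall
import Pool.Agent.Helper86.GMConv

/-!
# John's decomposition through D-optimal designs, and Ball's volume ratio theorem
-/

open MeasureTheory Metric Set Filter Topology
open scoped Pointwise ENNReal

set_option linter.unusedSectionVars false
set_option linter.unusedVariables false

namespace Pool.Agent.Helper86.GM

section Design

variable {V : Type*} [NormedAddCommGroup V] [InnerProductSpace ℝ V] [FiniteDimensional ℝ V]
variable {ι : Type*} [Fintype ι]

/-- Spectral data of `wop v w`. -/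
theorem wop_spectral (v : ι → V) (w : ι → ℝ) :
    ∃ (b : OrthonormalBasis (Fin (Module.finrank ℝ V)) ℝ V)
      (l : Fin (Module.finrank ℝ V) → ℝ),
      (∀ k, wop v w (b k) = l k • b k) ∧
      (∀ k, l k = ∑ i, w i * (inner ℝ (v i) (b k)) ^ 2) ∧
      (wop v w).det = ∏ k, l k := by
  have hsym := wop_isSymmetric v w
  have hdet : (wop v w).det = ∏ j, hsym.eigenvalues rfl j := by
    have := hsym.det_eq_prod_eigenvalues rfl
    exact_mod_cast this
  refine ⟨hsym.eigenvectorBasis rfl, hsym.eigenvalues rfl, ?_, ?_, hdet⟩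
  · intro k
    exact hsym.apply_eigenvectorBasis rfl k
  · intro k
    set b := hsym.eigenvectorBasis rfl with hb
    have h1 : inner ℝ (wop v w (b k)) (b k) = hsym.eigenvalues rfl k := by
      have h2 := hsym.apply_eigenvectorBasis rfl k
      simp only [ContinuousLinearMap.coe_coe] at h2
      rw [← hb] at h2
      rw [h2, inner_smul_left, real_inner_self_eq_norm_sq, b.norm_eq_one]
      simp
    rw [← h1, inner_wop]
    refine Finset.sum_congr rfl fun i _ => ?_
    ring

theorem continuous_det_wop (v : ι → V) : Continuous fun w : ι → ℝ => (wop v w).det := by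
  refine ContinuousLinearMap.continuous_det.comp ?_
  unfold wop
  fun_prop

theorem det_wop_smul (v : ι → V) (w : ι → ℝ) (t : ℝ) :
    (wop v (t • w)).det = t ^ (Module.finrank ℝ V) * (wop v w).det := by
  have h : wop v (t • w) = t • wop v w := by
    unfold wop
    rw [Finset.smul_sum]
    refine Finset.sum_congr rfl fun i _ => ?_
    rw [Pi.smul_apply, smul_assoc]
  rw [h, ContinuousLinearMap.det, ContinuousLinearMap.det]
  rw [ContinuousLinearMap.toLinearMap_smul, LinearMap.det_smul]

/-- Existence of a D-optimal design. -/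
theorem exists_design [Nonempty ι] (v : ι → V)
    (hv : ∀ x : V, (∀ i, inner ℝ (v i) x = 0) → x = 0) :
    ∃ w : ι → ℝ, (∀ i, 0 ≤ w i) ∧ ∑ i, w i = 1 ∧ 0 < (wop v w).det ∧
      ∀ w' : ι → ℝ, (∀ i, 0 ≤ w' i) →
        (wop v w').det ≤ (wop v w).det * (∑ i, w' i) ^ (Module.finrank ℝ V) := by
  classical
  obtain ⟨w, hw, hmax⟩ := (isCompact_stdSimplex ℝ ι).exists_isMaxOn
    ⟨fun _ => (Fintype.card ι : ℝ)⁻¹, by
      constructor
      · intro i; positivity
      · simp⟩ (continuous_det_wop v).continuousOn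
  have hpos : 0 < (wop v w).det := by
    have h1 : (wop v fun _ => (Fintype.card ι : ℝ)⁻¹).det ≤ (wop v w).det := hmax (by
      constructor
      · intro i; positivity
      · simp)
    refine lt_of_lt_of_le ?_ h1
    obtain ⟨b, l, hb, hl, hdet⟩ := wop_spectral v fun _ => (Fintype.card ι : ℝ)⁻¹
    rw [hdet]
    refine Finset.prod_pos fun k _ => ?_
    rw [hl k]
    have hbk : b k ≠ 0 := by
      intro h0
      have := b.norm_eq_one k
      rw [h0, norm_zero] at this
      exact zero_ne_one this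
    have : ∃ i, inner ℝ (v i) (b k) ≠ 0 := by
      by_contra hcon
      push Not at hcon
      exact hbk (hv _ hcon)
    obtain ⟨i, hi⟩ := this
    refine Finset.sum_pos' (fun j _ => by positivity) ⟨i, Finset.mem_univ i, by positivity⟩
  refine ⟨w, hw.1, hw.2, hpos, fun w' hw' => ?_⟩
  set S := ∑ i, w' i with hS
  have hS0 : 0 ≤ S := Finset.sum_nonneg fun i _ => hw' i
  rcases hS0.eq_or_lt with h0 | h0
  · have hz : w' = (0 : ℝ) • w := by
      ext i
      have := (Finset.sum_eq_zero_iff_of_nonneg fun i _ => hw' i).1 h0.symm i (Finset.mem_univ i)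
      simpa using this
    rw [hz, det_wop_smul, ← h0, mul_comm]
  · have hz : w' = S • (S⁻¹ • w') := by
      rw [smul_smul, mul_inv_cancel₀ h0.ne', one_smul]
    rw [hz, det_wop_smul, mul_comm]
    have h1 : (wop v (S⁻¹ • w')).det ≤ (wop v w).det := hmax (by
      constructor
      · intro i
        have := hw' i
        simp only [Pi.smul_apply, smul_eq_mul]
        positivity
      · simp only [Pi.smul_apply, smul_eq_mul, ← Finset.mul_sum]
        rw [← hS]
        field_simp)
    have h2 : 0 ≤ S ^ (Module.finrank ℝ V) := by positivity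
    exact mul_le_mul_of_nonneg_right h1 h2

/-- Directional optimality: `⟪vⱼ, M⁻¹ vⱼ⟫ ≤ n`. -/
theorem design_bound (v : ι → V) (w : ι → ℝ) (hw : ∀ i, 0 ≤ w i) (hw1 : ∑ i, w i = 1)
    (hpos : 0 < (wop v w).det)
    (hmax : ∀ w' : ι → ℝ, (∀ i, 0 ≤ w' i) →
        (wop v w').det ≤ (wop v w).det * (∑ i, w' i) ^ (Module.finrank ℝ V))
    (j : ι) (x : V) (hx : wop v w x = v j) :
    inner ℝ (v j) x ≤ Module.finrank ℝ V := by
  classical
  set n := Module.finrank ℝ V with hn
  have key : ∀ s : ℝ, 0 < s → 1 + s * inner ℝ (v j) x ≤ (1 + s) ^ n := by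
    intro s hs
    have h1 := hmax (w + Pi.single j s) (fun i => by
      by_cases hij : i = j
      · subst hij; simp only [Pi.add_apply, Pi.single_eq_same]; have := hw i; positivity
      · simp only [Pi.add_apply, Pi.single_eq_of_ne hij, add_zero]; exact hw i)
    have h2 : ∑ i, (w + Pi.single j s : ι → ℝ) i = 1 + s := by
      simp only [Pi.add_apply, Finset.sum_add_distrib, hw1, Finset.sum_pi_single',
        Finset.mem_univ, if_true]
    rw [h2] at h1
    have h3 : ((wop v (w + Pi.single j s) : V →L[ℝ] V) : V →ₗ[ℝ] V) =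
        ((wop v w : V →L[ℝ] V) : V →ₗ[ℝ] V) ∘ₗ
          LinearMap.transvection (s • (innerSL ℝ (v j) : V →L[ℝ] ℝ).toLinearMap) x := by
      ext y
      simp only [ContinuousLinearMap.coe_coe, LinearMap.comp_apply, LinearMap.transvection.apply]
      rw [map_add, map_smul, hx, wop_apply, wop_apply]
      have : ∀ i, ((w + Pi.single j s : ι → ℝ) i * inner ℝ (v i) y) • v i =
          (w i * inner ℝ (v i) y) • v i + ((Pi.single j s : ι → ℝ) i * inner ℝ (v i) y) • v i := by
        intro i; rw [Pi.add_apply, add_mul, add_smul]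
      simp only [this, Finset.sum_add_distrib]
      congr 1
      rw [Finset.sum_eq_single j]
      · simp
      · intro i _ hij; simp [Pi.single_eq_of_ne hij]
      · simp
    have h4 : (wop v (w + Pi.single j s)).det =
        (wop v w).det * (1 + s * inner ℝ (v j) x) := by
      rw [ContinuousLinearMap.det, h3, LinearMap.det_comp, LinearMap.transvection.det]
      simp [ContinuousLinearMap.det]
    rw [h4] at h1
    exact le_of_mul_le_mul_left h1 hpos
  -- take the derivative at `0`
  have hder : HasDerivAt (fun s : ℝ => (1 + s) ^ n) ((n : ℝ) * (1 + 0) ^ (n - 1) * 1) 0 := by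
    have h1 : HasDerivAt (fun s : ℝ => 1 + s) 1 0 := (hasDerivAt_id 0).const_add 1
    exact h1.pow n
  simp only [add_zero, one_pow, mul_one] at hder
  have hslope := hder.tendsto_slope_zero_right
  refine ge_of_tendsto hslope ?_
  filter_upwards [self_mem_nhdsWithin] with s hs
  have hs' : 0 < s := hs
  simp only [zero_add, add_zero, one_pow, smul_eq_mul]
  rw [inv_mul_eq_div, le_div_iff₀ hs']
  have := key s hs'
  linarith

/-- John's decomposition of the identity. -/
theorem exists_john [Nonempty ι] (hn : 0 < Module.finrank ℝ V) (v : ι → V)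
    (hv : ∀ x : V, (∀ i, inner ℝ (v i) x = 0) → x = 0) :
    ∃ R : V →L[ℝ] V, (∀ x y, inner ℝ (R x) y = inner ℝ x (R y)) ∧ R.det ≠ 0 ∧
      (∀ i, ‖R (v i)‖ ≤ 1) ∧ ∃ c : ι → ℝ, (∀ i, 0 ≤ c i) ∧
        (∀ x, ∑ i, c i * (inner ℝ (R (v i)) x) ^ 2 = ‖x‖ ^ 2) ∧
        (∀ i, 0 < c i → ‖R (v i)‖ = 1) := by
  classical
  obtain ⟨w, hw, hw1, hpos, hmax⟩ := exists_design v hv
  obtain ⟨b, l, hb, hl, hdet⟩ := wop_spectral v w
  set n : ℝ := (Module.finrank ℝ V : ℝ) with hndef
  have hn' : (0 : ℝ) < n := by rw [hndef]; exact_mod_cast hn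
  have hlpos : ∀ k, 0 < l k := by
    intro k
    have h0 : 0 ≤ l k := by
      rw [hl k]; exact Finset.sum_nonneg fun i _ => mul_nonneg (hw i) (sq_nonneg _)
    refine h0.lt_of_ne' ?_
    intro h
    rw [hdet, Finset.prod_eq_zero (Finset.mem_univ k) h] at hpos
    exact lt_irrefl _ hpos
  set ρ : Fin (Module.finrank ℝ V) → ℝ := fun k => (√(n * l k))⁻¹ with hρ
  have hρsq : ∀ k, n * (l k * (ρ k * ρ k)) = 1 := by
    intro k
    have h1 := hlpos k
    have h2 : √(n * l k) * √(n * l k) = n * l k := Real.mul_self_sqrt (by positivity)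
    have h3 : ρ k * ρ k = (n * l k)⁻¹ := by
      rw [hρ]; simp only; rw [← mul_inv, h2]
    rw [h3]; field_simp
  set R : V →L[ℝ] V := wop (fun k => b k) ρ with hR
  have hRsym : ∀ x y, inner ℝ (R x) y = inner ℝ x (R y) := fun x y => wop_isSymmetric _ _ x y
  have hRb : ∀ k, R (b k) = ρ k • b k := by
    intro k
    rw [hR, wop_apply, Finset.sum_eq_single k]
    · rw [real_inner_self_eq_norm_sq, b.norm_eq_one]; simp
    · intro i _ hik
      have : inner ℝ (b i) (b k) = 0 := b.orthonormal.2 hik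
      rw [this]; simp
    · simp
  have hext : ∀ (f g : V →ₗ[ℝ] V), (∀ k, f (b k) = g (b k)) → f = g := by
    intro f g h
    refine b.toBasis.ext fun k => ?_
    simpa using h k
  have hMRR : ∀ x, n • wop v w (R (R x)) = x := by
    intro x
    have : n • (((wop v w : V →L[ℝ] V) : V →ₗ[ℝ] V) ∘ₗ (R : V →ₗ[ℝ] V) ∘ₗ
        (R : V →ₗ[ℝ] V)) = LinearMap.id := by
      refine hext _ _ fun k => ?_
      simp only [LinearMap.smul_apply, LinearMap.comp_apply, ContinuousLinearMap.coe_coe, hRb,
        map_smul, hb, smul_smul, LinearMap.id_apply]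
      have := hρsq k
      rw [show n * (ρ k * ρ k * l k) = n * (l k * (ρ k * ρ k)) by ring, this, one_smul]
    exact LinearMap.congr_fun this x
  have hRMR : ∀ x, n • R (wop v w (R x)) = x := by
    intro x
    have : n • ((R : V →ₗ[ℝ] V) ∘ₗ ((wop v w : V →L[ℝ] V) : V →ₗ[ℝ] V) ∘ₗ
        (R : V →ₗ[ℝ] V)) = LinearMap.id := by
      refine hext _ _ fun k => ?_
      simp only [LinearMap.smul_apply, LinearMap.comp_apply, ContinuousLinearMap.coe_coe, hRb,
        map_smul, hb, smul_smul, LinearMap.id_apply]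
      have := hρsq k
      rw [show n * (ρ k * l k * ρ k) = n * (l k * (ρ k * ρ k)) by ring, this, one_smul]
    exact LinearMap.congr_fun this x
  have hRdet : R.det ≠ 0 := by
    intro h0
    have h1 : (R : V →ₗ[ℝ] V) ∘ₗ (n • (((wop v w : V →L[ℝ] V) : V →ₗ[ℝ] V) ∘ₗ
        (R : V →ₗ[ℝ] V))) = LinearMap.id := by
      ext x
      simpa using hRMR x
    have h2 := congrArg LinearMap.det h1
    rw [LinearMap.det_comp, LinearMap.det_id] at h2
    rw [ContinuousLinearMap.det] at h0
    rw [h0, zero_mul] at h2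
    exact zero_ne_one h2
  have hle : ∀ i, ‖R (v i)‖ ^ 2 ≤ 1 := by
    intro i
    have h1 := design_bound v w hw hw1 hpos hmax i (n • R (R (v i))) (by
      rw [map_smul]; exact hMRR (v i))
    rw [inner_smul_right, ← hRsym, real_inner_self_eq_norm_sq] at h1
    have h2 : n * ‖R (v i)‖ ^ 2 ≤ n * 1 := by rw [mul_one]; exact h1
    exact le_of_mul_le_mul_left h2 hn'
  have hdec : ∀ x, ∑ i, (n * w i) * (inner ℝ (R (v i)) x) ^ 2 = ‖x‖ ^ 2 := by
    intro x
    have h1 : ∑ i, (n * w i) * (inner ℝ (R (v i)) x) ^ 2 =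
        n * inner ℝ (wop v w (R x)) (R x) := by
      rw [inner_wop, Finset.mul_sum]
      refine Finset.sum_congr rfl fun i _ => ?_
      rw [hRsym]; ring
    have h2 : inner ℝ (wop v w (R x)) (R x) = inner ℝ (R (wop v w (R x))) x := by
      rw [hRsym]
    rw [h1, h2, ← real_inner_self_eq_norm_sq]
    have h3 : inner ℝ (n • R (wop v w (R x))) x = inner ℝ x x := by rw [hRMR x]
    rw [inner_smul_left] at h3
    simpa using h3
  refine ⟨R, hRsym, hRdet, fun i => ?_, fun i => n * w i, fun i => mul_nonneg hn'.le (hw i),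
    hdec, ?_⟩
  · have := hle i
    nlinarith [norm_nonneg (R (v i))]
  · -- trace identity
    have htr : ∑ i, (n * w i) * ‖R (v i)‖ ^ 2 = n := by
      set b' := stdOrthonormalBasis ℝ V
      calc ∑ i, (n * w i) * ‖R (v i)‖ ^ 2
          = ∑ i, (n * w i) * ∑ j, (inner ℝ (R (v i)) (b' j)) ^ 2 := by
            refine Finset.sum_congr rfl fun i _ => ?_
            have := b'.sum_sq_norm_inner_left (R (v i))
            simp only [Real.norm_eq_abs, sq_abs] at this
            rw [this]
        _ = ∑ j, ∑ i, (n * w i) * (inner ℝ (R (v i)) (b' j)) ^ 2 := by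
            simp only [Finset.mul_sum]
            exact Finset.sum_comm
        _ = ∑ j : Fin (Module.finrank ℝ V), (1 : ℝ) := by
            refine Finset.sum_congr rfl fun j _ => ?_
            rw [hdec, b'.norm_eq_one, one_pow]
        _ = n := by simp [hndef]
    have hsum : ∑ i, (n * w i) * (1 - ‖R (v i)‖ ^ 2) = 0 := by
      simp only [mul_sub, mul_one, Finset.sum_sub_distrib]
      rw [htr, ← Finset.mul_sum, hw1, mul_one, sub_self]
    have hterm := (Finset.sum_eq_zero_iff_of_nonneg fun i _ =>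
      mul_nonneg (mul_nonneg hn'.le (hw i)) (sub_nonneg.2 (hle i))).1 hsum
    intro i hi
    have h1 := hterm i (Finset.mem_univ i)
    rcases mul_eq_zero.1 h1 with h2 | h2
    · exact absurd h2 hi.ne'
    · have h3 : ‖R (v i)‖ ^ 2 = 1 := by linarith
      have h4 := norm_nonneg (R (v i))
      nlinarith

end Design

section Ball

variable {V : Type*} [NormedAddCommGroup V] [InnerProductSpace ℝ V] [FiniteDimensional ℝ V]
  [MeasurableSpace V] [BorelSpace V]

/-- Ball's volume ratio theorem (with an arbitrarily small loss, which is enough here):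
every symmetric convex body `K` contains an ellipsoid `(1+ε)⁻¹ R(B)` with
`|K| ≤ (1+ε)ⁿ 2ⁿ |det R|`. -/
theorem volume_ratio (hn : 0 < Module.finrank ℝ V) {K : Set V} (hK : IsSymBody K) {ε : ℝ}
    (hε : 0 < ε) :
    ∃ R : V →L[ℝ] V, (∀ x y, inner ℝ (R x) y = inner ℝ x (R y)) ∧ R.det ≠ 0 ∧
      R '' closedBall 0 1 ⊆ (1 + ε) • K ∧
      volume K ≤ ENNReal.ofReal ((1 + ε) ^ Module.finrank ℝ V) *
        (ENNReal.ofReal |R.det| * 2 ^ Module.finrank ℝ V) := by
  classical
  have hKo := hK.polar
  have h1ε : (0 : ℝ) < 1 + ε := by positivity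
  -- intercalate a polytope
  obtain ⟨t, ht1, ht2⟩ := Convex.exists_subset_interior_convexHull_finset_of_isCompact
    (hKo.convex.smul (1 + ε)⁻¹) (hKo.isCompact.smul (1 + ε)⁻¹) (t := polarBody K) (by
      rw [mem_nhdsSet_iff_forall]
      rintro _ ⟨y, hy, rfl⟩
      have h2 := hKo.convex.closure_subset_interior_image_homothety_of_one_lt
        hKo.zero_mem_interior (1 + ε) (by linarith) (subset_closure hy)
      rw [← mem_interior_iff_mem_nhds]
      have h3 : (AffineMap.homothety (0 : V) (1 + ε)) '' polarBody K =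
          (1 + ε) • polarBody K := by
        ext z; simp [AffineMap.homothety_apply, mem_smul_set, add_smul]
      rw [h3, interior_smul₀ h1ε.ne'] at h2
      obtain ⟨z, hz, hzy⟩ := h2
      have : (1 + ε)⁻¹ • y = z := by
        rw [← hzy]; simp only [smul_smul]
        rw [inv_mul_cancel₀ h1ε.ne', one_smul]
      simpa [this] using hz)
  have ht1' : (1 + ε)⁻¹ • polarBody K ⊆ convexHull ℝ (t : Set V) := ht1.trans interior_subset
  have htK : ∀ v ∈ t, v ∈ polarBody K := fun v hv => ht2 (subset_convexHull ℝ _ hv)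
  have htne : t.Nonempty := by
    by_contra h
    rw [Finset.not_nonempty_iff_eq_empty] at h
    subst h
    have h2 : (0 : V) ∈ (1 + ε)⁻¹ • polarBody K := ⟨0, hKo.zero_mem, by simp⟩
    have := ht1' h2
    simp at this
  have : Nonempty t := htne.to_subtype
  -- if `⟪v, x⟫ ≤ s` for all `v ∈ t` then the same holds on the convex hull
  have hhull : ∀ (x : V) (s : ℝ), (∀ v ∈ t, inner ℝ v x ≤ s) →
      ∀ y ∈ convexHull ℝ (t : Set V), inner ℝ y x ≤ s := by
    intro x s h
    have hconv : Convex ℝ {y : V | inner ℝ y x ≤ s} := by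
      intro y hy z hz a b ha hb hab
      simp only [mem_ofPred_eq] at hy hz ⊢
      rw [inner_add_left, inner_smul_left, inner_smul_left]
      simp only [conj_trivial]
      calc a * inner ℝ y x + b * inner ℝ z x ≤ a * s + b * s := by gcongr
        _ = s := by rw [← add_mul, hab, one_mul]
    exact fun y hy => convexHull_min (s := (t : Set V)) (fun v hv => h v hv) hconv hy
  have hspan : ∀ x : V, (∀ i : t, inner ℝ (i : V) x = 0) → x = 0 := by
    intro x hx
    obtain ⟨r, hr, hrK⟩ := hKo.exists_ball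
    by_contra hx0
    have hxn : 0 < ‖x‖ := norm_pos_iff.2 hx0
    have hmem : (r / ‖x‖) • x ∈ polarBody K := hrK (by
      rw [mem_closedBall_zero_iff, norm_smul, norm_div, norm_norm, Real.norm_of_nonneg hr.le,
        div_mul_cancel₀ _ hxn.ne'])
    have h2 := hhull x 0 (fun v hv => (hx ⟨v, hv⟩).le) ((1 + ε)⁻¹ • (r / ‖x‖) • x)
      (ht1' ⟨_, hmem, rfl⟩)
    rw [inner_smul_left, inner_smul_left, real_inner_self_eq_norm_sq] at h2
    simp only [conj_trivial] at h2
    have : 0 < (1 + ε)⁻¹ * (r / ‖x‖ * ‖x‖ ^ 2) := by positivity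
    linarith
  obtain ⟨R, hRsym, hRdet, hR1, c, hc, hdec, hceq⟩ := exists_john hn (fun i : t => (i : V)) hspan
  refine ⟨R, hRsym, hRdet, ?_, ?_⟩
  · rintro _ ⟨z, hz, rfl⟩
    rw [mem_closedBall_zero_iff] at hz
    refine ⟨(1 + ε)⁻¹ • R z, ?_, by
      simp only [smul_smul]; rw [mul_inv_cancel₀ h1ε.ne', one_smul]⟩
    rw [← hK.polar_polar]
    intro y hy
    have h2 := hhull (R z) 1 (fun v hv => by
      rw [← hRsym]
      calc inner ℝ (R v) z ≤ ‖R v‖ * ‖z‖ := real_inner_le_norm _ _
        _ ≤ 1 * 1 := mul_le_mul (hR1 ⟨v, hv⟩) hz (norm_nonneg _) zero_le_one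
        _ = 1 := one_mul 1) _ (ht1' ⟨y, hy, rfl⟩)
    simp only [inner_smul_left, inner_smul_right, conj_trivial] at h2 ⊢
    exact h2
  · -- the slab
    set ι' := {i : t // 0 < c i} with hι'
    set u : ι' → V := fun i => R (i : t) with hu
    have hu1 : ∀ i, ‖u i‖ = 1 := fun i => hceq i.1 i.2
    have hdec' : ∀ x : V, ∑ i : ι', c i.1 * (inner ℝ (u i) x) ^ 2 = ‖x‖ ^ 2 := by
      intro x
      rw [← hdec x]
      have h3 := Finset.sum_subtype_of_mem (s := Finset.univ.filter fun i : t => 0 < c i)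
        (p := fun i : t => 0 < c i) (f := fun i => c i * (inner ℝ (R (i : V)) x) ^ 2)
        (fun i hi => (Finset.mem_filter.1 hi).2)
      have h4 : ∑ i : ι', c i.1 * (inner ℝ (u i) x) ^ 2 =
          ∑ i ∈ Finset.univ.filter (fun i : t => 0 < c i),
            c i * (inner ℝ (R (i : V)) x) ^ 2 := by
        rw [← h3]
        refine Finset.sum_congr ?_ fun i _ => rfl
        ext i
        exact ⟨fun _ => Finset.mem_subtype.2 (Finset.mem_filter.2 ⟨Finset.mem_univ _, i.2⟩),
          fun _ => Finset.mem_univ _⟩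
      rw [h4, Finset.sum_filter]
      refine Finset.sum_congr rfl fun i _ => ?_
      split_ifs with h5
      · rfl
      · have : c i = 0 := le_antisymm (not_lt.1 h5) (hc i)
        rw [this, zero_mul]
    have hslab := volume_slab_le u (fun i : ι' => c i.1) hu1 (fun i => hc i.1) hdec'
    -- R is bijective
    have hbij : ∀ x : V, ∃ z, R z = x := by
      have h5 : LinearMap.det (R : V →ₗ[ℝ] V) ≠ 0 := hRdet
      have h6 := LinearMap.isUnit_iff_isUnit_det (f := (R : V →ₗ[ℝ] V)) |>.2
        (isUnit_iff_ne_zero.2 h5)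
      have h7 := (Module.End.isUnit_iff _).1 h6
      exact h7.2
    have hsub : K ⊆ (1 + ε) • ((R : V →ₗ[ℝ] V) '' slab u) := by
      intro x hx
      obtain ⟨z, hz⟩ := hbij ((1 + ε)⁻¹ • x)
      refine ⟨(1 + ε)⁻¹ • x, ⟨z, ?_, hz⟩, by
        simp only [smul_smul]; rw [mul_inv_cancel₀ h1ε.ne', one_smul]⟩
      intro i
      have hi1 := htK _ i.1.2 x hx
      have hi2 := htK _ i.1.2 (-x) (hK.neg_mem x hx)
      have h8 : inner ℝ (u i) z = (1 + ε)⁻¹ * inner ℝ x (i.1 : V) := by
        rw [hu]; simp only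
        rw [hRsym, hz, inner_smul_right, real_inner_comm]
      rw [inner_neg_left] at hi2
      have h9 : |inner ℝ x (i.1 : V)| ≤ 1 := abs_le.2 ⟨by linarith, hi1⟩
      rw [h8, abs_mul, abs_of_pos (by positivity)]
      calc (1 + ε)⁻¹ * |inner ℝ x (i.1 : V)| ≤ (1 + ε)⁻¹ * 1 := by gcongr
        _ < 1 := by rw [mul_one]; exact inv_lt_one_of_one_lt₀ (by linarith)
    refine (measure_mono hsub).trans ?_
    rw [Measure.addHaar_smul, Measure.addHaar_image_linearMap, abs_of_pos (by positivity)]
    gcongr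

end Ball

end Pool.Agent.Helper86.GM
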