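import Pool.Agent.Helper86.GMUpper

/-!
# The volume constant and its upper bound
-/

open MeasureTheory Metric Set Filter Topology
open scoped Pointwise ENNReal

set_option linter.unusedSectionVars false
set_option linter.unusedVariables false

namespace Pool.Agent.Helper86.GM

/-- The set of all ratios `|G(K,T)| / √(|K| |T|)`, over origin-symmetric convex bodies
`K, T ⊆ ℝⁿ`. -/
def ratioSet (n : ℕ) : Set ℝ :=
  {r | ∃ K T G : Set (E n), IsSymBody K ∧ IsSymBody T ∧ IsGeomMean K T G ∧
    r = volume.real G / √(volume.real K * volume.real T)}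

/-- The constant `g_n`, the infimum of all ratios. -/
noncomputable def gConst (n : ℕ) : ℝ := sInf (ratioSet n)

theorem volume_box {n : ℕ} (s : Fin n → ℝ) (hs : ∀ i, 0 < s i) :
    volume.real (box s) = ∏ i, (2 * s i) := by
  have h1 : box s = (WithLp.ofLp : E n → (Fin n → ℝ)) ⁻¹' (Set.Icc (fun i => - s i) s) := by
    ext x
    simp only [box, mem_ofPred_eq, mem_preimage, mem_Icc, Pi.le_def, abs_le]
    exact ⟨fun h => ⟨fun i => (h i).1, fun i => (h i).2⟩, fun h i => ⟨h.1 i, h.2 i⟩⟩
  rw [measureReal_def, h1, (PiLp.volume_preserving_ofLp (Fin n)).measure_preimage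
    measurableSet_Icc.nullMeasurableSet, Real.volume_Icc_pi, ENNReal.toReal_prod]
  refine Finset.prod_congr rfl fun i _ => ?_
  rw [ENNReal.toReal_ofReal (by linarith [hs i])]
  ring

/-- The volume of the Euclidean unit ball. -/
noncomputable def ballVol (n : ℕ) : ℝ := volume.real (closedBall (0 : E n) 1)

theorem ballVol_eq {n : ℕ} (hn : 1 ≤ n) :
    ballVol n = Real.pi ^ ((n : ℝ) / 2) / Real.Gamma ((n : ℝ) / 2 + 1) := by
  haveI : Nonempty (Fin n) := ⟨⟨0, hn⟩⟩
  rw [ballVol, measureReal_def, EuclideanSpace.volume_closedBall]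
  have hG : 0 < Real.Gamma ((n : ℝ) / 2 + 1) := Real.Gamma_pos_of_pos (by positivity)
  rw [Fintype.card_fin, ENNReal.ofReal_one, one_pow, one_mul,
    ENNReal.toReal_ofReal (by positivity)]
  congr 1
  rw [Real.sqrt_eq_rpow, ← Real.rpow_natCast, ← Real.rpow_mul Real.pi_pos.le]
  congr 1; ring

theorem ballVol_pos (n : ℕ) : 0 < ballVol n := by
  rw [ballVol, measureReal_def]
  refine ENNReal.toReal_pos ?_ ?_
  · exact (measure_closedBall_pos volume _ one_pos).ne'
  · exact measure_closedBall_lt_top.ne

theorem IsSymBody.volume_pos {n : ℕ} {K : Set (E n)} (h : IsSymBody K) :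
    0 < volume.real K := by
  rw [measureReal_def]
  refine ENNReal.toReal_pos ?_ h.isCompact.measure_lt_top.ne
  exact (Measure.measure_pos_of_nonempty_interior volume h.interior_nonempty).ne'

theorem ratioSet_nonneg {n : ℕ} : ∀ r ∈ ratioSet n, 0 ≤ r := by
  rintro r ⟨K, T, G, hK, hT, hG, rfl⟩
  positivity

theorem bddBelow_ratioSet (n : ℕ) : BddBelow (ratioSet n) := ⟨0, fun r hr => ratioSet_nonneg r hr⟩

theorem gConst_le {n : ℕ} : gConst n ≤ ballVol n / 2 ^ n := by
  have key : ∀ ε : ℝ, 0 < ε → gConst n ≤ (1 + ε) ^ n * (ballVol n / 2 ^ n) := by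
    intro ε hε
    obtain ⟨s, hs, k₀, hk₀⟩ := exists_box n ε hε
    have hs' : ∀ i, 0 < (s i)⁻¹ := fun i => inv_pos.2 (hs i)
    set K := box s
    set T := box fun i => (s i)⁻¹
    have hK : IsSymBody K := isSymBody_box s hs
    have hT : IsSymBody T := isSymBody_box _ hs'
    have hmem : volume.real (geomMean K T) / √(volume.real K * volume.real T) ∈ ratioSet n :=
      ⟨K, T, geomMean K T, hK, hT, isGeomMean_geomMean hK hT, rfl⟩
    refine (csInf_le (bddBelow_ratioSet n) hmem).trans ?_
    have hsqrt : √(volume.real K * volume.real T) = 2 ^ n := by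
      rw [volume_box s hs, volume_box _ hs', ← Finset.prod_mul_distrib]
      have : ∀ i, 2 * s i * (2 * (s i)⁻¹) = 4 := fun i => by
        have := (hs i).ne'
        field_simp; norm_num
      simp only [this, Finset.prod_const, Finset.card_univ, Fintype.card_fin]
      rw [show (4 : ℝ) = 2 ^ 2 by norm_num, ← pow_mul, mul_comm 2 n, pow_mul]
      exact Real.sqrt_sq (by positivity)
    have hsub : geomMean K T ⊆ (1 + ε) • closedBall (0 : E n) 1 := by
      intro x hx
      have h1 := hk₀ (k₀ + 1) (by omega) x (geomMean_subset k₀ hx)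
      refine ⟨(1 + ε)⁻¹ • x, ?_, ?_⟩
      · rw [mem_closedBall_zero_iff, norm_smul, Real.norm_of_nonneg (by positivity),
          inv_mul_le_iff₀ (by positivity)]
        linarith
      · simp only [smul_smul]
        rw [mul_inv_cancel₀ (by positivity), one_smul]
    have hvol : volume.real (geomMean K T) ≤ (1 + ε) ^ n * ballVol n := by
      have h1 : volume.real (geomMean K T) ≤ volume.real ((1 + ε) • closedBall (0 : E n) 1) := by
        refine measureReal_mono hsub ?_
        exact ((isCompact_closedBall (0 : E n) 1).smul (1 + ε)).measure_lt_top.ne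
      refine h1.trans_eq ?_
      rw [measureReal_def, Measure.addHaar_smul, ENNReal.toReal_mul, ← measureReal_def]
      simp only [finrank_euclideanSpace, Fintype.card_fin]
      rw [ENNReal.toReal_ofReal (abs_nonneg _), abs_of_nonneg (by positivity)]
      rfl
    rw [hsqrt, mul_div_assoc', div_le_div_iff_of_pos_right (by positivity)]
    exact hvol
  have hlim : Tendsto (fun ε : ℝ => (1 + ε) ^ n * (ballVol n / 2 ^ n)) (𝓝[>] 0)
      (𝓝 ((1 + 0) ^ n * (ballVol n / 2 ^ n))) := by
    refine Tendsto.mono_left ?_ nhdsWithin_le_nhds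
    exact (Continuous.tendsto (by fun_prop) 0)
  rw [add_zero, one_pow, one_mul] at hlim
  refine ge_of_tendsto hlim ?_
  filter_upwards [self_mem_nhdsWithin] with ε hε
  exact key ε hε

end Pool.Agent.Helper86.GM
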