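import Pool.Agent.Helper86.GMDesign
import Pool.Agent.Helper86.GMVol

/-!
# The geometric mean of ellipsoids and the lower bound for the volume constant
-/

open MeasureTheory Metric Set Filter Topology
open scoped Pointwise ENNReal

set_option linter.unusedSectionVars false
set_option linter.unusedVariables false

namespace Pool.Agent.Helper86.GM

section Ellipsoid

variable {V : Type*} [NormedAddCommGroup V] [InnerProductSpace ℝ V] [FiniteDimensional ℝ V]
  [MeasurableSpace V] [BorelSpace V]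

theorem isSymBody_ball : IsSymBody (closedBall (0 : V) 1) := by
  refine IsSymBody.of_mem isClosed_closedBall (convex_closedBall _ _) one_pos subset_rfl
    (fun x hx => by simpa using hx) (fun x hx => by simpa using hx)

theorem IsSymBody.image {K : Set V} (hK : IsSymBody K) (e : V ≃ₗ[ℝ] V) :
    IsSymBody (e '' K) := by
  have hcont : Continuous e := e.toLinearMap.continuous_of_finiteDimensional
  refine ⟨hK.isCompact.image hcont, hK.convex.linear_image e.toLinearMap, ?_, ?_⟩
  · have h : interior (e '' K) = e '' interior K :=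
      (e.toContinuousLinearEquiv.toHomeomorph.image_interior K).symm
    rw [h]
    exact hK.interior_nonempty.image _
  · rintro _ ⟨x, hx, rfl⟩
    exact ⟨-x, hK.neg_mem x hx, by simp⟩

theorem abs_det_isometry (O : V →ₗ[ℝ] V) (hO : ∀ w, ‖O w‖ = ‖w‖) : |LinearMap.det O| = 1 := by
  have hinj : Function.Injective O := by
    rw [injective_iff_map_eq_zero]
    intro a ha
    rw [← norm_eq_zero, ← hO, ha, norm_zero]
  have hsurj : Function.Surjective O := LinearMap.injective_iff_surjective.1 hinj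
  have himg : O '' closedBall (0 : V) 1 = closedBall 0 1 := by
    ext y
    constructor
    · rintro ⟨x, hx, rfl⟩
      simpa [hO] using hx
    · intro hy
      obtain ⟨x, rfl⟩ := hsurj y
      exact ⟨x, by simpa [hO] using hy, rfl⟩
  have h := Measure.addHaar_image_linearMap (volume : Measure V) O (closedBall (0 : V) 1)
  rw [himg] at h
  have h0 : volume (closedBall (0 : V) 1) ≠ 0 := (measure_closedBall_pos volume _ one_pos).ne'
  have h1 : volume (closedBall (0 : V) 1) ≠ ∞ := measure_closedBall_lt_top.ne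
  have h2 : ENNReal.ofReal |LinearMap.det O| = 1 := by
    have h3 : 1 * volume (closedBall (0 : V) 1) =
        ENNReal.ofReal |LinearMap.det O| * volume (closedBall (0 : V) 1) := by
      rw [one_mul]; exact h
    exact ((ENNReal.mul_left_inj h0 h1).1 h3).symm
  have h3 := congrArg ENNReal.toReal h2
  rwa [ENNReal.toReal_ofReal (abs_nonneg _), ENNReal.toReal_one] at h3

/-- Volume of the geometric mean of two ellipsoids. -/
theorem volume_geomMean_ellipsoids (R₁ R₂ : V →L[ℝ] V)
    (h₁ : ∀ x y, inner ℝ (R₁ x) y = inner ℝ x (R₁ y))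
    (h₂ : ∀ x y, inner ℝ (R₂ x) y = inner ℝ x (R₂ y)) (d₁ : R₁.det ≠ 0) (d₂ : R₂.det ≠ 0) :
    volume.real (geomMean (R₁ '' closedBall 0 1) (R₂ '' closedBall 0 1)) =
      volume.real (closedBall (0 : V) 1) * √(|R₁.det| * |R₂.det|) := by
  -- linear equivalences
  set e₁ : V ≃ₗ[ℝ] V := LinearMap.equivOfDetNeZero (R₁ : V →ₗ[ℝ] V) d₁ with he₁
  set e₂ : V ≃ₗ[ℝ] V := LinearMap.equivOfDetNeZero (R₂ : V →ₗ[ℝ] V) d₂ with he₂
  have e₁_apply : ∀ x, e₁ x = R₁ x := fun x => rfl
  have e₂_apply : ∀ x, e₂ x = R₂ x := fun x => rfl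
  have hJ : ∀ x y, inner ℝ (e₂.symm x) y = inner ℝ x (e₂.symm y) := by
    intro x y
    have := h₂ (e₂.symm x) (e₂.symm y)
    rw [← e₂_apply, ← e₂_apply, e₂.apply_symm_apply, e₂.apply_symm_apply] at this
    exact this.symm
  -- `S = J R₁ R₁ J`
  set S : V →ₗ[ℝ] V := e₂.symm.toLinearMap ∘ₗ e₁.toLinearMap ∘ₗ e₁.toLinearMap ∘ₗ
    e₂.symm.toLinearMap with hS
  have hSinner : ∀ x y, inner ℝ (S x) y = inner ℝ (e₁ (e₂.symm x)) (e₁ (e₂.symm y)) := by
    intro x y
    simp only [hS, LinearMap.comp_apply, LinearEquiv.coe_coe]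
    rw [hJ, e₁_apply (e₁ (e₂.symm x)), h₁, ← e₁_apply]
  have hSsym : S.IsSymmetric := by
    intro x y
    rw [hSinner, real_inner_comm, ← hSinner, real_inner_comm]
  set b := hSsym.eigenvectorBasis rfl with hb
  set ν := hSsym.eigenvalues rfl with hν
  have hSb : ∀ k, S (b k) = ν k • b k := fun k => hSsym.apply_eigenvectorBasis rfl k
  have hνpos : ∀ k, 0 < ν k := by
    intro k
    have h3 : inner ℝ (S (b k)) (b k) = ν k := by
      rw [hSb, inner_smul_left, real_inner_self_eq_norm_sq, b.norm_eq_one]; simp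
    rw [← h3, hSinner, real_inner_self_eq_norm_sq]
    have h4 : e₁ (e₂.symm (b k)) ≠ 0 := by
      intro h0
      have h5 : b k = 0 := by simpa using h0
      have := b.norm_eq_one k
      rw [h5, norm_zero] at this
      exact zero_ne_one this
    positivity
  -- `N = S^{-1/4}`
  set ρ : Fin (Module.finrank ℝ V) → ℝ := fun k => (√(√(ν k)))⁻¹ with hρ
  have hρpos : ∀ k, 0 < ρ k := by
    intro k
    have := hνpos k
    rw [hρ]; simp only; positivity
  have hρ4 : ∀ k, ν k * (ρ k * ρ k * (ρ k * ρ k)) = 1 := by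
    intro k
    have h3 := hνpos k
    have h4 : ρ k * ρ k = (√(ν k))⁻¹ := by
      rw [hρ]; simp only
      rw [← mul_inv, Real.mul_self_sqrt (Real.sqrt_nonneg _)]
    rw [h4, ← mul_inv, Real.mul_self_sqrt h3.le]
    exact mul_inv_cancel₀ h3.ne'
  set N : V →L[ℝ] V := wop (fun k => b k) ρ with hN
  have hNsym : ∀ x y, inner ℝ (N x) y = inner ℝ x (N y) := fun x y => wop_isSymmetric _ _ x y
  have hNb : ∀ k, N (b k) = ρ k • b k := by
    intro k
    rw [hN, wop_apply, Finset.sum_eq_single k]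
    · rw [real_inner_self_eq_norm_sq, b.norm_eq_one]; simp
    · intro i _ hik
      have : inner ℝ (b i) (b k) = 0 := b.orthonormal.2 hik
      rw [this]; simp
    · simp
  have hext : ∀ (f g : V →ₗ[ℝ] V), (∀ k, f (b k) = g (b k)) → f = g := by
    intro f g h
    refine b.toBasis.ext fun k => ?_
    simpa using h k
  have hNNSNN : ∀ x, N (N (S (N (N x)))) = x := by
    intro x
    have : (N : V →ₗ[ℝ] V) ∘ₗ (N : V →ₗ[ℝ] V) ∘ₗ S ∘ₗ (N : V →ₗ[ℝ] V) ∘ₗ (N : V →ₗ[ℝ] V) =
        LinearMap.id := by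
      refine hext _ _ fun k => ?_
      simp only [LinearMap.comp_apply, ContinuousLinearMap.coe_coe, hNb,
        map_smul, hSb, smul_smul, LinearMap.id_apply]
      have := hρ4 k
      rw [show ρ k * ρ k * ν k * ρ k * ρ k = ν k * (ρ k * ρ k * (ρ k * ρ k)) by ring, this,
        one_smul]
    exact LinearMap.congr_fun this x
  -- the isometry `O = R₁ J N N`
  set O : V →ₗ[ℝ] V := e₁.toLinearMap ∘ₗ e₂.symm.toLinearMap ∘ₗ (N : V →ₗ[ℝ] V) ∘ₗ
    (N : V →ₗ[ℝ] V) with hO
  have hOnorm : ∀ w, ‖O w‖ = ‖w‖ := by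
    intro w
    have h3 : ‖O w‖ ^ 2 = ‖w‖ ^ 2 := by
      rw [← real_inner_self_eq_norm_sq, ← real_inner_self_eq_norm_sq]
      change inner ℝ (e₁ (e₂.symm (N (N w)))) (e₁ (e₂.symm (N (N w)))) = _
      rw [← hSinner, ← hNsym, ← hNsym, hNNSNN]
    have h4 := norm_nonneg (O w)
    have h5 := norm_nonneg w
    nlinarith [sq_nonneg (‖O w‖ - ‖w‖), sq_nonneg (‖O w‖ + ‖w‖)]
  -- determinants
  have hJR₂ : LinearMap.det e₂.symm.toLinearMap * R₂.det = 1 := by
    have h3 : e₂.symm.toLinearMap ∘ₗ (R₂ : V →ₗ[ℝ] V) = LinearMap.id := by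
      ext x
      change e₂.symm (R₂ x) = x
      rw [← e₂_apply, e₂.symm_apply_apply]
    have h4 := congrArg LinearMap.det h3
    rw [LinearMap.det_comp, LinearMap.det_id] at h4
    exact h4
  have hOdet : |R₁.det| * (|LinearMap.det e₂.symm.toLinearMap| * (|N.det| * |N.det|)) = 1 := by
    have h3 := abs_det_isometry O hOnorm
    rw [hO, LinearMap.det_comp, LinearMap.det_comp, LinearMap.det_comp, abs_mul, abs_mul,
      abs_mul] at h3
    exact h3
  have hNdet : N.det ≠ 0 := by
    intro h0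
    rw [h0] at hOdet
    simp at hOdet
  set Ne : V ≃ₗ[ℝ] V := LinearMap.equivOfDetNeZero (N : V →ₗ[ℝ] V) hNdet with hNe
  have Ne_apply : ∀ x, Ne x = N x := fun x => rfl
  set u : V ≃ₗ[ℝ] V := e₂.symm.trans Ne with hu
  set Q : V ≃ₗ[ℝ] V := Ne.trans e₂.symm with hQ
  have hu_apply : ∀ x, u x = N (e₂.symm x) := fun x => rfl
  have hQ_apply : ∀ x, Q x = e₂.symm (N x) := fun x => rfl
  have huQ : ∀ x y, inner ℝ (u x) y = inner ℝ x (Q y) := by
    intro x y
    rw [hu_apply, hQ_apply, hNsym, hJ]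
  set X : Set V := u '' (R₁ '' closedBall 0 1) with hX
  have hXbody : IsSymBody X := by
    have h3 : X = u '' (e₁ '' closedBall 0 1) := rfl
    rw [h3]
    exact (isSymBody_ball.image e₁).image u
  have h2B : u '' (R₂ '' closedBall 0 1) = N '' closedBall 0 1 := by
    rw [image_image]
    refine image_congr' fun x => ?_
    rw [hu_apply, ← e₂_apply, e₂.symm_apply_apply]
  have hpair : ∀ z w : V, inner ℝ (u (R₁ z)) (N w) = inner ℝ z (O w) := by
    intro z w
    rw [hu_apply, hNsym, hJ, h₁]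
    rfl
  have hpolar : polarBody X = N '' closedBall 0 1 := by
    ext y
    constructor
    · intro hy
      obtain ⟨w, rfl⟩ := Ne.surjective y
      refine ⟨w, ?_, rfl⟩
      rw [mem_closedBall_zero_iff, ← hOnorm]
      by_cases h0 : ‖O w‖ = 0
      · rw [h0]; exact zero_le_one
      have h3 := hy (u (R₁ (‖O w‖⁻¹ • O w))) ⟨_, ⟨‖O w‖⁻¹ • O w, by
        rw [mem_closedBall_zero_iff, norm_smul, norm_inv, norm_norm, inv_mul_cancel₀ h0], rfl⟩,
        rfl⟩
      rw [Ne_apply, hpair, inner_smul_left, real_inner_self_eq_norm_sq] at h3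
      simp only [conj_trivial] at h3
      have h4 : ‖O w‖⁻¹ * ‖O w‖ ^ 2 = ‖O w‖ := by field_simp
      rwa [h4] at h3
    · rintro ⟨w, hw, rfl⟩
      rintro _ ⟨_, ⟨z, hz, rfl⟩, rfl⟩
      rw [mem_closedBall_zero_iff] at hz hw
      rw [hpair]
      calc inner ℝ z (O w) ≤ ‖z‖ * ‖O w‖ := real_inner_le_norm _ _
        _ ≤ 1 * 1 := by rw [hOnorm]; exact mul_le_mul hz hw (norm_nonneg _) zero_le_one
        _ = 1 := one_mul 1
  have hG : u '' geomMean (R₁ '' closedBall 0 1) (R₂ '' closedBall 0 1) = closedBall 0 1 := by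
    rw [← image_geomMean u Q huQ, h2B, ← hpolar, geomMean_dual hXbody]
  have hvol : volume.real (closedBall (0 : V) 1) =
      |N.det| * |LinearMap.det e₂.symm.toLinearMap| *
        volume.real (geomMean (R₁ '' closedBall 0 1) (R₂ '' closedBall 0 1)) := by
    have h3 := Measure.addHaar_image_linearMap (volume : Measure V) u.toLinearMap
      (geomMean (R₁ '' closedBall 0 1) (R₂ '' closedBall 0 1))
    have h4 : LinearMap.det u.toLinearMap = N.det * LinearMap.det e₂.symm.toLinearMap := by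
      have h5 : u.toLinearMap = (N : V →ₗ[ℝ] V) ∘ₗ e₂.symm.toLinearMap := rfl
      rw [h5, LinearMap.det_comp]
    have h5 : (u.toLinearMap : V → V) '' geomMean (R₁ '' closedBall 0 1) (R₂ '' closedBall 0 1) =
        closedBall 0 1 := hG
    rw [h5, h4, abs_mul] at h3
    rw [measureReal_def, measureReal_def, h3, ENNReal.toReal_mul,
      ENNReal.toReal_ofReal (by positivity)]
  rw [hvol]
  set j := |LinearMap.det e₂.symm.toLinearMap| with hj
  have hj2 : j * |R₂.det| = 1 := by
    rw [hj, ← abs_mul, hJR₂, abs_one]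
  have hsq : √(|R₁.det| * |R₂.det|) * (|N.det| * j) = 1 := by
    have h3 : (0 : ℝ) ≤ |N.det| * j := by positivity
    rw [← Real.sqrt_sq h3, ← Real.sqrt_mul (by positivity)]
    have h4 : |R₁.det| * |R₂.det| * (|N.det| * j) ^ 2 = 1 := by
      calc |R₁.det| * |R₂.det| * (|N.det| * j) ^ 2 =
          (|R₁.det| * (j * (|N.det| * |N.det|))) * (j * |R₂.det|) := by ring
        _ = 1 := by rw [hOdet, hj2, one_mul]
    rw [h4, Real.sqrt_one]
  calc volume.real (geomMean (R₁ '' closedBall 0 1) (R₂ '' closedBall 0 1)) =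
      volume.real (geomMean (R₁ '' closedBall 0 1) (R₂ '' closedBall 0 1)) *
        (√(|R₁.det| * |R₂.det|) * (|N.det| * j)) := by rw [hsq, mul_one]
    _ = _ := by ring

end Ellipsoid

/-- The lower bound for a single pair of bodies. -/
theorem ratio_ge {n : ℕ} (hn : 1 ≤ n) {K T : Set (E n)} (hK : IsSymBody K) (hT : IsSymBody T) :
    ballVol n / 2 ^ n * √(volume.real K * volume.real T) ≤ volume.real (geomMean K T) := by
  have hfin : 0 < Module.finrank ℝ (E n) := by
    have : Module.finrank ℝ (E n) = n := by simp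
    omega
  have hfin' : Module.finrank ℝ (E n) = n := by simp
  have hGK := isSymBody_geomMean hK hT
  have key : ∀ ε : ℝ, 0 < ε → ballVol n / 2 ^ n * √(volume.real K * volume.real T) ≤
      (1 + ε) ^ n * (1 + ε) ^ n * volume.real (geomMean K T) := by
    intro ε hε
    have h1ε : (0 : ℝ) < 1 + ε := by positivity
    obtain ⟨R₁, s₁, d₁, i₁, v₁⟩ := volume_ratio hfin hK hε
    obtain ⟨R₂, s₂, d₂, i₂, v₂⟩ := volume_ratio hfin hT hε
    rw [hfin'] at v₁ v₂
    have v₁' : volume.real K ≤ (1 + ε) ^ n * (|R₁.det| * 2 ^ n) := by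
      have := ENNReal.toReal_mono (by finiteness) v₁
      rw [ENNReal.toReal_mul, ENNReal.toReal_mul, ENNReal.toReal_ofReal (by positivity),
        ENNReal.toReal_ofReal (abs_nonneg _), ENNReal.toReal_pow, ENNReal.toReal_ofNat] at this
      exact this
    have v₂' : volume.real T ≤ (1 + ε) ^ n * (|R₂.det| * 2 ^ n) := by
      have := ENNReal.toReal_mono (by finiteness) v₂
      rw [ENNReal.toReal_mul, ENNReal.toReal_mul, ENNReal.toReal_ofReal (by positivity),
        ENNReal.toReal_ofReal (abs_nonneg _), ENNReal.toReal_pow, ENNReal.toReal_ofNat] at this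
      exact this
    have hell := volume_geomMean_ellipsoids R₁ R₂ s₁ s₂ d₁ d₂
    have hsub : geomMean (R₁ '' closedBall 0 1) (R₂ '' closedBall 0 1) ⊆
        (1 + ε) • geomMean K T := by
      refine (geomMean_mono i₁ i₂).trans ?_
      intro x hx
      have hx' := fun k => mem_iInter.1 hx k
      refine ⟨(1 + ε)⁻¹ • x, mem_iInter.2 fun k => ?_, by
        simp only [smul_smul]; rw [mul_inv_cancel₀ h1ε.ne', one_smul]⟩
      have h3 := hx' k
      rw [(smul_seq h1ε.ne' K T (k + 1)).1] at h3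
      obtain ⟨y, hy, rfl⟩ := h3
      simp only [smul_smul]
      rw [inv_mul_cancel₀ h1ε.ne', one_smul]
      exact hy
    have hvol : volume.real (geomMean (R₁ '' closedBall 0 1) (R₂ '' closedBall 0 1)) ≤
        (1 + ε) ^ n * volume.real (geomMean K T) := by
      have h1 : volume.real (geomMean (R₁ '' closedBall 0 1) (R₂ '' closedBall 0 1)) ≤
          volume.real ((1 + ε) • geomMean K T) := by
        refine measureReal_mono hsub ?_
        exact (hGK.isCompact.smul (1 + ε)).measure_lt_top.ne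
      refine h1.trans_eq ?_
      rw [measureReal_def, Measure.addHaar_smul, ENNReal.toReal_mul, ← measureReal_def]
      simp only [finrank_euclideanSpace, Fintype.card_fin]
      rw [ENNReal.toReal_ofReal (abs_nonneg _), abs_of_nonneg (by positivity)]
    have hsqrt : √(volume.real K * volume.real T) ≤
        (1 + ε) ^ n * 2 ^ n * √(|R₁.det| * |R₂.det|) := by
      have h3 : volume.real K * volume.real T ≤
          ((1 + ε) ^ n * 2 ^ n) ^ 2 * (|R₁.det| * |R₂.det|) := by
        calc volume.real K * volume.real T ≤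
            ((1 + ε) ^ n * (|R₁.det| * 2 ^ n)) * ((1 + ε) ^ n * (|R₂.det| * 2 ^ n)) :=
              mul_le_mul v₁' v₂' measureReal_nonneg (by positivity)
          _ = _ := by ring
      calc √(volume.real K * volume.real T) ≤
          √(((1 + ε) ^ n * 2 ^ n) ^ 2 * (|R₁.det| * |R₂.det|)) := Real.sqrt_le_sqrt h3
        _ = _ := by rw [Real.sqrt_mul (by positivity), Real.sqrt_sq (by positivity)]
    calc ballVol n / 2 ^ n * √(volume.real K * volume.real T)
        ≤ ballVol n / 2 ^ n * ((1 + ε) ^ n * 2 ^ n * √(|R₁.det| * |R₂.det|)) := by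
          refine mul_le_mul_of_nonneg_left hsqrt ?_
          have := ballVol_pos n
          positivity
      _ = (1 + ε) ^ n * (ballVol n * √(|R₁.det| * |R₂.det|)) := by field_simp
      _ = (1 + ε) ^ n * volume.real (geomMean (R₁ '' closedBall 0 1) (R₂ '' closedBall 0 1)) := by
          rw [hell]; rfl
      _ ≤ (1 + ε) ^ n * ((1 + ε) ^ n * volume.real (geomMean K T)) := by gcongr
      _ = _ := by ring
  have hlim : Tendsto (fun ε : ℝ => (1 + ε) ^ n * (1 + ε) ^ n * volume.real (geomMean K T))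
      (𝓝[>] 0) (𝓝 ((1 + 0) ^ n * (1 + 0) ^ n * volume.real (geomMean K T))) := by
    refine Tendsto.mono_left ?_ nhdsWithin_le_nhds
    exact (Continuous.tendsto (by fun_prop) 0)
  rw [add_zero, one_pow, one_mul, one_mul] at hlim
  refine ge_of_tendsto hlim ?_
  filter_upwards [self_mem_nhdsWithin] with ε hε
  exact key ε hε

/-- The exact value of the constant. -/
theorem gConst_eq {n : ℕ} (hn : 1 ≤ n) : gConst n = ballVol n / 2 ^ n := by
  refine le_antisymm gConst_le ?_
  refine le_csInf ?_ ?_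
  · have h := isSymBody_ball (V := E n)
    exact ⟨_, closedBall 0 1, closedBall 0 1, geomMean _ _, h, h, isGeomMean_geomMean h h, rfl⟩
  · rintro r ⟨K, T, G, hK, hT, hG, rfl⟩
    rw [(isGeomMean_iff hK hT).1 hG]
    have h1 := ratio_ge hn hK hT
    have h2 : 0 < √(volume.real K * volume.real T) :=
      Real.sqrt_pos.2 (mul_pos hK.volume_pos hT.volume_pos)
    rw [le_div_iff₀ h2]
    exact h1

end Pool.Agent.Helper86.GM
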