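import Pool.Agent.Helper86.GMConv

/-!
# Upper bound: boxes with widely separated side lengths
-/

open MeasureTheory Metric Set Filter Topology
open scoped Pointwise

set_option linter.unusedSectionVars false
set_option linter.unusedVariables false

namespace Pool.Agent.Helper86.GM

/-- Euclidean `n`-space. -/
abbrev E (n : ℕ) := EuclideanSpace ℝ (Fin n)

/-- The box with half side lengths `s`. -/
def box {n : ℕ} (s : Fin n → ℝ) : Set (E n) := {x | ∀ i, |x i| ≤ s i}

theorem isSymBody_box {n : ℕ} (s : Fin n → ℝ) (hs : ∀ i, 0 < s i) : IsSymBody (box s) := by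
  have hcl : IsClosed (box s) := by
    have : box s = ⋂ i, {x : E n | |x i| ≤ s i} := by ext x; simp [box]
    rw [this]
    exact isClosed_iInter fun i => isClosed_le (by fun_prop) continuous_const
  have hb : ∀ x ∈ box s, ‖x‖ ≤ ∑ i, s i := by
    intro x hx
    rw [EuclideanSpace.norm_eq]
    refine Real.sqrt_le_iff.2 ⟨Finset.sum_nonneg fun i _ => (hs i).le, ?_⟩
    calc ∑ i, ‖x i‖ ^ 2 ≤ ∑ i, s i ^ 2 := by
          refine Finset.sum_le_sum fun i _ => ?_
          rw [Real.norm_eq_abs]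
          exact pow_le_pow_left₀ (abs_nonneg _) (hx i) 2
      _ ≤ (∑ i, s i) ^ 2 := Finset.sum_sq_le_sq_sum_of_nonneg fun i _ => (hs i).le
  refine ⟨?_, ?_, ?_, ?_⟩
  · have : box s ⊆ closedBall (0 : E n) (∑ i, s i) := fun x hx => by simpa using hb x hx
    exact (isCompact_closedBall (0 : E n) _).of_isClosed_subset hcl this
  · intro x hx y hy a b ha hb hab i
    simp only [PiLp.add_apply, PiLp.smul_apply, smul_eq_mul]
    calc |a * x i + b * y i| ≤ |a * x i| + |b * y i| := abs_add_le _ _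
      _ = a * |x i| + b * |y i| := by rw [abs_mul, abs_mul, abs_of_nonneg ha, abs_of_nonneg hb]
      _ ≤ a * s i + b * s i := by
        gcongr
        · exact hx i
        · exact hy i
      _ = s i := by rw [← add_mul, hab, one_mul]
  · refine ⟨0, ?_⟩
    rw [mem_interior_iff_mem_nhds]
    have : {x : E n | ∀ i, |x i| < s i} ∈ 𝓝 (0 : E n) := by
      have ho : IsOpen {x : E n | ∀ i, |x i| < s i} := by
        have : {x : E n | ∀ i, |x i| < s i} = ⋂ i, {x : E n | |x i| < s i} := by ext x; simp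
        rw [this]
        exact isOpen_iInter_of_finite fun i => isOpen_lt (by fun_prop) continuous_const
      exact ho.mem_nhds (by simpa using hs)
    exact Filter.mem_of_superset this fun x hx i => (hx i).le
  · intro x hx i
    simpa using hx i

/-- Forgetting the first coordinate. -/
def tl (n : ℕ) : E (n + 1) →ₗ[ℝ] E n where
  toFun x := WithLp.toLp 2 fun i => x i.succ
  map_add' x y := by ext i; simp
  map_smul' c x := by ext i; simp

/-- Appending a first coordinate. -/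
def mk {n : ℕ} (a : ℝ) (y : E n) : E (n + 1) := WithLp.toLp 2 (Fin.cons a y)

@[simp] theorem tl_apply {n : ℕ} (x : E (n + 1)) (i : Fin n) : tl n x i = x i.succ := rfl

@[simp] theorem mk_zero {n : ℕ} (a : ℝ) (y : E n) : mk a y 0 = a := rfl

@[simp] theorem mk_succ {n : ℕ} (a : ℝ) (y : E n) (i : Fin n) : mk a y i.succ = y i := rfl

/-- Inserting `0` as the first coordinate, as a linear map. -/
def inj (n : ℕ) : E n →ₗ[ℝ] E (n + 1) where
  toFun y := mk 0 y
  map_add' x y := by ext i; refine Fin.cases ?_ (fun i => ?_) i <;> simp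
  map_smul' c x := by ext i; refine Fin.cases ?_ (fun i => ?_) i <;> simp

theorem inner_mk {n : ℕ} (x : E (n + 1)) (a : ℝ) (y : E n) :
    inner ℝ x (mk a y) = x 0 * a + inner ℝ (tl n x) y := by
  simp only [PiLp.inner_apply, Fin.sum_univ_succ, mk_zero, mk_succ, tl_apply]
  simp [mul_comm]

theorem inner_tl {n : ℕ} (x : E (n + 1)) (y : E n) :
    inner ℝ (tl n x) y = inner ℝ x (inj n y) := by
  change _ = inner ℝ x (mk 0 y)
  rw [inner_mk]; simp

theorem mk_self {n : ℕ} (x : E (n + 1)) : mk (x 0) (tl n x) = x := by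
  ext i; refine Fin.cases ?_ (fun i => ?_) i <;> simp

theorem inner_eq {n : ℕ} (x y : E (n + 1)) :
    inner ℝ x y = x 0 * y 0 + inner ℝ (tl n x) (tl n y) := by
  conv_lhs => rw [← mk_self y]
  exact inner_mk x _ _

theorem norm_sq_eq {n : ℕ} (x : E (n + 1)) : ‖x‖ ^ 2 = (x 0) ^ 2 + ‖tl n x‖ ^ 2 := by
  rw [← real_inner_self_eq_norm_sq, inner_eq, real_inner_self_eq_norm_sq, sq (x 0)]

/-- The truncated cylinder `{|x₀| ≤ L, |x'| ≤ 1}`. -/
def cyl (n : ℕ) (L : ℝ) : Set (E (n + 1)) := {x | |x 0| ≤ L ∧ ‖tl n x‖ ≤ 1}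

theorem continuous_tl (n : ℕ) : Continuous (tl n) := (tl n).continuous_of_finiteDimensional

theorem isSymBody_cyl (n : ℕ) {L : ℝ} (hL : 0 < L) : IsSymBody (cyl n L) := by
  have hcl : IsClosed (cyl n L) := by
    have h1 : IsClosed {x : E (n + 1) | |x 0| ≤ L} := isClosed_le (by fun_prop) continuous_const
    exact h1.inter (isClosed_le (continuous_tl n).norm continuous_const)
  have hb : ∀ x ∈ cyl n L, ‖x‖ ≤ L + 1 := by
    intro x hx
    have h1 := norm_sq_eq x
    have h2 : (x 0) ^ 2 ≤ L ^ 2 := sq_le_sq' (neg_le_of_abs_le hx.1) (le_of_abs_le hx.1)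
    have h3 : ‖tl n x‖ ^ 2 ≤ 1 := by
      have := hx.2
      have h0 := norm_nonneg (tl n x)
      nlinarith
    nlinarith [norm_nonneg x]
  refine ⟨?_, ?_, ?_, ?_⟩
  · have : cyl n L ⊆ closedBall (0 : E (n + 1)) (L + 1) := fun x hx => by simpa using hb x hx
    exact (isCompact_closedBall (0 : E (n + 1)) _).of_isClosed_subset hcl this
  · intro x hx y hy a b ha hb hab
    constructor
    · simp only [PiLp.add_apply, PiLp.smul_apply, smul_eq_mul]
      calc |a * x 0 + b * y 0| ≤ |a * x 0| + |b * y 0| := abs_add_le _ _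
        _ = a * |x 0| + b * |y 0| := by rw [abs_mul, abs_mul, abs_of_nonneg ha, abs_of_nonneg hb]
        _ ≤ a * L + b * L := by
          gcongr
          · exact hx.1
          · exact hy.1
        _ = L := by rw [← add_mul, hab, one_mul]
    · rw [map_add, map_smul, map_smul]
      calc ‖a • tl n x + b • tl n y‖ ≤ ‖a • tl n x‖ + ‖b • tl n y‖ := norm_add_le _ _
        _ = a * ‖tl n x‖ + b * ‖tl n y‖ := by
          rw [norm_smul, norm_smul, Real.norm_of_nonneg ha, Real.norm_of_nonneg hb]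
        _ ≤ a * 1 + b * 1 := by
          gcongr
          · exact hx.2
          · exact hy.2
        _ = 1 := by linarith
  · refine ⟨0, ?_⟩
    rw [mem_interior_iff_mem_nhds]
    have : {x : E (n + 1) | |x 0| < L ∧ ‖tl n x‖ < 1} ∈ 𝓝 (0 : E (n + 1)) := by
      have h1 : IsOpen {x : E (n + 1) | |x 0| < L} := isOpen_lt (by fun_prop) continuous_const
      have ho : IsOpen {x : E (n + 1) | |x 0| < L ∧ ‖tl n x‖ < 1} :=
        h1.inter (isOpen_lt (continuous_tl n).norm continuous_const)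
      exact ho.mem_nhds (by simpa using hL)
    exact Filter.mem_of_superset this fun x hx => ⟨hx.1.le, hx.2.le⟩
  · intro x hx
    exact ⟨by simpa using hx.1, by simpa using hx.2⟩

theorem mem_polar_cyl {n : ℕ} {L : ℝ} {x : E (n + 1)} (h : L * |x 0| + ‖tl n x‖ ≤ 1) :
    x ∈ polarBody (cyl n L) := by
  intro w hw
  rw [inner_eq]
  have h1 : w 0 * x 0 ≤ L * |x 0| := by
    calc w 0 * x 0 ≤ |w 0 * x 0| := le_abs_self _
      _ = |w 0| * |x 0| := abs_mul _ _
      _ ≤ L * |x 0| := mul_le_mul_of_nonneg_right hw.1 (abs_nonneg _)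
  have h2 : inner ℝ (tl n w) (tl n x) ≤ 1 * ‖tl n x‖ :=
    (real_inner_le_norm _ _).trans (mul_le_mul_of_nonneg_right hw.2 (norm_nonneg _))
  linarith

/-- First-coordinate bounds along the iteration of boxes. -/
theorem coord_bound {n : ℕ} {K T : Set (E (n + 1))} {R : ℝ} (hR : 0 < R)
    (hK : ∀ x ∈ K, |x 0| ≤ R) (hT : ∀ x ∈ T, |x 0| ≤ 1 / R) (k : ℕ) :
    (∀ x ∈ (meanSeq K T k).1, |x 0| ≤ R / 2 ^ k + 2 ^ k / (3 * R)) ∧
      (∀ x ∈ (meanSeq K T k).2, |x 0| ≤ 2 ^ k / R) := by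
  induction k with
  | zero =>
    refine ⟨fun x hx => (hK x hx).trans ?_, fun x hx => by simpa using hT x hx⟩
    have : 0 < 2 ^ 0 / (3 * R) := by positivity
    simp only [pow_zero, div_one]
    simp only [pow_zero] at this
    linarith
  | succ k ih =>
    constructor
    · intro x hx
      obtain ⟨a, ha, h, hh, rfl⟩ := mem_arith.1 hx
      have h1 := ih.1 a ha
      have h2 := ih.2 h hh
      simp only [PiLp.smul_apply, PiLp.add_apply, smul_eq_mul]
      rw [abs_mul, abs_of_pos (by norm_num : (0 : ℝ) < 1 / 2)]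
      have h3 := abs_add_le (a 0) (h 0)
      have h4 : R / 2 ^ (k + 1) + 2 ^ (k + 1) / (3 * R) =
          1 / 2 * ((R / 2 ^ k + 2 ^ k / (3 * R)) + 2 ^ k / R) := by
        rw [pow_succ]; field_simp; ring
      rw [h4]
      have : |a 0 + h 0| ≤ (R / 2 ^ k + 2 ^ k / (3 * R)) + 2 ^ k / R := by linarith
      linarith
    · intro x hx
      have key : ∀ σ : ℝ, |σ| ≤ R / 2 ^ k →
          mk σ (0 : E n) ∈ polarBody (meanSeq K T k).2 := by
        intro σ hσ w hw
        rw [inner_mk, inner_zero_right, add_zero]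
        have h2 := ih.2 w hw
        calc w 0 * σ ≤ |w 0 * σ| := le_abs_self _
          _ = |w 0| * |σ| := abs_mul _ _
          _ ≤ (2 ^ k / R) * (R / 2 ^ k) := mul_le_mul h2 hσ (abs_nonneg _) (by positivity)
          _ = 1 := by field_simp
      have hx' := fun σ hσ => mem_harm.1 hx 0 (zero_mem_polar _) (mk σ 0) (key σ hσ)
      have hx'' : ∀ σ : ℝ, |σ| ≤ R / 2 ^ k → 1 / 2 * (x 0 * σ) ≤ 1 := by
        intro σ hσ
        have := hx' σ hσ
        rw [zero_add, inner_smul_left, real_inner_comm, inner_mk, inner_zero_right, add_zero] at this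
        simpa using this
      have h1 := hx'' (R / 2 ^ k) (by rw [abs_of_pos (by positivity)])
      have h2 := hx'' (-(R / 2 ^ k)) (by rw [abs_neg, abs_of_pos (by positivity)])
      have hpos : 0 < R / 2 ^ k := by positivity
      have h3 : |x 0| * (R / 2 ^ k) ≤ 2 := by
        rcases abs_cases (x 0) with ⟨h, _⟩ | ⟨h, _⟩ <;> rw [h] <;> nlinarith
      rw [pow_succ, le_div_iff₀ hR]
      rw [mul_div_assoc', div_le_iff₀ (by positivity)] at h3
      linarith

/-- Mixed bound for the harmonic iterates. -/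
theorem mixed_bound {n : ℕ} {K T : Set (E (n + 1))} {R δ : ℝ} (hR : 0 < R) (hδ : 0 ≤ δ)
    (hK : ∀ x ∈ K, |x 0| ≤ R) (hT : ∀ x ∈ T, |x 0| ≤ 1 / R) {k₀ : ℕ}
    (hk₀ : ∀ k, k₀ ≤ k → ∀ x ∈ (meanSeq K T k).1, ‖tl n x‖ ≤ 1 + δ) (j : ℕ) :
    ∀ x ∈ (meanSeq K T (k₀ + j)).2,
      R / 2 ^ (k₀ + j) * |x 0| + (1 - 1 / 2 ^ j) * (1 + δ)⁻¹ * ‖tl n x‖ ≤ 1 := by
  induction j with
  | zero =>
    intro x hx
    have h1 := (coord_bound hR hK hT k₀).2 x hx
    simp only [add_zero, pow_zero, div_one, sub_self, zero_mul, add_zero]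
    calc R / 2 ^ k₀ * |x 0| ≤ R / 2 ^ k₀ * (2 ^ k₀ / R) := by gcongr
      _ = 1 := by field_simp
  | succ j ih =>
    intro x hx
    set A := (meanSeq K T (k₀ + j)).1 with hA
    set H := (meanSeq K T (k₀ + j)).2 with hH
    have hx' : x ∈ harmMean A H := hx
    set c : ℝ := (1 - 1 / 2 ^ j) * (1 + δ)⁻¹ with hc
    have hc0 : 0 ≤ c := by
      have : (1 : ℝ) / 2 ^ j ≤ 1 := by
        rw [div_le_one (by positivity)]
        exact one_le_pow₀ (by norm_num)
      have h1 : 0 ≤ 1 - (1 : ℝ) / 2 ^ j := by linarith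
      positivity
    set p : ℝ := R / 2 ^ (k₀ + j) with hp
    have hp0 : 0 < p := by positivity
    -- unit vector in the direction of `tl x`
    obtain ⟨u, hu1, hxu⟩ : ∃ u : E n, ‖u‖ ≤ 1 ∧ inner ℝ (tl n x) u = ‖tl n x‖ := by
      refine ⟨‖tl n x‖⁻¹ • tl n x, ?_, ?_⟩
      · rw [norm_smul, norm_inv, norm_norm]
        exact inv_mul_le_one
      · rw [inner_smul_right, real_inner_self_eq_norm_sq]
        by_cases h0 : ‖tl n x‖ = 0
        · simp [h0]
        · field_simp
    obtain ⟨σ, hσ1, hxσ⟩ : ∃ σ : ℝ, |σ| ≤ 1 ∧ x 0 * σ = |x 0| := by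
      rcases abs_cases (x 0) with ⟨h, _⟩ | ⟨h, _⟩
      · exact ⟨1, by simp, by rw [h, mul_one]⟩
      · exact ⟨-1, by simp, by rw [h]; ring⟩
    have hz : mk (p * σ) (c • u) ∈ polarBody H := by
      intro w hw
      rw [inner_mk, inner_smul_right]
      have h1 := ih w hw
      have h2 : w 0 * (p * σ) ≤ p * |w 0| := by
        calc w 0 * (p * σ) ≤ |w 0 * (p * σ)| := le_abs_self _
          _ = p * |w 0| * |σ| := by rw [abs_mul, abs_mul, abs_of_pos hp0]; ring
          _ ≤ p * |w 0| * 1 := by gcongr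
          _ = p * |w 0| := mul_one _
      have h3 : c * inner ℝ (tl n w) u ≤ c * ‖tl n w‖ := by
        refine mul_le_mul_of_nonneg_left ?_ hc0
        calc inner ℝ (tl n w) u ≤ ‖tl n w‖ * ‖u‖ := real_inner_le_norm _ _
          _ ≤ ‖tl n w‖ * 1 := by gcongr
          _ = ‖tl n w‖ := mul_one _
      linarith
    have hy : mk 0 ((1 + δ)⁻¹ • u) ∈ polarBody A := by
      intro w hw
      rw [inner_mk, inner_smul_right, mul_zero, zero_add]
      have h1 := hk₀ (k₀ + j) (by omega) w hw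
      calc (1 + δ)⁻¹ * inner ℝ (tl n w) u ≤ (1 + δ)⁻¹ * (‖tl n w‖ * ‖u‖) := by
            gcongr; exact real_inner_le_norm _ _
        _ ≤ (1 + δ)⁻¹ * ((1 + δ) * 1) := by gcongr
        _ = 1 := by rw [mul_one, inv_mul_cancel₀ (by positivity)]
    have h := mem_harm.1 hx' _ hy _ hz
    rw [real_inner_comm, inner_smul_right, inner_add_right, inner_mk, inner_mk,
      inner_smul_right, inner_smul_right, hxu, mul_zero, zero_add] at h
    have e1 : x 0 * (p * σ) = p * |x 0| := by rw [← hxσ]; ring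
    rw [e1] at h
    have e2 : R / 2 ^ (k₀ + (j + 1)) = p / 2 := by
      rw [hp, ← add_assoc, pow_succ]; field_simp
    have e3 : (1 - 1 / 2 ^ (j + 1)) * (1 + δ)⁻¹ = ((1 + δ)⁻¹ + c) / 2 := by
      rw [hc, pow_succ]; field_simp; ring
    rw [e2, e3]
    linarith

theorem seq_dual_eventually {V : Type*} [NormedAddCommGroup V] [InnerProductSpace ℝ V]
    [FiniteDimensional ℝ V] {X : Set V} (hX : IsSymBody X) {η : ℝ} (hη : 0 < η) :
    ∃ i₀ : ℕ, ∀ i, i₀ ≤ i → ∀ x ∈ (meanSeq X (polarBody X) i).1, ‖x‖ ≤ 1 + η := by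
  obtain ⟨δ, hδ, hgap⟩ := seq_gap hX hX.polar
  obtain ⟨i₀, hi₀⟩ : ∃ i₀ : ℕ, δ / 2 ^ i₀ ≤ η := by
    obtain ⟨i, hi⟩ := pow_unbounded_of_one_lt (δ / η) (by norm_num : (1 : ℝ) < 2)
    refine ⟨i, ?_⟩
    rw [div_le_iff₀ (by positivity)]
    rw [div_lt_iff₀ hη] at hi
    linarith
  refine ⟨i₀ + 1, fun i hi x hx => ?_⟩
  obtain ⟨j, rfl⟩ : ∃ j, i = j + 1 := ⟨i - 1, by omega⟩
  obtain ⟨y, hy, rfl⟩ := hgap j hx
  have hy1 := seq_dual_harm_subset hX j hy
  rw [mem_closedBall_zero_iff] at hy1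
  have h0 : 0 ≤ 1 + δ / 2 ^ j := by positivity
  have hj : δ / 2 ^ j ≤ η := by
    refine le_trans ?_ hi₀
    gcongr
    · norm_num
    · omega
  change ‖(1 + δ / 2 ^ j) • y‖ ≤ _
  rw [norm_smul, Real.norm_of_nonneg h0]
  nlinarith [norm_nonneg y]

/-- Boxes with widely separated side lengths: the arithmetic iterates get arbitrarily close to
the Euclidean unit ball. -/
theorem exists_box (n : ℕ) : ∀ ε : ℝ, 0 < ε → ∃ s : Fin n → ℝ, (∀ i, 0 < s i) ∧
    ∃ k₀ : ℕ, ∀ k, k₀ ≤ k →
      ∀ x ∈ (meanSeq (box s) (box fun i => (s i)⁻¹) k).1, ‖x‖ ≤ 1 + ε := by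
  induction n with
  | zero =>
    intro ε hε
    refine ⟨fun _ => 1, fun i => i.elim0, 0, fun k _ x _ => ?_⟩
    have : x = 0 := Subsingleton.elim _ _
    rw [this, norm_zero]; positivity
  | succ n ih =>
    intro ε hε
    set η : ℝ := min (ε / 3) 1 with hηdef
    have hη : 0 < η := by positivity
    have hη1 : η ≤ 1 := min_le_right _ _
    have hη3 : η ≤ ε / 3 := min_le_left _ _
    obtain ⟨s, hs, k₀, hk₀⟩ := ih (η / 2) (by positivity)
    obtain ⟨l, hl⟩ := pow_unbounded_of_one_lt (1 / η) (by norm_num : (1 : ℝ) < 2)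
    obtain ⟨j, hj⟩ := exists_pow_lt_of_lt_one (show 0 < (η / 2) / (1 + η) by positivity)
      (by norm_num : (1 / 2 : ℝ) < 1)
    set L : ℝ := 2 ^ l with hL
    have hL1 : 1 ≤ L := one_le_pow₀ (by norm_num)
    have hLη : 1 ≤ η * L := by
      rw [div_lt_iff₀ hη] at hl
      linarith
    set m := k₀ + j with hm
    set R : ℝ := 2 ^ m * L with hR
    have hR0 : 0 < R := by positivity
    set S : Fin (n + 1) → ℝ := Fin.cons R s with hS
    have hSpos : ∀ i, 0 < S i := by
      intro i; refine Fin.cases ?_ (fun i => ?_) i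
      · simpa [hS] using hR0
      · simpa [hS] using hs i
    have hSinv : ∀ i, 0 < (S i)⁻¹ := fun i => inv_pos.2 (hSpos i)
    refine ⟨S, hSpos, ?_⟩
    set K := box S with hK
    set T := box (fun i => (S i)⁻¹) with hT
    have hK0 : ∀ x ∈ K, |x 0| ≤ R := fun x hx => by simpa [hS] using hx 0
    have hT0 : ∀ x ∈ T, |x 0| ≤ 1 / R := fun x hx => by simpa [hS] using hx 0
    have htlK : tl n '' K ⊆ box s := by
      rintro _ ⟨x, hx, rfl⟩ i
      simpa [hS] using hx i.succ
    have htlT : tl n '' T ⊆ box (fun i => (s i)⁻¹) := by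
      rintro _ ⟨x, hx, rfl⟩ i
      simpa [hS] using hx i.succ
    have htl : ∀ k, k₀ ≤ k → ∀ x ∈ (meanSeq K T k).1, ‖tl n x‖ ≤ 1 + η / 2 := by
      intro k hk x hx
      refine hk₀ k hk _ ?_
      exact (seq_mono htlK htlT k).1 ((map_seq (tl n) (inj n) inner_tl K T k).1 ⟨x, hx, rfl⟩)
    -- time `m`
    have hRm : R / 2 ^ m = L := by rw [hR]; field_simp
    have hAm : (meanSeq K T m).1 ⊆ (1 + η) • cyl n L := by
      intro x hx
      refine ⟨(1 + η)⁻¹ • x, ⟨?_, ?_⟩, ?_⟩
      · have h1 := (coord_bound hR0 hK0 hT0 m).1 x hx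
        have h2 : R / 2 ^ m + 2 ^ m / (3 * R) ≤ (1 + η) * L := by
          rw [hRm, hR]
          have h3 : (2 : ℝ) ^ m / (3 * (2 ^ m * L)) = 1 / (3 * L) := by field_simp
          rw [h3]
          have h4 : 1 / (3 * L) ≤ 1 := by
            rw [div_le_one (by positivity)]; linarith
          linarith
        simp only [PiLp.smul_apply, smul_eq_mul]
        rw [abs_mul, abs_of_pos (by positivity), inv_mul_le_iff₀ (by positivity)]
        exact h1.trans h2
      · have h1 := htl m (by omega) x hx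
        rw [map_smul, norm_smul, Real.norm_of_nonneg (by positivity),
          inv_mul_le_iff₀ (by positivity)]
        linarith
      · simp only [smul_smul]
        rw [mul_inv_cancel₀ (by positivity), one_smul]
    have hHm : (meanSeq K T m).2 ⊆ (1 + η) • polarBody (cyl n L) := by
      intro x hx
      refine ⟨(1 + η)⁻¹ • x, mem_polar_cyl ?_, ?_⟩
      · have h1 := mixed_bound hR0 (by positivity) hK0 hT0 htl j x hx
        rw [← hm, hRm] at h1
        have h2 : (1 + η)⁻¹ ≤ (1 - 1 / 2 ^ j) * (1 + η / 2)⁻¹ := by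
          have h3 : (1 : ℝ) / 2 ^ j ≤ (η / 2) / (1 + η) := by
            have : (1 : ℝ) / 2 ^ j = (1 / 2) ^ j := by rw [one_div, one_div, inv_pow]
            rw [this]; exact hj.le
          have h4 : (1 + η / 2) / (1 + η) ≤ 1 - 1 / 2 ^ j := by
            have : (1 + η / 2) / (1 + η) = 1 - (η / 2) / (1 + η) := by field_simp; ring
            rw [this]; linarith
          calc (1 + η)⁻¹ = (1 + η / 2) / (1 + η) * (1 + η / 2)⁻¹ := by field_simp
            _ ≤ (1 - 1 / 2 ^ j) * (1 + η / 2)⁻¹ := by gcongr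
        simp only [PiLp.smul_apply, smul_eq_mul, map_smul, norm_smul]
        rw [abs_mul, abs_of_pos (by positivity : 0 < (1 + η)⁻¹),
          Real.norm_of_nonneg (by positivity : 0 ≤ (1 + η)⁻¹)]
        have h5 : (1 + η)⁻¹ * ‖tl n x‖ ≤ (1 - 1 / 2 ^ j) * (1 + η / 2)⁻¹ * ‖tl n x‖ := by
          gcongr
        have h6 : L * ((1 + η)⁻¹ * |x 0|) ≤ L * |x 0| := by
          have : (1 + η)⁻¹ ≤ 1 := inv_le_one_of_one_le₀ (by linarith)
          have h7 : (1 + η)⁻¹ * |x 0| ≤ 1 * |x 0| := by gcongr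
          nlinarith
        linarith
      · simp only [smul_smul]
        rw [mul_inv_cancel₀ (by positivity), one_smul]
    obtain ⟨i₀, hi₀⟩ := seq_dual_eventually (isSymBody_cyl n (by positivity : 0 < L)) hη
    refine ⟨m + i₀, fun k hk x hx => ?_⟩
    obtain ⟨i, rfl⟩ : ∃ i, k = m + i := ⟨k - m, by omega⟩
    rw [seq_add] at hx
    have h1 := (seq_mono hAm hHm i).1 hx
    rw [(smul_seq (by positivity) _ _ i).1] at h1
    obtain ⟨y, hy, rfl⟩ := h1
    have h2 := hi₀ i (by omega) y hy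
    change ‖(1 + η) • y‖ ≤ _
    rw [norm_smul, Real.norm_of_nonneg (by positivity)]
    calc (1 + η) * ‖y‖ ≤ (1 + η) * (1 + η) := by gcongr
      _ ≤ 1 + ε := by nlinarith

end Pool.Agent.Helper86.GM
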