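import Pool.Agent.Helper86.HDDefs

namespace Pool.Agent.Helper86.HD

open Finset

variable {K : Type*} [Field K]

lemma coe_add_lt {a c : ℝ} {x y : WithTop ℝ} (h1 : (a : WithTop ℝ) < x)
    (h2 : (c : WithTop ℝ) < y) : ((a + c : ℝ) : WithTop ℝ) < x + y := by
  induction x using WithTop.recTopCoe with
  | top => simp
  | coe x =>
    induction y using WithTop.recTopCoe with
    | top => simp
    | coe y =>
      have h1' := WithTop.coe_lt_coe.mp h1
      have h2' := WithTop.coe_lt_coe.mp h2
      rw [← WithTop.coe_add]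
      exact WithTop.coe_lt_coe.mpr (by linarith)

lemma half_lt {a c : ℝ} {x : WithTop ℝ} (h : ((a + c : ℝ) : WithTop ℝ) < x + x) :
    (((a + c) / 2 : ℝ) : WithTop ℝ) < x := by
  induction x using WithTop.recTopCoe with
  | top => simp
  | coe x =>
    rw [← WithTop.coe_add] at h
    have h' := WithTop.coe_lt_coe.mp h
    exact WithTop.coe_lt_coe.mpr (by linarith)

lemma prod_val_lt (ν : AddValuation K (WithTop ℝ)) {ι : Type*} (s : Finset ι)
    (hs : s.Nonempty) (c : ι → ℝ) (f : ι → K)
    (h : ∀ i ∈ s, ((c i : ℝ) : WithTop ℝ) < ν (f i)) :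
    ((∑ i ∈ s, c i : ℝ) : WithTop ℝ) < ν (∏ i ∈ s, f i) := by
  classical
  induction hs using Finset.Nonempty.cons_induction with
  | singleton a => simpa using h a (by simp)
  | cons a s ha hs ih =>
    rw [Finset.sum_cons, Finset.prod_cons, AddValuation.map_mul]
    exact coe_add_lt (h a (by simp)) (ih fun i hi => h i (by simp [hi]))

/-- identity matrix with the columns in `U` replaced by those of `A` -/
def colRep {n : ℕ} (A : Matrix (Fin n) (Fin n) K) (U : Finset (Fin n)) :
    Matrix (Fin n) (Fin n) K :=
  Matrix.of fun i j => if j ∈ U then A i j else if i = j then 1 else 0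

lemma term_zero {n : ℕ} (A : Matrix (Fin n) (Fin n) K) (U : Finset (Fin n))
    (σ : Equiv.Perm (Fin n)) (k : Fin n) (hk : k ∉ U) (hσ : σ k ≠ k) :
    ∏ i, colRep A U (σ i) i = 0 := by
  apply Finset.prod_eq_zero (Finset.mem_univ k)
  simp [colRep, hk, hσ]

lemma term_eq {n : ℕ} (A : Matrix (Fin n) (Fin n) K) (U : Finset (Fin n))
    (σ : Equiv.Perm (Fin n)) (hσ : ∀ k, k ∉ U → σ k = k) :
    ∏ i, colRep A U (σ i) i = ∏ i ∈ U, A (σ i) i := by
  rw [← Finset.prod_subset (Finset.subset_univ U)]
  · exact Finset.prod_congr rfl fun i hi => by simp [colRep, hi]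
  · intro i _ hi
    simp [colRep, hi, hσ i hi]

lemma det_single {n : ℕ} (A : Matrix (Fin n) (Fin n) K) (k : Fin n) :
    (colRep A {k}).det = A k k := by
  rw [Matrix.det_apply', Finset.sum_eq_single (1 : Equiv.Perm (Fin n))]
  · rw [term_eq A {k} 1 (fun _ _ => rfl)]
    simp
  · intro σ _ hσ
    have : ∃ l, l ∉ ({k} : Finset (Fin n)) ∧ σ l ≠ l := by
      by_contra hcon
      push Not at hcon
      apply hσ
      ext l
      by_cases hl : l = k
      · subst hl
        by_contra hne
        have hne' : σ l ≠ l := fun h => hne (by rw [h]; rfl)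
        have h2 : σ (σ l) = σ l := hcon (σ l) (by simpa using hne')
        exact hne' (σ.injective h2)
      · rw [hcon l (by simpa using hl)]; rfl
    obtain ⟨l, hl, hl'⟩ := this
    rw [term_zero A _ σ l hl hl', mul_zero]
  · intro h
    exact absurd (Finset.mem_univ _) h

lemma det_pair {n : ℕ} (A : Matrix (Fin n) (Fin n) K) (i j : Fin n) (hij : i ≠ j) :
    (colRep A {i, j}).det = A i i * A j j - A i j * A j i := by
  classical
  rw [Matrix.det_apply']
  have h1s : (1 : Equiv.Perm (Fin n)) ≠ Equiv.swap i j := by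
    intro h
    have := congrArg (fun σ : Equiv.Perm (Fin n) => σ i) h
    simp at this
    exact hij this
  rw [← Finset.sum_subset (Finset.subset_univ {(1 : Equiv.Perm (Fin n)), Equiv.swap i j})]
  · rw [Finset.sum_pair h1s, term_eq A {i, j} 1 (fun _ _ => rfl), term_eq A {i, j} (Equiv.swap i j)]
    · rw [Finset.prod_pair hij, Finset.prod_pair hij, Equiv.Perm.sign_swap hij]
      simp
      ring
    · intro k hk
      simp only [Finset.mem_insert, Finset.mem_singleton, not_or] at hk
      exact Equiv.swap_apply_of_ne_of_ne hk.1 hk.2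
  · intro σ _ hσ
    simp only [Finset.mem_insert, Finset.mem_singleton, not_or] at hσ
    have : ∃ l, l ∉ ({i, j} : Finset (Fin n)) ∧ σ l ≠ l := by
      by_contra hcon
      push Not at hcon
      have hfix : ∀ l, l ≠ i → l ≠ j → σ l = l := fun l h1 h2 => hcon l (by simp [h1, h2])
      have hi : σ i = i ∨ σ i = j := by
        by_contra h
        push Not at h
        have := hfix (σ i) h.1 h.2
        exact h.1 (σ.injective this)
      have hj : σ j = i ∨ σ j = j := by
        by_contra h
        push Not at h
        have := hfix (σ j) h.1 h.2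
        exact h.2 (σ.injective this)
      rcases hi with hi | hi
      · have hj' : σ j = j := by
          rcases hj with hj | hj
          · exact absurd (σ.injective (hi.trans hj.symm)) hij
          · exact hj
        apply hσ.1
        ext l
        by_cases h1 : l = i
        · rw [h1, hi]; rfl
        · by_cases h2 : l = j
          · rw [h2, hj']; rfl
          · rw [hfix l h1 h2]; rfl
      · have hj' : σ j = i := by
          rcases hj with hj | hj
          · exact hj
          · exact absurd (σ.injective (hi.trans hj.symm)) hij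
        apply hσ.2
        ext l
        by_cases h1 : l = i
        · rw [h1, hi, Equiv.swap_apply_left]
        · by_cases h2 : l = j
          · rw [h2, hj', Equiv.swap_apply_right]
          · rw [hfix l h1 h2, Equiv.swap_apply_of_ne_of_ne h1 h2]
    obtain ⟨l, hl, hl'⟩ := this
    rw [term_zero A _ σ l hl hl', mul_zero]

/-- if all entries are small compared with the weights then so is the determinant -/
lemma det_val_lt {n : ℕ} (ν : AddValuation K (WithTop ℝ)) (A : Matrix (Fin n) (Fin n) K)
    (D : Finset (Fin n)) (hD : D.Nonempty) (w : Fin n → ℝ)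
    (h : ∀ i ∈ D, ∀ j ∈ D, (((w i + w j) / 2 : ℝ) : WithTop ℝ) < ν (A i j)) :
    ((∑ i ∈ D, w i : ℝ) : WithTop ℝ) < ν (colRep A D).det := by
  classical
  rw [Matrix.det_apply']
  apply AddValuation.map_lt_sum ν (WithTop.coe_ne_top)
  intro σ _
  have hsign : ν (((Equiv.Perm.sign σ : ℤˣ) : ℤ) : K) = 0 := by
    rcases Int.units_eq_one_or (Equiv.Perm.sign σ) with h | h
    · rw [h]; simp
    · rw [h]; simp
  rw [AddValuation.map_mul, hsign, zero_add]
  by_cases hσ : ∀ k, k ∉ D → σ k = k
  · rw [term_eq A D σ hσ]
    have hmem : ∀ k ∈ D, σ k ∈ D := by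
      intro k hk
      by_contra hc
      have := hσ (σ k) hc
      exact hc (by rw [σ.injective this]; exact hk)
    have hsum : ∑ i ∈ D, w i = ∑ i ∈ D, (w (σ i) + w i) / 2 := by
      have h1 : ∑ i, w (σ i) = ∑ i, w i := Equiv.sum_comp σ w
      have h2 : ∑ i ∈ Dᶜ, w (σ i) = ∑ i ∈ Dᶜ, w i :=
        Finset.sum_congr rfl fun i hi => by rw [hσ i (by simpa using hi)]
      have h3 := Finset.sum_add_sum_compl D (fun i => w (σ i))
      have h4 := Finset.sum_add_sum_compl D w
      have h5 : ∑ i ∈ D, w (σ i) = ∑ i ∈ D, w i := by linarith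
      rw [← Finset.sum_div, Finset.sum_add_distrib, h5]
      ring
    rw [hsum]
    exact prod_val_lt ν D hD _ _ fun i hi => h (σ i) (hmem i hi) i hi
  · push Not at hσ
    obtain ⟨k, hk, hk'⟩ := hσ
    rw [term_zero A D σ k hk hk', AddValuation.map_zero]
    exact WithTop.coe_lt_top _

variable [StarRing K]

/-- The key estimate. -/
lemma core {n : ℕ} (ν : AddValuation K (WithTop ℝ)) (hν : ∀ a : K, ν (star a) = ν a)
    (A : Matrix (Fin n) (Fin n) K) (α : K) (u : Fin n → K)
    (hA : ∀ i j, A i j + star (A j i) + α * u i * star (u j) = 0)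
    (D : Finset (Fin n)) (hD : 3 ≤ D.card) (w : Fin n → ℝ)
    (h : ∀ U : Finset (Fin n), U ⊆ D → U.Nonempty → U ≠ D →
      ((∑ i ∈ U, w i : ℝ) : WithTop ℝ) < ν (colRep A U).det) :
    ((∑ i ∈ D, w i : ℝ) : WithTop ℝ) < ν (colRep A D).det := by
  classical
  have hdiag : ∀ i ∈ D, ((w i : ℝ) : WithTop ℝ) < ν (A i i) := by
    intro i hi
    have := h {i} (by simpa using hi) (by simp) (by
      intro he; rw [← he] at hD; simp at hD)
    rw [det_single, Finset.sum_singleton] at this
    exact this
  have hprod : ∀ i ∈ D, ∀ j ∈ D, i ≠ j →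
      ((w i + w j : ℝ) : WithTop ℝ) < ν (A i j) + ν (A j i) := by
    intro i hi j hj hij
    have h2 := h {i, j} (by
      intro k hk
      simp only [Finset.mem_insert, Finset.mem_singleton] at hk
      rcases hk with rfl | rfl <;> assumption) (by simp) (by
      intro he; rw [← he, Finset.card_pair hij] at hD; omega)
    rw [det_pair A i j hij, Finset.sum_pair hij] at h2
    have h3 : ((w i + w j : ℝ) : WithTop ℝ) < ν (A i i * A j j) := by
      rw [AddValuation.map_mul]
      exact coe_add_lt (hdiag i hi) (hdiag j hj)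
    have h4 : A i j * A j i = A i i * A j j - (A i i * A j j - A i j * A j i) := by ring
    rw [← AddValuation.map_mul, h4]
    exact lt_of_lt_of_le (lt_min h3 h2) (AddValuation.map_sub ν _ _)
  have hC : ∀ i ∈ D, ((w i : ℝ) : WithTop ℝ) < ν (α * u i * star (u i)) := by
    intro i hi
    have h1 : α * u i * star (u i) = -(A i i + star (A i i)) := by
      have := hA i i
      linear_combination this
    rw [h1, AddValuation.map_neg]
    refine lt_of_lt_of_le ?_ (AddValuation.map_add ν _ _)
    rw [hν, min_self]
    exact hdiag i hi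
  have hCoff : ∀ i ∈ D, ∀ j ∈ D,
      (((w i + w j) / 2 : ℝ) : WithTop ℝ) < ν (α * u i * star (u j)) := by
    intro i hi j hj
    apply half_lt
    have h1 := coe_add_lt (hC i hi) (hC j hj)
    have h2 : ν (α * u i * star (u i)) + ν (α * u j * star (u j)) =
        ν (α * u i * star (u j)) + ν (α * u i * star (u j)) := by
      simp only [AddValuation.map_mul, hν]
      abel
    rw [h2] at h1
    exact h1
  apply det_val_lt ν A D (Finset.card_pos.mp (by omega)) w
  intro i hi j hj
  by_cases hij : i = j
  · subst hij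
    have := hdiag i hi
    have e : (w i + w i) / 2 = w i := by ring
    rw [e]
    exact this
  have hsumC : α * u i * star (u j) = -(A i j + star (A j i)) := by
    have := hA i j
    linear_combination this
  have hcc := hCoff i hi j hj
  rw [hsumC, AddValuation.map_neg] at hcc
  rcases lt_trichotomy (ν (A i j)) (ν (A j i)) with hlt | heq | hgt
  · rw [AddValuation.map_add_eq_of_lt_left ν (by rw [hν]; exact hlt)] at hcc
    exact hcc
  · apply half_lt
    have := hprod i hi j hj hij
    rw [← heq] at this
    exact this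
  · rw [AddValuation.map_add_eq_of_lt_right ν (by rw [hν]; exact hgt), hν] at hcc
    exact lt_trans hcc hgt

end Pool.Agent.Helper86.HD
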