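import Mathlib

namespace Pool.Agent.Helper86.HD

/-- The 0/1 vector of a subset of the index set. -/
def vec {n : ℕ} (S : Finset (Fin n)) : Fin n → ℝ := fun i => if i ∈ S then 1 else 0

/-- The lifted points `(x, p x)` with `p x` finite. -/
def lifted {n : ℕ} (p : Finset (Fin n) → WithTop ℝ) : Set ((Fin n → ℝ) × ℝ) :=
  {z | ∃ S : Finset (Fin n), z.1 = vec S ∧ p S = (z.2 : WithTop ℝ)}

/-- The lower face of the convex hull of the lifted points on which the functional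
`h - w . x` is minimal. -/
def lowerFace {n : ℕ} (p : Finset (Fin n) → WithTop ℝ) (w : Fin n → ℝ) :
    Set ((Fin n → ℝ) × ℝ) :=
  {z | z ∈ convexHull ℝ (lifted p) ∧
    ∀ z' ∈ convexHull ℝ (lifted p), z.2 - ∑ i, w i * z.1 i ≤ z'.2 - ∑ i, w i * z'.1 i}

/-- The segment from `x` to `y` is an edge of the regular subdivision induced by `p`. -/
def IsEdge {n : ℕ} (p : Finset (Fin n) → WithTop ℝ) (x y : Fin n → ℝ) : Prop :=
  x ≠ y ∧ ∃ w : Fin n → ℝ, Prod.fst '' lowerFace p w = segment ℝ x y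

/-- Every edge of the induced subdivision is parallel to some `e_i`, `e_i + e_j` or
`e_i - e_j`. -/
def IsValuatedDeltaMatroid {n : ℕ} (p : Finset (Fin n) → WithTop ℝ) : Prop :=
  ∀ x y : Fin n → ℝ, IsEdge p x y →
    (∃ i, ∃ c : ℝ, y - x = c • Pi.single i (1 : ℝ)) ∨
    (∃ i j, i ≠ j ∧ ∃ c : ℝ, y - x = c • (Pi.single i (1 : ℝ) + Pi.single j (1 : ℝ)) ∨
      y - x = c • (Pi.single i (1 : ℝ) - Pi.single j (1 : ℝ)))

end Pool.Agent.Helper86.HD
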