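import Pool.Agent.Helper86.HDGeom
import Pool.Agent.Helper86.HDCore

namespace Pool.Agent.Helper86.HD

open Finset

variable {K V : Type*} [Field K] [StarRing K] [AddCommGroup V] [Module K V]

lemma form_coords {n : ℕ} (b : V →ₗ[K] V →ₛₗ[starRingEnd K] K)
    (hb : ∀ x y, b x y = star (b y x))
    (β : Module.Basis (Fin n ⊕ Fin n ⊕ Unit) K V)
    (hee : ∀ i j, b (β (Sum.inl i)) (β (Sum.inl j)) = 0)
    (hff : ∀ i j, b (β (Sum.inr (Sum.inl i))) (β (Sum.inr (Sum.inl j))) = 0)
    (hef : ∀ i j, b (β (Sum.inl i)) (β (Sum.inr (Sum.inl j))) = if i = j then 1 else 0)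
    (heg : ∀ i, b (β (Sum.inl i)) (β (Sum.inr (Sum.inr ()))) = 0)
    (hfg : ∀ i, b (β (Sum.inr (Sum.inl i))) (β (Sum.inr (Sum.inr ()))) = 0)
    (x y : V) :
    b x y = ∑ i, (β.repr x (Sum.inl i) * star (β.repr y (Sum.inr (Sum.inl i))) +
      β.repr x (Sum.inr (Sum.inl i)) * star (β.repr y (Sum.inl i))) +
      b (β (Sum.inr (Sum.inr ()))) (β (Sum.inr (Sum.inr ()))) *
        β.repr x (Sum.inr (Sum.inr ())) * star (β.repr y (Sum.inr (Sum.inr ()))) := by
  have hfe : ∀ i j, b (β (Sum.inr (Sum.inl i))) (β (Sum.inl j)) = if i = j then 1 else 0 := by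
    intro i j
    rw [hb, hef]
    by_cases h : i = j
    · subst h; simp
    · have h' : ¬ j = i := fun e => h e.symm
      simp [h, h']
  have hge : ∀ i, b (β (Sum.inr (Sum.inr ()))) (β (Sum.inl i)) = 0 := by
    intro i; rw [hb, heg]; simp
  have hgf : ∀ i, b (β (Sum.inr (Sum.inr ()))) (β (Sum.inr (Sum.inl i))) = 0 := by
    intro i; rw [hb, hfg]; simp
  have hx := β.sum_repr x
  have hy := β.sum_repr y
  have key : b x y = ∑ k, ∑ l, β.repr x k * (star (β.repr y l) * b (β k) (β l)) := by
    have h1 : b x = ∑ k, β.repr x k • b (β k) := by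
      conv_lhs => rw [← hx]
      rw [map_sum]
      exact Finset.sum_congr rfl fun k _ => by rw [map_smul]
    rw [h1, LinearMap.sum_apply]
    refine Finset.sum_congr rfl fun k _ => ?_
    have h2 : b (β k) y = ∑ l, star (β.repr y l) * b (β k) (β l) := by
      conv_lhs => rw [← hy]
      rw [map_sum]
      refine Finset.sum_congr rfl fun l _ => ?_
      rw [LinearMap.map_smulₛₗ]
      rfl
    rw [LinearMap.smul_apply, h2, smul_eq_mul, Finset.mul_sum]
  rw [key]
  simp only [Fintype.sum_sum_type, hee, hff, hef, hfe, heg, hfg, hge, hgf,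
    Finset.univ_unique, Finset.sum_singleton, PUnit.default_eq_unit]
  simp only [mul_zero, Finset.sum_const_zero, zero_add, add_zero, mul_ite, mul_one,
    Finset.sum_ite_eq, Finset.mem_univ, if_true]
  rw [Finset.sum_add_distrib]
  ring

/-- Matrix version of the key statement, after choosing a base set `S` with nonzero minor. -/
lemma small_symmDiff {n : ℕ} (ν : AddValuation K (WithTop ℝ)) (hν : ∀ a : K, ν (star a) = ν a)
    (a f : Matrix (Fin n) (Fin n) K) (u : Fin n → K) (α : K)
    (hiso : ∀ i j, ∑ k, (a i k * star (f j k) + f i k * star (a j k)) +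
      α * u i * star (u j) = 0)
    (p : Finset (Fin n) → WithTop ℝ)
    (hp : ∀ S, p S = ν (Matrix.det (Matrix.of fun i j => if j ∈ S then a i j else f i j)))
    (w : Fin n → ℝ) (S T : Finset (Fin n)) (s t : ℝ) (hS : p S = s) (hT : p T = t)
    (hST : s - ∑ i, w i * vec S i = t - ∑ i, w i * vec T i)
    (hU : ∀ (U : Finset (Fin n)) (u : ℝ), p U = u → U ≠ S → U ≠ T →
        s - ∑ i, w i * vec S i < u - ∑ i, w i * vec U i) :
    (symmDiff S T).card ≤ 2 := by
  classical
  by_contra hcard
  have hD : 3 ≤ (symmDiff S T).card := by omega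
  set F : Matrix (Fin n) (Fin n) K := Matrix.of fun i j => if j ∈ S then a i j else f i j with hF
  set E : Matrix (Fin n) (Fin n) K := Matrix.of fun i j => if j ∈ S then f i j else a i j with hE
  have hdet : F.det ≠ 0 := by
    intro h0
    have := hp S
    rw [hS, ← hF, h0, AddValuation.map_zero] at this
    exact WithTop.coe_ne_top this
  have hunit : IsUnit F.det := isUnit_iff_ne_zero.mpr hdet
  -- isotropy in swapped coordinates
  have hiso' : E * F.conjTranspose + F * E.conjTranspose +
      α • Matrix.vecMulVec u (star u) = 0 := by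
    ext i j
    have := hiso i j
    simp only [Matrix.add_apply, Matrix.mul_apply, Matrix.conjTranspose_apply, Matrix.smul_apply,
      Matrix.vecMulVec_apply, Pi.star_apply, smul_eq_mul, Matrix.zero_apply, hE, hF,
      Matrix.of_apply]
    rw [← this, ← Finset.sum_add_distrib, mul_assoc]
    congr 1
    refine Finset.sum_congr rfl fun k _ => ?_
    by_cases hk : k ∈ S
    · simp only [hk, if_true]; ring
    · simp only [hk, if_false]
  set P := F⁻¹ with hP
  have hPF : P * F = 1 := Matrix.nonsing_inv_mul F hunit
  set A := P * E with hA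
  set v := P.mulVec u with hv
  have hAiso : ∀ i j, A i j + star (A j i) + α * v i * star (v j) = 0 := by
    have h1 : P * (E * F.conjTranspose + F * E.conjTranspose +
      α • Matrix.vecMulVec u (star u)) * P.conjTranspose = 0 := by
      rw [hiso']; simp
    have hFP : F.conjTranspose * P.conjTranspose = 1 := by
      rw [← Matrix.conjTranspose_mul, hPF, Matrix.conjTranspose_one]
    have h2 : P * (E * F.conjTranspose + F * E.conjTranspose +
      α • Matrix.vecMulVec u (star u)) * P.conjTranspose =
        A + A.conjTranspose + α • Matrix.vecMulVec v (star v) := by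
      rw [Matrix.mul_add, Matrix.mul_add, Matrix.add_mul, Matrix.add_mul]
      have e1 : P * (E * F.conjTranspose) * P.conjTranspose = A := by
        rw [← Matrix.mul_assoc, Matrix.mul_assoc, hFP, Matrix.mul_one]
      have e2 : P * (F * E.conjTranspose) * P.conjTranspose = A.conjTranspose := by
        rw [← Matrix.mul_assoc, hPF, Matrix.one_mul, hA, Matrix.conjTranspose_mul]
      have e3 : P * (α • Matrix.vecMulVec u (star u)) * P.conjTranspose =
          α • Matrix.vecMulVec v (star v) := by
        rw [Matrix.mul_smul, Matrix.smul_mul]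
        congr 1
        ext i j
        simp only [Matrix.mul_apply, Matrix.vecMulVec_apply, Matrix.conjTranspose_apply,
          Pi.star_apply, hv, Matrix.mulVec, dotProduct]
        rw [star_sum, Finset.sum_mul_sum, Finset.sum_comm]
        refine Finset.sum_congr rfl fun k _ => ?_
        rw [Finset.sum_mul]
        refine Finset.sum_congr rfl fun l _ => ?_
        rw [star_mul]
        ring
      rw [e1, e2, e3]
    rw [h2] at h1
    intro i j
    have := congrFun (congrFun h1 i) j
    simp only [Matrix.add_apply, Matrix.conjTranspose_apply, Matrix.smul_apply,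
      Matrix.vecMulVec_apply, Pi.star_apply, smul_eq_mul, Matrix.zero_apply] at this
    rw [← this]
    ring
  -- minors
  have hminor : ∀ U : Finset (Fin n), p (symmDiff S U) = (s : WithTop ℝ) + ν (colRep A U).det := by
    intro U
    rw [hp]
    have hmat : (Matrix.of fun i j => if j ∈ symmDiff S U then a i j else f i j) =
        F * colRep A U := by
      have hFA : F * A = E := by
        rw [hA, ← Matrix.mul_assoc, hP, Matrix.mul_nonsing_inv F hunit, Matrix.one_mul]
      ext i j
      rw [Matrix.mul_apply]
      by_cases hjU : j ∈ U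
      · have e1 : ∑ k, F i k * colRep A U k j = ∑ k, F i k * A k j :=
          Finset.sum_congr rfl fun k _ => by simp [colRep, hjU]
        rw [e1, ← Matrix.mul_apply, hFA, hE]
        by_cases hjS : j ∈ S
        · simp [Finset.mem_symmDiff, hjS, hjU]
        · simp [Finset.mem_symmDiff, hjS, hjU]
      · have e1 : ∑ k, F i k * colRep A U k j = F i j := by
          simp [colRep, hjU]
        rw [e1, hF]
        by_cases hjS : j ∈ S
        · simp [Finset.mem_symmDiff, hjS, hjU]
        · simp [Finset.mem_symmDiff, hjS, hjU]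
    rw [hmat, Matrix.det_mul, AddValuation.map_mul]
    congr 1
    rw [← hS, hp]
  -- weights
  let w' : Fin n → ℝ := fun i => if i ∈ S then -w i else w i
  have hw' : ∀ U : Finset (Fin n), ∑ i, w i * vec (symmDiff S U) i =
      ∑ i, w i * vec S i + ∑ i ∈ U, w' i := by
    intro U
    have e1 : ∑ i ∈ U, w' i = ∑ i, if i ∈ U then w' i else 0 := by
      rw [Finset.sum_ite_mem, Finset.univ_inter]
    rw [e1, ← Finset.sum_add_distrib]
    refine Finset.sum_congr rfl fun i _ => ?_
    simp only [vec, w', Finset.mem_symmDiff]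
    by_cases h1 : i ∈ S <;> by_cases h2 : i ∈ U <;> simp [h1, h2]
  have hcore := core ν hν A α v hAiso (symmDiff S T) hD w' ?_
  · have hSD : symmDiff S (symmDiff S T) = T := symmDiff_symmDiff_cancel_left S T
    have h1 := hminor (symmDiff S T)
    rw [hSD, hT] at h1
    have h2 := hw' (symmDiff S T)
    rw [hSD] at h2
    -- ν(det) is finite, equal to t - s
    have hfin : ν (colRep A (symmDiff S T)).det ≠ ⊤ := by
      intro htop
      rw [htop] at h1
      simp at h1
    obtain ⟨d, hd⟩ := WithTop.ne_top_iff_exists.mp hfin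
    rw [← hd] at h1 hcore
    rw [← WithTop.coe_add] at h1
    have h3 := WithTop.coe_injective h1
    have h4 := WithTop.coe_lt_coe.mp hcore
    linarith
  · intro U hUD hUne hUneq
    rcases eq_or_ne (ν (colRep A U).det) ⊤ with htop | hfin
    · rw [htop]; exact WithTop.coe_lt_top _
    obtain ⟨d, hd⟩ := WithTop.ne_top_iff_exists.mp hfin
    rw [← hd]
    apply WithTop.coe_lt_coe.mpr
    have h1 := hminor U
    rw [← hd, ← WithTop.coe_add] at h1
    have hneS : symmDiff S U ≠ S := by
      intro h
      have : U = ∅ := by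
        have := congrArg (fun X => symmDiff S X) h
        simp only [symmDiff_symmDiff_cancel_left, symmDiff_self] at this
        exact this
      rw [this] at hUne
      exact Finset.not_nonempty_empty hUne
    have hneT : symmDiff S U ≠ T := by
      intro h
      apply hUneq
      rw [← h, symmDiff_symmDiff_cancel_left]
    have h2 := hU _ _ h1 hneS hneT
    rw [hw' U] at h2
    linarith

end Pool.Agent.Helper86.HD
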