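import Pool.Agent.Helper86.HDDefs

namespace Pool.Agent.Helper86.HD

open Finset

/-- the functional -/
def phi {n : ℕ} (w : Fin n → ℝ) (z : (Fin n → ℝ) × ℝ) : ℝ := z.2 - ∑ i, w i * z.1 i

lemma phi_comb {n : ℕ} (w : Fin n → ℝ) (z z' : (Fin n → ℝ) × ℝ) (a b : ℝ) :
    phi w (a • z + b • z') = a * phi w z + b * phi w z' := by
  simp only [phi, Prod.snd_add, Prod.smul_snd, Prod.fst_add, Prod.smul_fst, Pi.add_apply,
    Pi.smul_apply, smul_eq_mul]
  have : ∑ i, w i * (a * z.1 i + b * z'.1 i) = a * ∑ i, w i * z.1 i + b * ∑ i, w i * z'.1 i := by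
    rw [Finset.mul_sum, Finset.mul_sum, ← Finset.sum_add_distrib]
    exact Finset.sum_congr rfl fun i _ => by ring
  rw [this]; ring

lemma vec_inj {n : ℕ} {S T : Finset (Fin n)} (h : vec S = vec T) : S = T := by
  ext i
  have := congrFun h i
  simp only [vec] at this
  by_cases h1 : i ∈ S <;> by_cases h2 : i ∈ T <;> simp_all

lemma vec_zero_one {n : ℕ} (S : Finset (Fin n)) (i : Fin n) : vec S i = 0 ∨ vec S i = 1 := by
  simp only [vec]
  by_cases h : i ∈ S <;> simp [h]

/-- if `m` is the minimum of `phi` on the hull then points of the hull are either in the hull of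
the minimisers or have larger value -/
lemma mem_hull_min {n : ℕ} (w : Fin n → ℝ) (A : Set ((Fin n → ℝ) × ℝ)) (m : ℝ)
    (hm : ∀ z ∈ convexHull ℝ A, m ≤ phi w z) (z : (Fin n → ℝ) × ℝ) (hz : z ∈ convexHull ℝ A)
    (hzm : phi w z = m) : z ∈ convexHull ℝ {z | z ∈ A ∧ phi w z = m} := by
  set G : Set ((Fin n → ℝ) × ℝ) := {z | z ∈ A ∧ phi w z = m} with hG
  let R : Set ((Fin n → ℝ) × ℝ) :=
    {z | z ∈ convexHull ℝ A ∧ (z ∈ convexHull ℝ G ∨ m < phi w z)}
  have hR : Convex ℝ R := by
    intro z1 h1 z2 h2 a b ha hb hab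
    refine ⟨convex_convexHull ℝ A h1.1 h2.1 ha hb hab, ?_⟩
    rcases eq_or_lt_of_le ha with ha0 | ha0
    · have hb1 : b = 1 := by linarith
      rw [← ha0, hb1, zero_smul, one_smul, zero_add]
      exact h2.2
    rcases eq_or_lt_of_le hb with hb0 | hb0
    · have ha1 : a = 1 := by linarith
      rw [← hb0, ha1, zero_smul, one_smul, add_zero]
      exact h1.2
    have e1 := hm z1 h1.1
    have e2 := hm z2 h2.1
    rcases h1.2 with g1 | g1
    · rcases h2.2 with g2 | g2
      · left
        exact convex_convexHull ℝ G g1 g2 ha hb hab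
      · right
        rw [phi_comb]
        have hm' : m = a * m + b * m := by rw [← add_mul, hab, one_mul]
        have q1 := mul_le_mul_of_nonneg_left e1 ha
        have q2 := mul_lt_mul_of_pos_left g2 hb0
        linarith
    · right
      rw [phi_comb]
      have hm' : m = a * m + b * m := by rw [← add_mul, hab, one_mul]
      have q1 := mul_lt_mul_of_pos_left g1 ha0
      have q2 := mul_le_mul_of_nonneg_left e2 hb
      linarith
  have hsub : A ⊆ R := by
    intro z hzA
    have hzc := subset_convexHull ℝ A hzA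
    refine ⟨hzc, ?_⟩
    rcases eq_or_lt_of_le (hm z hzc) with h | h
    · left
      exact subset_convexHull ℝ G ⟨hzA, h.symm⟩
    · right
      exact h
  have := convexHull_min hsub hR hz
  rcases this.2 with h | h
  · exact h
  · exact absurd hzm (ne_of_gt h)

lemma edge_data {n : ℕ} {p : Finset (Fin n) → WithTop ℝ} {x y : Fin n → ℝ}
    (h : IsEdge p x y) :
    ∃ (w : Fin n → ℝ) (S T : Finset (Fin n)) (s t : ℝ), p S = s ∧ p T = t ∧ S ≠ T ∧
      (∃ c : ℝ, y - x = c • (vec T - vec S)) ∧
      (s - ∑ i, w i * vec S i = t - ∑ i, w i * vec T i) ∧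
      (∀ (U : Finset (Fin n)) (u : ℝ), p U = u → U ≠ S → U ≠ T →
        s - ∑ i, w i * vec S i < u - ∑ i, w i * vec U i) := by
  obtain ⟨hxy, w, hw⟩ := h
  have hx : x ∈ Prod.fst '' lowerFace p w := by rw [hw]; exact left_mem_segment ℝ x y
  have hy : y ∈ Prod.fst '' lowerFace p w := by rw [hw]; exact right_mem_segment ℝ x y
  obtain ⟨zx, hzx, rfl⟩ := hx
  obtain ⟨zy, hzy, rfl⟩ := hy
  set m : ℝ := phi w zx with hmdef
  have hm : ∀ z ∈ convexHull ℝ (lifted p), m ≤ phi w z := fun z hz => hzx.2 z hz
  have hzym : phi w zy = m := le_antisymm (hzy.2 zx hzx.1) (hm zy hzy.1)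
  set G : Set ((Fin n → ℝ) × ℝ) := {z | z ∈ lifted p ∧ phi w z = m} with hG
  have hGface : ∀ z ∈ G, z ∈ lowerFace p w := by
    intro z hz
    refine ⟨subset_convexHull ℝ _ hz.1, fun z' hz' => ?_⟩
    have := hm z' hz'
    rw [← hz.2] at this
    exact this
  have hx' : zx ∈ convexHull ℝ G := mem_hull_min w _ m hm zx hzx.1 rfl
  have hy' : zy ∈ convexHull ℝ G := mem_hull_min w _ m hm zy hzy.1 hzym
  have hGne : G.Nonempty := by
    rw [← convexHull_nonempty_iff (𝕜 := ℝ)]
    exact ⟨zx, hx'⟩
  obtain ⟨z1, hz1⟩ := hGne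
  have hex : ∃ z2 ∈ G, z2.1 ≠ z1.1 := by
    by_contra hcon
    push Not at hcon
    have hconst : ∀ z ∈ convexHull ℝ G, z.1 = z1.1 := by
      intro z hz
      have hconv : Convex ℝ {z : (Fin n → ℝ) × ℝ | z.1 = z1.1} := by
        intro a ha b hb α β hα hβ hαβ
        change a.1 = z1.1 at ha
        change b.1 = z1.1 at hb
        change (α • a + β • b).1 = z1.1
        rw [Prod.fst_add, Prod.smul_fst, Prod.smul_fst, ha, hb, ← add_smul, hαβ, one_smul]
      exact convexHull_min (fun z hz => hcon z hz) hconv hz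
    exact hxy ((hconst zx hx').trans (hconst zy hy').symm)
  obtain ⟨z2, hz2, hne⟩ := hex
  obtain ⟨S, hS1, hS2⟩ := hz1.1
  obtain ⟨T, hT1, hT2⟩ := hz2.1
  have hseg : ∀ z ∈ G, ∃ θ : ℝ, z.1 = zx.1 + θ • (zy.1 - zx.1) := by
    intro z hz
    have : z.1 ∈ segment ℝ zx.1 zy.1 := by
      rw [← hw]
      exact ⟨z, hGface z hz, rfl⟩
    rw [segment_eq_image'] at this
    obtain ⟨θ, _, h⟩ := this
    exact ⟨θ, h.symm⟩
  have hd : ∃ i, (zy.1 - zx.1) i ≠ 0 := by
    by_contra hcon
    push Not at hcon
    apply hxy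
    funext i
    have := hcon i
    simp only [Pi.sub_apply] at this
    linarith
  refine ⟨w, S, T, z1.2, z2.2, hS2, hT2, ?_, ?_, ?_, ?_⟩
  · rintro rfl
    exact hne (hT1.trans hS1.symm)
  · obtain ⟨θ1, h1⟩ := hseg z1 hz1
    obtain ⟨θ2, h2⟩ := hseg z2 hz2
    have hθ : θ2 - θ1 ≠ 0 := by
      intro h0
      apply hne
      rw [h1, h2]
      have : θ2 = θ1 := by linarith
      rw [this]
    refine ⟨(θ2 - θ1)⁻¹, ?_⟩
    rw [← hT1, ← hS1, h1, h2]
    have : zx.1 + θ2 • (zy.1 - zx.1) - (zx.1 + θ1 • (zy.1 - zx.1)) =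
        (θ2 - θ1) • (zy.1 - zx.1) := by
      rw [sub_smul]; abel
    rw [this, smul_smul, inv_mul_cancel₀ hθ, one_smul]
  · have e1 := hz1.2
    have e2 := hz2.2
    simp only [phi] at e1 e2
    rw [hS1] at e1
    rw [hT1] at e2
    rw [e1, e2]
  · intro U u hU hUS hUT
    have hUl : ((vec U, u) : (Fin n → ℝ) × ℝ) ∈ lifted p := ⟨U, rfl, hU⟩
    have hle := hm _ (subset_convexHull ℝ _ hUl)
    have e1 : z1.2 - ∑ i, w i * vec S i = m := by
      have e1 := hz1.2
      simp only [phi] at e1
      rwa [hS1] at e1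
    rw [e1]
    rcases eq_or_lt_of_le hle with h | h
    · exfalso
      have hG3 : ((vec U, u) : (Fin n → ℝ) × ℝ) ∈ G := ⟨hUl, h.symm⟩
      obtain ⟨θ1, h1⟩ := hseg z1 hz1
      obtain ⟨θ2, h2⟩ := hseg z2 hz2
      obtain ⟨θ3, h3⟩ := hseg _ hG3
      obtain ⟨i, hi⟩ := hd
      rw [hS1] at h1
      rw [hT1] at h2
      simp only at h3
      have k1 := congrFun h1 i
      have k2 := congrFun h2 i
      have k3 := congrFun h3 i
      simp only [Pi.add_apply, Pi.smul_apply, smul_eq_mul] at k1 k2 k3
      have n12 : vec S ≠ vec T := by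
        rw [← hS1, ← hT1]; exact hne.symm
      have n13 : vec U ≠ vec S := fun h => hUS (vec_inj h)
      have n23 : vec U ≠ vec T := fun h => hUT (vec_inj h)
      have t12 : vec S i ≠ vec T i := by
        intro he
        apply n12
        have : θ1 = θ2 := by
          have : (θ1 - θ2) * (zy.1 - zx.1) i = 0 := by linarith
          rcases mul_eq_zero.mp this with h | h
          · linarith
          · exact absurd h hi
        rw [h1, h2, this]
      have t13 : vec U i ≠ vec S i := by
        intro he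
        apply n13
        have : θ3 = θ1 := by
          have : (θ3 - θ1) * (zy.1 - zx.1) i = 0 := by linarith
          rcases mul_eq_zero.mp this with h | h
          · linarith
          · exact absurd h hi
        rw [h1, h3, this]
      have t23 : vec U i ≠ vec T i := by
        intro he
        apply n23
        have : θ3 = θ2 := by
          have : (θ3 - θ2) * (zy.1 - zx.1) i = 0 := by linarith
          rcases mul_eq_zero.mp this with h | h
          · linarith
          · exact absurd h hi
        rw [h2, h3, this]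
      rcases vec_zero_one S i with a | a <;> rcases vec_zero_one T i with b | b <;>
        rcases vec_zero_one U i with c | c <;> simp_all
    · exact h

/-- directions from small symmetric differences -/
lemma direction {n : ℕ} (S T : Finset (Fin n)) (hne : S ≠ T) (hcard : (symmDiff S T).card ≤ 2) :
    (∃ i, ∃ c : ℝ, vec T - vec S = c • Pi.single i (1 : ℝ)) ∨
    (∃ i j, i ≠ j ∧ ∃ c : ℝ, vec T - vec S = c • (Pi.single i (1 : ℝ) + Pi.single j (1 : ℝ)) ∨
      vec T - vec S = c • (Pi.single i (1 : ℝ) - Pi.single j (1 : ℝ))) := by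
  have hval : ∀ k, vec T k - vec S k = if k ∈ symmDiff S T then (if k ∈ T then 1 else -1) else 0 := by
    intro k
    simp only [vec, Finset.mem_symmDiff]
    by_cases h1 : k ∈ S <;> by_cases h2 : k ∈ T <;> simp [h1, h2]
  have hpos : 0 < (symmDiff S T).card := by
    rw [Finset.card_pos, Finset.nonempty_iff_ne_empty]
    intro h
    apply hne
    have : symmDiff S T = ⊥ := h
    exact symmDiff_eq_bot.mp this
  have hc : (symmDiff S T).card = 1 ∨ (symmDiff S T).card = 2 := by omega
  rcases hc with hc | hc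
  · left
    obtain ⟨i, hi⟩ := Finset.card_eq_one.mp hc
    refine ⟨i, if i ∈ T then 1 else -1, ?_⟩
    funext k
    rw [Pi.sub_apply, hval k, hi]
    simp only [Finset.mem_singleton, Pi.smul_apply, smul_eq_mul]
    by_cases hk : k = i
    · subst hk; simp
    · simp [hk]
  · right
    obtain ⟨i, j, hij, hi⟩ := Finset.card_eq_two.mp hc
    refine ⟨i, j, hij, if i ∈ T then 1 else -1, ?_⟩
    by_cases hs : (i ∈ T ↔ j ∈ T)
    · left
      funext k
      rw [Pi.sub_apply, hval k, hi]
      simp only [Finset.mem_insert, Finset.mem_singleton, Pi.smul_apply, smul_eq_mul, Pi.add_apply]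
      by_cases hk : k = i
      · subst hk; simp [hij]
      · by_cases hk' : k = j
        · subst hk'
          by_cases hT : i ∈ T
          · have : k ∈ T := hs.mp hT
            simp [hk, hT, this]
          · have : k ∉ T := fun h => hT (hs.mpr h)
            simp [hk, hT, this]
        · simp [hk, hk']
    · right
      funext k
      rw [Pi.sub_apply, hval k, hi]
      simp only [Finset.mem_insert, Finset.mem_singleton, Pi.smul_apply, smul_eq_mul, Pi.sub_apply]
      by_cases hk : k = i
      · subst hk; simp [hij]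
      · by_cases hk' : k = j
        · subst hk'
          by_cases hT : i ∈ T
          · have : k ∉ T := fun h => hs ⟨fun _ => h, fun _ => hT⟩
            simp [hk, hT, this]
          · have : k ∈ T := by
              by_contra h
              exact hs ⟨fun h' => absurd h' hT, fun h' => absurd h' h⟩
            simp [hk, hT, this]
        · simp [hk, hk']

end Pool.Agent.Helper86.HD
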