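import Pool.Agent.Helper86.HDForm

namespace Pool.Agent.Helper86.HD

open Finset

variable {K V : Type*} [Field K] [StarRing K] [AddCommGroup V] [Module K V]

lemma exists_minor {n : ℕ} (b : V →ₗ[K] V →ₛₗ[starRingEnd K] K)
    (hb : ∀ x y, b x y = star (b y x))
    (β : Module.Basis (Fin n ⊕ Fin n ⊕ Unit) K V)
    (hee : ∀ i j, b (β (Sum.inl i)) (β (Sum.inl j)) = 0)
    (hff : ∀ i j, b (β (Sum.inr (Sum.inl i))) (β (Sum.inr (Sum.inl j))) = 0)
    (hef : ∀ i j, b (β (Sum.inl i)) (β (Sum.inr (Sum.inl j))) = if i = j then 1 else 0)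
    (heg : ∀ i, b (β (Sum.inl i)) (β (Sum.inr (Sum.inr ()))) = 0)
    (hfg : ∀ i, b (β (Sum.inr (Sum.inl i))) (β (Sum.inr (Sum.inr ()))) = 0)
    (hgg : b (β (Sum.inr (Sum.inr ()))) (β (Sum.inr (Sum.inr ()))) ≠ 0)
    (L : Submodule K V) (hL : ∀ x ∈ L, ∀ y ∈ L, b x y = 0)
    (r : Module.Basis (Fin n) K L) :
    ∃ S : Finset (Fin n), Matrix.det (Matrix.of fun i j => if j ∈ S
      then β.repr (r i : V) (Sum.inl j) else β.repr (r i : V) (Sum.inr (Sum.inl j))) ≠ 0 := by
  classical
  let E : Fin n → Module.Dual K L := fun i => (β.coord (Sum.inl i)) ∘ₗ L.subtype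
  let F : Fin n → Module.Dual K L := fun i => (β.coord (Sum.inr (Sum.inl i))) ∘ₗ L.subtype
  let ψ : Finset (Fin n) → Fin n → Module.Dual K L := fun S i => if i ∈ S then E i else F i
  have hE : ∀ i (x : L), E i x = β.repr (x : V) (Sum.inl i) := fun i x => rfl
  have hF : ∀ i (x : L), F i x = β.repr (x : V) (Sum.inr (Sum.inl i)) := fun i x => rfl
  let good : Finset (Finset (Fin n)) :=
    Finset.univ.filter fun J => ∃ S, LinearIndepOn K (ψ S) (J : Set (Fin n))
  have hgood : good.Nonempty := ⟨∅, by simp [good]⟩
  obtain ⟨J, hJ, hJmax⟩ := Finset.exists_max_image good Finset.card hgood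
  simp only [good, Finset.mem_filter, Finset.mem_univ, true_and] at hJ hJmax
  obtain ⟨S, hS⟩ := hJ
  have hspan : ∀ k, k ∉ J → E k ∈ Submodule.span K (ψ S '' (J : Set (Fin n))) ∧
      F k ∈ Submodule.span K (ψ S '' (J : Set (Fin n))) := by
    intro k hk
    constructor
    · by_contra hcon
      have hcong : Set.EqOn (ψ S) (ψ (insert k S)) (J : Set (Fin n)) := by
        intro i hi
        have hik : i ≠ k := fun h => hk (h ▸ hi)
        simp [ψ, hik]
      have h1 : LinearIndepOn K (ψ (insert k S)) (J : Set (Fin n)) := hS.congr hcong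
      have h2 : LinearIndepOn K (ψ (insert k S)) (insert k (J : Set (Fin n))) := by
        rw [linearIndepOn_insert (by simpa using hk)]
        refine ⟨h1, ?_⟩
        rw [← hcong.image_eq]
        simpa [ψ] using hcon
      have := hJmax (insert k J) ⟨insert k S, by simpa using h2⟩
      rw [Finset.card_insert_of_notMem hk] at this
      omega
    · by_contra hcon
      have hcong : Set.EqOn (ψ S) (ψ (S.erase k)) (J : Set (Fin n)) := by
        intro i hi
        have hik : i ≠ k := fun h => hk (h ▸ hi)
        simp [ψ, hik]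
      have h1 : LinearIndepOn K (ψ (S.erase k)) (J : Set (Fin n)) := hS.congr hcong
      have h2 : LinearIndepOn K (ψ (S.erase k)) (insert k (J : Set (Fin n))) := by
        rw [linearIndepOn_insert (by simpa using hk)]
        refine ⟨h1, ?_⟩
        rw [← hcong.image_eq]
        simpa [ψ] using hcon
      have := hJmax (insert k J) ⟨S.erase k, by simpa using h2⟩
      rw [Finset.card_insert_of_notMem hk] at this
      omega
  -- vanishing of the J functionals forces vanishing
  have hinj : ∀ x : L, (∀ i ∈ J, ψ S i x = 0) → x = 0 := by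
    intro x hx
    have hker : ∀ φ ∈ Submodule.span K (ψ S '' (J : Set (Fin n))), φ x = 0 := by
      intro φ hφ
      refine Submodule.span_induction (p := fun φ _ => φ x = 0) ?_ ?_ ?_ ?_ hφ
      · rintro _ ⟨i, hi, rfl⟩
        exact hx i hi
      · simp
      · intro a c _ _ ha hc
        simp [ha, hc]
      · intro a c _ hc
        simp [hc]
    have hEx : ∀ k, (k ∉ J ∨ k ∈ S) → E k x = 0 := by
      intro k hk
      by_cases hkJ : k ∈ J
      · have hkS : k ∈ S := by tauto
        have := hx k hkJ
        simpa [ψ, hkS] using this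
      · exact hker _ (hspan k hkJ).1
    have hFx : ∀ k, (k ∉ J ∨ k ∉ S) → F k x = 0 := by
      intro k hk
      by_cases hkJ : k ∈ J
      · have hkS : k ∉ S := by tauto
        have := hx k hkJ
        simpa [ψ, hkS] using this
      · exact hker _ (hspan k hkJ).2
    have hform : ∀ y : L, ∑ i, (E i y * star (F i x) + F i y * star (E i x)) +
        b (β (Sum.inr (Sum.inr ()))) (β (Sum.inr (Sum.inr ()))) *
        β.repr (y : V) (Sum.inr (Sum.inr ())) * star (β.repr (x : V) (Sum.inr (Sum.inr ()))) = 0 := by
      intro y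
      have h0 := form_coords b hb β hee hff hef heg hfg (y : V) (x : V)
      rw [hL y y.2 x x.2] at h0
      exact h0.symm
    have hg : β.repr (x : V) (Sum.inr (Sum.inr ())) = 0 := by
      have h1 := hform x
      have h2 : ∑ i, (E i x * star (F i x) + F i x * star (E i x)) = 0 := by
        apply Finset.sum_eq_zero
        intro i _
        by_cases hi : i ∈ S
        · rw [hEx i (Or.inr hi)]; simp
        · rw [hFx i (Or.inr hi)]; simp
      rw [h2, zero_add, mul_assoc] at h1
      rcases mul_eq_zero.mp h1 with h | h
      · exact absurd h hgg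
      · rcases mul_eq_zero.mp h with h | h
        · exact h
        · exact star_eq_zero.mp h
    have hrel : ∑ i ∈ J, (star (if i ∈ S then F i x else E i x)) • ψ S i = 0 := by
      ext y
      rw [LinearMap.sum_apply, LinearMap.zero_apply]
      have h1 := hform y
      rw [hg, star_zero, mul_zero, add_zero] at h1
      rw [← h1, ← Finset.sum_subset (Finset.subset_univ J)]
      · refine Finset.sum_congr rfl fun i hi => ?_
        by_cases hiS : i ∈ S
        · rw [hEx i (Or.inr hiS)]
          simp [ψ, hiS, mul_comm]
        · rw [hFx i (Or.inr hiS)]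
          simp [ψ, hiS, mul_comm]
      · intro i _ hi
        rw [hEx i (Or.inl hi), hFx i (Or.inl hi)]
        simp
    have hcoef : ∀ i ∈ J, star (if i ∈ S then F i x else E i x) = 0 := by
      have := linearIndepOn_finset_iff.mp hS
      exact this _ hrel
    have hE0 : ∀ i, E i x = 0 := by
      intro i
      by_cases h : i ∉ J ∨ i ∈ S
      · exact hEx i h
      · push Not at h
        have := hcoef i h.1
        rw [if_neg h.2] at this
        exact star_eq_zero.mp this
    have hF0 : ∀ i, F i x = 0 := by
      intro i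
      by_cases h : i ∉ J ∨ i ∉ S
      · exact hFx i h
      · push Not at h
        have := hcoef i h.1
        rw [if_pos h.2] at this
        exact star_eq_zero.mp this
    apply Subtype.ext
    apply β.repr.injective
    ext k
    rcases k with k | k | k
    · simpa [hE] using hE0 k
    · simpa [hF] using hF0 k
    · simpa using hg
  -- J is everything
  have hJuniv : J = Finset.univ := by
    rw [← Finset.card_eq_iff_eq_univ, Fintype.card_fin]
    let Φ : L →ₗ[K] (J → K) := LinearMap.pi fun i => ψ S i
    have hΦ : Function.Injective Φ := by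
      rw [← LinearMap.ker_eq_bot, LinearMap.ker_eq_bot']
      intro x hx
      apply hinj x
      intro i hi
      exact congrFun hx ⟨i, hi⟩
    have : FiniteDimensional K L := r.finiteDimensional_of_finite
    have h1 := LinearMap.finrank_le_finrank_of_injective hΦ
    rw [Module.finrank_eq_card_basis r, Module.finrank_fintype_fun_eq_card, Fintype.card_fin,
      Fintype.card_coe] at h1
    have h2 : J.card ≤ n := by
      have := Finset.card_le_univ J
      rwa [Fintype.card_fin] at this
    omega
  refine ⟨S, ?_⟩
  intro hdet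
  rw [← Matrix.exists_mulVec_eq_zero_iff] at hdet
  obtain ⟨c, hc, hMc⟩ := hdet
  have hzero : ∑ j, c j • ψ S j = 0 := by
    apply r.ext
    intro i
    have := congrFun hMc i
    simp only [Matrix.mulVec, dotProduct, Matrix.of_apply, Pi.zero_apply] at this
    rw [LinearMap.sum_apply, LinearMap.zero_apply, ← this]
    refine Finset.sum_congr rfl fun j _ => ?_
    by_cases hj : j ∈ S
    · simp [ψ, hj, hE, mul_comm]
    · simp [ψ, hj, hF, mul_comm]
  apply hc
  rw [hJuniv] at hS
  have := linearIndepOn_finset_iff.mp hS c hzero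
  funext j
  exact this j (Finset.mem_univ j)

end Pool.Agent.Helper86.HD
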