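import Mathlib

/-!
# Locally conformally product (LCP) manifolds, in the universal-cover picture

The non-flat factor `N` is an open simply connected subset `U` of `ℝ^m` with a smooth Riemannian
metric. Everything is written in the coordinates of `ℝ^m`.
-/

open Set Filter Topology
open scoped ContDiff

namespace Pool.Agent.Helper86.LCP

variable {m : ℕ}

/-- The partial derivative `∂_i f` at `x`. -/
noncomputable def pd (f : (Fin m → ℝ) → ℝ) (i : Fin m) (x : Fin m → ℝ) : ℝ :=
  fderiv ℝ f x (Pi.single i 1)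

/-- The bilinear form `∑ a_ij v_i w_j`. -/
def form (a : Fin m → Fin m → ℝ) (v w : Fin m → ℝ) : ℝ := ∑ i, ∑ j, a i j * v i * w j

/-- `g` (with components `g x i j`) is a smooth Riemannian metric on `U ⊆ ℝ^m`. -/
structure IsRiemannianMetric (U : Set (Fin m → ℝ)) (g : (Fin m → ℝ) → Fin m → Fin m → ℝ) :
    Prop where
  smooth : ∀ i j, ContDiffOn ℝ ∞ (fun x => g x i j) U
  symm : ∀ x ∈ U, ∀ i j, g x i j = g x j i
  pos : ∀ x ∈ U, ∀ v : Fin m → ℝ, v ≠ 0 → 0 < form (g x) v v

/-- `Gam` (with components `Gam x i j k = Γ^k_ij (x)`) are the Christoffel symbols of the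
Levi-Civita connection of `g` on `U`:
`2 ∑_k g_kl Γ^k_ij = ∂_i g_jl + ∂_j g_il - ∂_l g_ij`. -/
def IsLeviCivita (U : Set (Fin m → ℝ)) (g : (Fin m → ℝ) → Fin m → Fin m → ℝ)
    (Gam : (Fin m → ℝ) → Fin m → Fin m → Fin m → ℝ) : Prop :=
  ∀ x ∈ U, ∀ i j l, 2 * ∑ k, g x k l * Gam x i j k =
    pd (fun y => g y j l) i x + pd (fun y => g y i l) j x - pd (fun y => g y i j) l x

/-- The component `R^l_ijk` of the curvature tensor, `R(∂_i, ∂_j) ∂_k = ∑_l R^l_ijk ∂_l`. -/
noncomputable def curv (Gam : (Fin m → ℝ) → Fin m → Fin m → Fin m → ℝ) (x : Fin m → ℝ)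
    (i j k l : Fin m) : ℝ :=
  pd (fun y => Gam y j k l) i x - pd (fun y => Gam y i k l) j x +
    ∑ s, (Gam x i s l * Gam x j k s - Gam x j s l * Gam x i k s)

/-- `c : [0,1] → U` is a `C¹` curve (restriction of a `C¹` curve on `ℝ`) and `V` is a parallel
vector field along it: `V_k' = - ∑ Γ^k_ij c_i' V_j` on `[0,1]`. -/
def IsParallelAlong (U : Set (Fin m → ℝ)) (Gam : (Fin m → ℝ) → Fin m → Fin m → Fin m → ℝ)
    (c V : ℝ → Fin m → ℝ) : Prop :=
  ContDiff ℝ 1 c ∧ ∀ s ∈ Icc (0 : ℝ) 1, c s ∈ U ∧ ∀ k,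
    HasDerivWithinAt (fun r => V r k) (-form (fun i j => Gam (c s) i j k) (deriv c s) (V s))
      (Icc 0 1) s

/-- Parallel transport along piecewise `C¹` curves in `U`: `Transport U Gam x v y w` says that the
vector `v` at `x` is transported to the vector `w` at `y` along some concatenation of finitely
many `C¹` curves. -/
inductive Transport (U : Set (Fin m → ℝ)) (Gam : (Fin m → ℝ) → Fin m → Fin m → Fin m → ℝ) :
    (x v y w : Fin m → ℝ) → Prop
  | refl (x v : Fin m → ℝ) : Transport U Gam x v x v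
  | step (x v : Fin m → ℝ) (c V : ℝ → Fin m → ℝ) : Transport U Gam x v (c 0) (V 0) →
      IsParallelAlong U Gam c V → Transport U Gam x v (c 1) (V 1)

/-- Irreducible holonomy: at every point `x ∈ U` the only subspaces of the tangent space that are
invariant under parallel transport along all piecewise `C¹` loops at `x` are `0` and the whole
space (and the space is not zero). -/
def IrreducibleHolonomy (U : Set (Fin m → ℝ))
    (Gam : (Fin m → ℝ) → Fin m → Fin m → Fin m → ℝ) : Prop :=
  0 < m ∧ ∀ x ∈ U, ∀ W : Submodule ℝ (Fin m → ℝ),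
    (∀ v ∈ W, ∀ w, Transport U Gam x v x w → w ∈ W) → W = ⊥ ∨ W = ⊤

/-- Incompleteness of `(U, g)`: there is a `C¹` curve `c : [0,1) → U` of finite `g`-length that
does not converge in `U` at `1`. -/
def IsIncomplete (U : Set (Fin m → ℝ)) (g : (Fin m → ℝ) → Fin m → Fin m → ℝ) : Prop :=
  ∃ c : ℝ → Fin m → ℝ, ContDiff ℝ 1 c ∧ (∀ s ∈ Ico (0 : ℝ) 1, c s ∈ U) ∧
    (∃ L : ℝ, ∀ s ∈ Ico (0 : ℝ) 1, ∫ r in (0 : ℝ)..s, √(form (g (c r)) (deriv c r) (deriv c r)) ≤ L) ∧
    ¬ ∃ z ∈ U, Tendsto c (𝓝[<] 1) (𝓝 z)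

/-- The map `f : U → U` is a similarity of `(U, g)` of ratio `r`: it is bijective, smooth and
`f^* g = r² g`. -/
def IsSimilarity (U : Set (Fin m → ℝ)) (g : (Fin m → ℝ) → Fin m → Fin m → ℝ) (f : U → U)
    (r : ℝ) : Prop :=
  Function.Bijective f ∧ ∃ F : (Fin m → ℝ) → Fin m → ℝ, ContDiffOn ℝ ∞ F U ∧
    (∀ x : U, F x = f x) ∧
    ∀ x ∈ U, ∀ v w, form (g (F x)) (fderiv ℝ F x v) (fderiv ℝ F x w) = r ^ 2 * form (g x) v w

/-- The map `f : ℝ^q → ℝ^q` is a Euclidean similarity of ratio `r`. -/
def IsEuclSimilarity {q : ℕ} (f : (Fin q → ℝ) → Fin q → ℝ) (r : ℝ) : Prop :=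
  ∀ a b, ∑ i, (f a i - f b i) ^ 2 = r ^ 2 * ∑ i, (a i - b i) ^ 2

/-- `(U, g)` is a simply connected, non-flat, incomplete Riemannian manifold with irreducible
holonomy. -/
structure IsNonflatFactor (U : Set (Fin m → ℝ)) (g : (Fin m → ℝ) → Fin m → Fin m → ℝ) :
    Prop where
  isOpen : IsOpen U
  simplyConnected : SimplyConnectedSpace U
  metric : IsRiemannianMetric U g
  incomplete : IsIncomplete U g
  holonomy : ∃ Gam, IsLeviCivita U g Gam ∧ (∃ x ∈ U, ∃ i j k l, curv Gam x i j k l ≠ 0) ∧
    IrreducibleHolonomy U Gam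

/-- `α` is an action of the group `G` on the space `X` by continuous maps. -/
structure IsContinuousAction {G X : Type} [Group G] [TopologicalSpace X] (α : G → X → X) :
    Prop where
  one : ∀ x, α 1 x = x
  mul : ∀ γ δ x, α (γ * δ) x = α γ (α δ x)
  continuous : ∀ γ, Continuous (α γ)

/-- The pair `(α γ, β γ)` is a free, properly discontinuous and cocompact action of the group `G`
on `X × Y`. -/
structure IsDeckAction {G X Y : Type} [Group G] [TopologicalSpace X] [TopologicalSpace Y]
    (α : G → X → X) (β : G → Y → Y) : Prop where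
  left : IsContinuousAction α
  right : IsContinuousAction β
  free : ∀ γ x y, α γ x = x → β γ y = y → γ = 1
  properlyDiscontinuous : ∀ K : Set (X × Y), IsCompact K →
    {γ : G | ∃ p ∈ K, (α γ p.1, β γ p.2) ∈ K}.Finite
  cocompact : ∃ K : Set (X × Y), IsCompact K ∧ ∀ p : X × Y, ∃ γ : G, (α γ p.1, β γ p.2) ∈ K

/-- The universal-cover data of a locally conformally product (LCP) manifold
`M = (ℝ^q × N) / G` whose non-flat factor `N` is an open subset `U` of `ℝ^m`. Here `q ≥ 1`, `N` is
simply connected with a non-flat, incomplete Riemannian metric `g` of irreducible holonomy, and the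
group `G = π₁(M)` acts freely, properly discontinuously and cocompactly on `ℝ^q × N`, every
`γ ∈ G` acting as a product `(γ_E, γ_N)` of similarities of the same ratio, not all ratios being
`1`. The Levi-Civita connection of the product metric then descends to a closed non-exact Weyl
structure on the compact manifold `M`. -/
structure LCPManifold (q m : ℕ) where
  /-- the non-flat factor -/
  U : Set (Fin m → ℝ)
  /-- its Riemannian metric -/
  g : (Fin m → ℝ) → Fin m → Fin m → ℝ
  /-- the fundamental group -/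
  G : Type
  /-- group structure -/
  grp : Group G
  /-- the action on the flat factor -/
  actE : G → (Fin q → ℝ) → Fin q → ℝ
  /-- the action on the non-flat factor -/
  actN : G → U → U
  q_pos : 1 ≤ q
  factor : IsNonflatFactor U g
  similarity : ∀ γ : G, ∃ r : ℝ, 0 < r ∧ IsEuclSimilarity (actE γ) r ∧ IsSimilarity U g (actN γ) r
  deck : IsDeckAction actE actN
  nonexact : ∃ γ : G, ¬ IsEuclSimilarity (actE γ) 1

/-- The map `p : X → X` lies in the closure of the set of all transformations `β γ` of `X`, in the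
space `C(X, X)` with the compact-open topology. -/
def InClosure {G X : Type} [TopologicalSpace X] (β : G → X → X) (p : X → X) : Prop :=
  ∃ f ∈ closure {h : C(X, X) | ∃ γ, ∀ x, h x = β γ x}, ∀ x, f x = p x

end Pool.Agent.Helper86.LCP
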