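import Pool.Agent.Helper86.LCPGroup

/-!
# The example of an LCP manifold for which the closure of `P` does not act freely
-/

open Metric Set Filter Topology
open scoped ContDiff

namespace Pool.Agent.Helper86.LCP

theorem one_le_sqrt2 : (1 : ℝ) ≤ √2 := by
  rw [Real.le_sqrt (by norm_num) (by norm_num)]; norm_num

theorem sqrt2_le : √2 ≤ (3 / 2 : ℝ) := by
  rw [Real.sqrt_le_iff]; norm_num

theorem ab_bound {a b : ℤ} {R : ℝ} (h1 : |(a : ℝ) + b * √2| ≤ R) (h2 : |(a : ℝ) - b * √2| ≤ R) :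
    |(a : ℝ)| ≤ R ∧ |(b : ℝ)| ≤ R := by
  have h3 := abs_le.1 h1
  have h4 := abs_le.1 h2
  have hs := one_le_sqrt2
  constructor
  · rw [abs_le]; constructor <;> linarith
  · have h5 : |(b : ℝ)| * √2 ≤ R := by
      have : |(b : ℝ)| * √2 = |b * √2| := by rw [abs_mul, abs_of_pos (by positivity : 0 < √2)]
      rw [this, abs_le]; constructor <;> linarith
    have h6 : |(b : ℝ)| * 1 ≤ |(b : ℝ)| * √2 := mul_le_mul_of_nonneg_left hs (abs_nonneg _)
    linarith

theorem continuous_coord (i : Fin 3) : Continuous fun p : E 1 × U3 => (p.2 : E 3) i := by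
  have : Continuous fun p : E 1 × U3 => (p.2 : E 3) := continuous_subtype_val.comp continuous_snd
  exact (pr i).continuous.comp this

theorem properlyDiscontinuous_Grp (K : Set (E 1 × U3)) (hK : IsCompact K) :
    {γ : Grp | ∃ p ∈ K, (actE γ p.1, actN γ p.2) ∈ K}.Finite := by
  rcases K.eq_empty_or_nonempty with rfl | hne
  · simp
  obtain ⟨R0, hR0⟩ := (hK.image continuous_fst).isBounded.exists_norm_le
  obtain ⟨R1, hR1⟩ := (hK.image (continuous_coord 0)).isBounded.exists_norm_le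
  obtain ⟨R2, hR2⟩ := (hK.image (continuous_coord 1)).isBounded.exists_norm_le
  obtain ⟨R3, hR3⟩ := (hK.image (continuous_coord 2)).isBounded.exists_norm_le
  obtain ⟨p0, hp0, hmin⟩ := hK.exists_isMinOn hne (continuous_coord 1).continuousOn
  set m : ℝ := (p0.2 : E 3) 1 with hm
  have hm0 : 0 < m := p0.2.2
  set R : ℝ := max (max (max R0 R1) (max R2 R3)) 1 with hR
  have hRpos : 0 < R := by positivity
  have b0 : ∀ p ∈ K, ‖p.1‖ ≤ R := fun p hp => (hR0 _ ⟨p, hp, rfl⟩).trans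
    ((le_max_left _ _).trans ((le_max_left _ _).trans (le_max_left _ _)))
  have b1 : ∀ p ∈ K, |(p.2 : E 3) 0| ≤ R := fun p hp => (hR1 _ ⟨p, hp, rfl⟩).trans
    ((le_max_right _ _).trans ((le_max_left _ _).trans (le_max_left _ _)))
  have b2 : ∀ p ∈ K, |(p.2 : E 3) 1| ≤ R := fun p hp => (hR2 _ ⟨p, hp, rfl⟩).trans
    ((le_max_left _ _).trans ((le_max_right _ _).trans (le_max_left _ _)))
  have b3 : ∀ p ∈ K, |(p.2 : E 3) 2| ≤ R := fun p hp => (hR3 _ ⟨p, hp, rfl⟩).trans
    ((le_max_right _ _).trans ((le_max_right _ _).trans (le_max_left _ _)))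
  have bm : ∀ p ∈ K, m ≤ (p.2 : E 3) 1 := fun p hp => hmin hp
  -- bound for the exponent
  have hlam1 : 1 < lam⁻¹ := (one_lt_inv₀ lam_pos).2 lam_lt_one
  obtain ⟨N, hN⟩ := pow_unbounded_of_one_lt (R / m) hlam1
  set Q : ℝ := R + R / m * R with hQ
  have hQpos : 0 < Q := by positivity
  obtain ⟨M, hM⟩ := exists_nat_ge (max Q (2 * R))
  set S : ℤ := max (N : ℤ) (M : ℤ) with hS
  have hfin : (Set.Icc (-S) S ×ˢ Set.Icc (-S) S ×ˢ Set.Icc (-S) S ×ˢ Set.Icc (-S) S).Finite :=
    (Set.finite_Icc _ _).prod ((Set.finite_Icc _ _).prod ((Set.finite_Icc _ _).prod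
      (Set.finite_Icc _ _)))
  refine (hfin.image fun q : ℤ × ℤ × ℤ × ℤ => gelt q.1 q.2.1 q.2.2.1 q.2.2.2).subset ?_
  rintro γ ⟨p, hp, hp'⟩
  obtain ⟨k, a, b, c, rfl⟩ := exists_gelt γ
  have ht := bm p hp
  have ht0 : 0 < (p.2 : E 3) 1 := p.2.2
  have ht' := bm _ hp'
  have hT := b2 p hp
  have hT' := b2 _ hp'
  simp only [actN_gelt, vec_1] at ht' hT'
  rw [abs_of_pos ht0] at hT
  rw [abs_of_pos (mul_pos (lam_zpow_pos k) ht0)] at hT'
  have hk1 : lam ^ k ≤ R / m := by
    rw [le_div_iff₀ hm0]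
    calc lam ^ k * m ≤ lam ^ k * (p.2 : E 3) 1 :=
          mul_le_mul_of_nonneg_left ht (lam_zpow_pos k).le
      _ ≤ R := hT'
  have hk2 : lam ^ (-k) ≤ R / m := by
    rw [le_div_iff₀ hm0]
    calc lam ^ (-k) * m ≤ lam ^ (-k) * (lam ^ k * (p.2 : E 3) 1) :=
          mul_le_mul_of_nonneg_left ht' (lam_zpow_pos _).le
      _ = (p.2 : E 3) 1 := by
          rw [← mul_assoc, ← zpow_add₀ lam_pos.ne', neg_add_cancel, zpow_zero, one_mul]
      _ ≤ R := hT
  have hkN : ∀ j : ℤ, lam ^ j ≤ R / m → -(N : ℤ) < j := by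
    intro j hj
    by_contra hcon
    push Not at hcon
    have h1 : lam⁻¹ ^ N ≤ lam ^ j := by
      rw [inv_pow, ← zpow_natCast, ← zpow_neg]
      exact zpow_le_zpow_right_of_le_one₀ lam_pos lam_lt_one.le hcon
    linarith
  have hkl := hkN k hk1
  have hkr := hkN (-k) hk2
  have hx : |(a : ℝ) + b * √2| ≤ Q := by
    have h1 := b0 _ hp'
    simp only [actE_gelt] at h1
    have h2 := b0 _ hp
    have h3 : ‖((a : ℝ) + b * √2) • e1‖ = |(a : ℝ) + b * √2| := by
      rw [norm_smul, norm_e1, mul_one, Real.norm_eq_abs]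
    have h4 : ((a : ℝ) + b * √2) • e1 = (lam ^ k • p.1 + ((a : ℝ) + b * √2) • e1) -
        lam ^ k • p.1 := by abel
    rw [← h3, h4]
    refine (norm_sub_le _ _).trans ?_
    rw [norm_smul, Real.norm_of_nonneg (lam_zpow_pos k).le]
    have h5 : lam ^ k * ‖p.1‖ ≤ R / m * R := by
      exact mul_le_mul hk1 h2 (norm_nonneg _) (by positivity)
    linarith
  have hy : |(a : ℝ) - b * √2| ≤ Q := by
    have h1 := b1 _ hp'
    simp only [actN_gelt, vec_0] at h1
    have h2 := b1 _ hp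
    have h4 : (a : ℝ) - b * √2 = (lam ^ (-k) * (p.2 : E 3) 0 + ((a : ℝ) - b * √2)) -
        lam ^ (-k) * (p.2 : E 3) 0 := by ring
    rw [h4]
    refine (abs_sub _ _).trans ?_
    rw [abs_mul, abs_of_pos (lam_zpow_pos (-k))]
    have h5 : lam ^ (-k) * |(p.2 : E 3) 0| ≤ R / m * R := by
      exact mul_le_mul hk2 h2 (abs_nonneg _) (by positivity)
    linarith
  have hc : |(c : ℝ)| ≤ 2 * R := by
    have h1 := b3 _ hp'
    simp only [actN_gelt, vec_2] at h1
    have h2 := b3 _ hp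
    have h4 : (c : ℝ) = (sg a * (p.2 : E 3) 2 + c) - sg a * (p.2 : E 3) 2 := by ring
    rw [h4]
    refine (abs_sub _ _).trans ?_
    have h5 : |(sg a : ℝ)| = 1 := by
      unfold sg; split_ifs <;> simp
    rw [abs_mul (sg a : ℝ), h5, one_mul]
    linarith
  obtain ⟨ha', hb'⟩ := ab_bound hx hy
  have hMQ : Q ≤ M := (le_max_left _ _).trans hM
  have hMR : 2 * R ≤ M := (le_max_right _ _).trans hM
  have conv : ∀ z : ℤ, |(z : ℝ)| ≤ M → z ∈ Set.Icc (-S) S := by
    intro z hz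
    have h1 := abs_le.1 hz
    have h2 : -(M : ℤ) ≤ z := by exact_mod_cast h1.1
    have h3 : z ≤ (M : ℤ) := by exact_mod_cast h1.2
    have h4 : (M : ℤ) ≤ S := le_max_right _ _
    exact ⟨by linarith, by linarith⟩
  refine ⟨(k, a, b, c), ⟨?_, ?_, ?_, ?_⟩, rfl⟩
  · have h4 : (N : ℤ) ≤ S := le_max_left _ _
    exact ⟨by simp only; linarith, by simp only; linarith⟩
  · exact conv a (ha'.trans hMQ)
  · exact conv b (hb'.trans hMQ)
  · exact conv c (hc.trans hMR)

/-- compact fundamental set in the half space -/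
def K3 : Set (E 3) := {z | |z 0| ≤ 2 ∧ lam ≤ z 1 ∧ z 1 ≤ 1 ∧ |z 2| ≤ 1}

theorem isCompact_K3 : IsCompact K3 := by
  have hcl : IsClosed K3 := by
    have h0 : IsClosed {z : E 3 | |z 0| ≤ 2} := isClosed_le (by fun_prop) continuous_const
    have h1 : IsClosed {z : E 3 | lam ≤ z 1} := isClosed_le continuous_const (by fun_prop)
    have h2 : IsClosed {z : E 3 | z 1 ≤ 1} := isClosed_le (by fun_prop) continuous_const
    have h3 : IsClosed {z : E 3 | |z 2| ≤ 1} := isClosed_le (by fun_prop) continuous_const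
    exact h0.inter (h1.inter (h2.inter h3))
  refine (isCompact_closedBall (0 : E 3) 4).of_isClosed_subset hcl ?_
  intro z hz
  obtain ⟨h0, h1, h2, h3⟩ := hz
  rw [mem_closedBall_zero_iff, pi_norm_le_iff_of_nonneg (by norm_num)]
  have h4 := abs_le.1 h0
  have h5 := abs_le.1 h3
  have h6 := lam_pos
  have e0 : -4 ≤ z 0 ∧ z 0 ≤ 4 := ⟨by linarith [h4.1], by linarith [h4.2]⟩
  have e1 : -4 ≤ z 1 ∧ z 1 ≤ 4 := ⟨by linarith, by linarith⟩
  have e2 : -4 ≤ z 2 ∧ z 2 ≤ 4 := ⟨by linarith [h5.1], by linarith [h5.2]⟩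
  intro i
  rw [Real.norm_eq_abs, abs_le]
  fin_cases i
  · exact e0
  · exact e1
  · exact e2

theorem cocompact_Grp : ∃ K : Set (E 1 × U3), IsCompact K ∧ ∀ p : E 1 × U3, ∃ γ : Grp,
    (actE γ p.1, actN γ p.2) ∈ K := by
  refine ⟨closedBall (0 : E 1) 2 ×ˢ ((fun z : U3 => (z : E 3)) ⁻¹' K3), ?_, ?_⟩
  · refine (isCompact_closedBall _ _).prod ?_
    refine (Topology.IsInducing.subtypeVal.isCompact_preimage_iff ?_).2 isCompact_K3
    intro z hz
    rw [Subtype.range_coe]
    exact lam_pos.trans_le hz.2.1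
  · rintro ⟨x, z⟩
    have hz : 0 < (z : E 3) 1 := z.2
    have hlam1 : 1 < lam⁻¹ := (one_lt_inv₀ lam_pos).2 lam_lt_one
    obtain ⟨n, hn1, hn2⟩ := exists_mem_Ioc_zpow hz hlam1
    set k : ℤ := n + 1 with hk
    have hk1 : lam ^ k * (z : E 3) 1 ≤ 1 := by
      calc lam ^ k * (z : E 3) 1 ≤ lam ^ k * lam⁻¹ ^ k :=
            mul_le_mul_of_nonneg_left hn2 (lam_zpow_pos k).le
        _ = 1 := by rw [inv_zpow, mul_inv_cancel₀ (lam_zpow_pos k).ne']
    have hk2 : lam ≤ lam ^ k * (z : E 3) 1 := by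
      calc lam = lam ^ k * lam⁻¹ ^ n := by
            rw [hk, zpow_add_one₀ lam_pos.ne', inv_zpow]
            have := (lam_zpow_pos n).ne'
            field_simp
        _ ≤ lam ^ k * (z : E 3) 1 := mul_le_mul_of_nonneg_left hn1.le (lam_zpow_pos k).le
    set x' : ℝ := lam ^ k * x 0 with hx'
    set y' : ℝ := lam ^ (-k) * (z : E 3) 0 with hy'
    set α : ℝ := -(x' + y') / 2 with hα
    set β : ℝ := -(x' - y') / (2 * √2) with hβ
    set a : ℤ := round α with ha
    set b : ℤ := round β with hb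
    have hs : (0 : ℝ) < √2 := by positivity
    have hab1 : α + β * √2 = -x' := by rw [hα, hβ]; field_simp; ring
    have hab2 : α - β * √2 = -y' := by rw [hα, hβ]; field_simp; ring
    have ra := abs_le.1 (abs_sub_round α)
    have rb := abs_le.1 (abs_sub_round β)
    have hs2 := sqrt2_le
    have rb' : |(b - β) * √2| ≤ 3 / 4 := by
      rw [abs_mul, abs_of_pos hs]
      have : |(b : ℝ) - β| ≤ 1 / 2 := by rw [abs_sub_comm]; exact abs_sub_round β
      calc |(b : ℝ) - β| * √2 ≤ 1 / 2 * (3 / 2) := mul_le_mul this hs2 hs.le (by norm_num)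
        _ = 3 / 4 := by norm_num
    have rb2 := abs_le.1 rb'
    refine ⟨gelt k a b (-round ((sg a : ℝ) * (z : E 3) 2)), ?_, ?_⟩
    · rw [mem_closedBall_zero_iff, actE_gelt]
      have h1 : lam ^ k • x + ((a : ℝ) + b * √2) • e1 = (x' + ((a : ℝ) + b * √2)) • e1 := by
        ext i
        have : i = 0 := Subsingleton.elim _ _
        subst this
        simp [e1, hx']
      rw [h1, norm_smul, norm_e1, mul_one, Real.norm_eq_abs]
      have h2 : x' + ((a : ℝ) + b * √2) = (a - α) + (b - β) * √2 := by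
        linear_combination hab1
      rw [h2, abs_le]
      constructor <;> linarith [ra.1, ra.2, rb2.1, rb2.2]
    · change ((actN (gelt k a b (-round ((sg a : ℝ) * (z : E 3) 2))) z : U3) : E 3) ∈ K3
      rw [actN_gelt]
      refine ⟨?_, ?_, ?_, ?_⟩
      · rw [vec_0]
        have h2 : y' + ((a : ℝ) - b * √2) = (a - α) - (b - β) * √2 := by
          linear_combination hab2
        rw [← hy', h2, abs_le]
        constructor <;> linarith [ra.1, ra.2, rb2.1, rb2.2]
      · rw [vec_1]; exact hk2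
      · rw [vec_1]; exact hk1
      · rw [vec_2]
        have := abs_sub_round ((sg a : ℝ) * (z : E 3) 2)
        push_cast
        rw [← sub_eq_add_neg]
        linarith

theorem nonexact_Grp : ∃ γ : Grp, ¬ IsEuclSimilarity (actE γ) 1 := by
  refine ⟨gelt 1 0 0 0, fun h => ?_⟩
  have h1 := h e1 0
  rw [actE_gelt, actE_gelt] at h1
  simp only [Fin.sum_univ_one, Pi.add_apply, Pi.smul_apply, smul_eq_mul, e1_zero,
    Pi.zero_apply, zpow_one] at h1
  have h2 : lam ^ 2 = 1 := by linarith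
  nlinarith [lam_pos, lam_lt_one]

/-- The example. -/
noncomputable def example4 : LCPManifold 1 3 where
  U := U3
  g := g3
  G := Grp
  grp := inferInstance
  actE := actE
  actN := actN
  q_pos := le_rfl
  factor := isNonflatFactor_U3
  similarity := similarity_gelt
  deck := ⟨isContinuousAction_actE, isContinuousAction_actN, free_gelt,
    properlyDiscontinuous_Grp, cocompact_Grp⟩
  nonexact := nonexact_Grp

/-! ### The limit element -/

/-- the reflection `(y, t, u) ↦ (y, t, -u)` -/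
noncomputable def refl3 : U3 ≃ₜ U3 := hN 1 one_pos 0 (-1) (by norm_num) 0

/-- coefficients of `(1+√2)ⁿ` -/
def ab : ℕ → ℤ × ℤ
  | 0 => (1, 0)
  | n + 1 => ((ab n).1 + 2 * (ab n).2, (ab n).1 + (ab n).2)

theorem ab_odd (n : ℕ) : Odd (ab n).1 := by
  induction n with
  | zero => exact odd_one
  | succ n ih =>
    change Odd ((ab n).1 + 2 * (ab n).2)
    exact ih.add_even (even_two_mul _)

theorem ab_conj (n : ℕ) : ((ab n).1 : ℝ) - (ab n).2 * √2 = (1 - √2) ^ n := by
  induction n with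
  | zero => simp [ab]
  | succ n ih =>
    rw [pow_succ, ← ih]
    change (((ab n).1 + 2 * (ab n).2 : ℤ) : ℝ) - (((ab n).1 + (ab n).2 : ℤ) : ℝ) * √2 = _
    push_cast
    linear_combination (-((ab n).2 : ℝ)) * sqrt2_sq

/-- translation composed with reflection, as a continuous map -/
noncomputable def tr (η : ℝ) : C(U3, U3) :=
  ⟨hN 1 one_pos η (-1) (by norm_num) 0, (hN 1 one_pos η (-1) (by norm_num) 0).continuous⟩

theorem continuous_tr : Continuous tr := by
  refine ContinuousMap.continuous_of_continuous_uncurry _ ?_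
  refine Continuous.subtype_mk (f := fun p : ℝ × U3 => mN 1 p.1 (-1) 0 (p.2 : E 3)) ?_ _
  unfold mN
  have h : ∀ i : Fin 3, Continuous fun p : ℝ × U3 => (p.2 : E 3) i := fun i =>
    (pr i).continuous.comp (continuous_subtype_val.comp continuous_snd)
  exact continuous_vec ((continuous_const.mul (h 0)).add continuous_fst)
    (continuous_const.mul (h 1)) ((continuous_const.mul (h 2)).add continuous_const)

theorem refl3_mem_closure : InClosure actN refl3 := by
  refine ⟨⟨refl3, refl3.continuous⟩, ?_, fun x => rfl⟩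
  have h1 : Tendsto (fun n : ℕ => (1 - √2) ^ n) atTop (𝓝 0) := by
    refine tendsto_pow_atTop_nhds_zero_of_abs_lt_one ?_
    have := one_le_sqrt2
    have := sqrt2_le
    rw [abs_lt]; constructor <;> linarith
  have h2 : Tendsto (fun n : ℕ => tr ((1 - √2) ^ n)) atTop (𝓝 (tr 0)) :=
    (continuous_tr.tendsto 0).comp h1
  refine mem_closure_of_tendsto h2 (Eventually.of_forall fun n => ?_)
  refine ⟨gelt 0 (ab n).1 (ab n).2 0, fun x => ?_⟩
  symm
  apply Subtype.ext
  change ((actN (gelt 0 (ab n).1 (ab n).2 0) x : U3) : E 3) = mN 1 ((1 - √2) ^ n) (-1) 0 x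
  rw [actN_gelt, ab_conj]
  have hsg : sg (ab n).1 = -1 := by
    unfold sg; rw [if_neg]; exact Int.not_even_iff_odd.2 (ab_odd n)
  rw [hsg]
  unfold mN
  simp

theorem refl3_moves : ∃ x : U3, refl3 x ≠ x := by
  have hmem : vec 0 1 1 ∈ U3 := by
    change (0 : ℝ) < vec 0 1 1 1
    simp
  refine ⟨⟨vec 0 1 1, hmem⟩, fun h => ?_⟩
  have h1 := congrArg (fun z : U3 => (z : E 3) 2) h
  have h2 : ((refl3 ⟨vec 0 1 1, hmem⟩ : U3) : E 3) 2 = -1 := by
    change mN 1 0 (-1) 0 (vec 0 1 1) 2 = -1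
    simp [mN]
  have h3 : vec 0 1 1 2 = 1 := by simp
  simp only [h2, h3] at h1
  norm_num at h1

theorem refl3_fixed : ∃ x : U3, refl3 x = x := by
  have hmem : vec 0 1 0 ∈ U3 := by
    change (0 : ℝ) < vec 0 1 0 1
    simp
  refine ⟨⟨vec 0 1 0, hmem⟩, ?_⟩
  apply Subtype.ext
  change mN 1 0 (-1) 0 (vec 0 1 0) = vec 0 1 0
  refine ext3 ?_ ?_ ?_ <;> simp [mN]

end Pool.Agent.Helper86.LCP
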