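import Pool.Agent.Helper86.LCPMetric

/-!
# The group of the example
-/

open Metric Set Filter Topology
open scoped ContDiff

namespace Pool.Agent.Helper86.LCP

/-- the unit vector of `ℝ` -/
noncomputable def e1 : E 1 := Pi.single 0 1

theorem e1_zero : e1 0 = 1 := by simp [e1]

theorem norm_e1 : ‖e1‖ = 1 := by
  have h : e1 = fun _ => (1 : ℝ) := by
    funext i
    have : i = 0 := Subsingleton.elim _ _
    subst this
    exact e1_zero
  rw [h, pi_norm_const, norm_one]

theorem continuous_co (i : Fin 3) : Continuous fun x : U3 => (x : E 3) i :=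
  (continuous_apply i).comp continuous_subtype_val

/-- similarity `x ↦ r x + ξ` of the line -/
noncomputable def hE (r : ℝ) (hr : 0 < r) (ξ : ℝ) : E 1 ≃ₜ E 1 where
  toFun x := r • x + ξ • e1
  invFun x := r⁻¹ • (x - ξ • e1)
  left_inv x := by
    simp only [add_sub_cancel_right, smul_smul]
    rw [inv_mul_cancel₀ hr.ne', one_smul]
  right_inv x := by
    simp only [smul_smul]
    rw [mul_inv_cancel₀ hr.ne', one_smul, sub_add_cancel]
  continuous_toFun := by fun_prop
  continuous_invFun := by fun_prop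

theorem hE_apply (r : ℝ) (hr : 0 < r) (ξ : ℝ) (x : E 1) : hE r hr ξ x = r • x + ξ • e1 := rfl

theorem continuous_vec {X : Type*} [TopologicalSpace X] {a b c : X → ℝ} (ha : Continuous a)
    (hb : Continuous b) (hc : Continuous c) : Continuous fun x => vec (a x) (b x) (c x) := by
  unfold vec; fun_prop

/-- the map `(y, t, u) ↦ (r⁻¹ y + η, r t, σ u + c)` on the whole space -/
noncomputable def mN (r η σ c : ℝ) (x : E 3) : E 3 := vec (r⁻¹ * x 0 + η) (r * x 1) (σ * x 2 + c)

/-- similarity of the half space -/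
noncomputable def hN (r : ℝ) (hr : 0 < r) (η σ : ℝ) (hσ : σ * σ = 1) (c : ℝ) : U3 ≃ₜ U3 where
  toFun x := ⟨mN r η σ c x, by
    have h : 0 < (x : E 3) 1 := x.2
    change 0 < vec (r⁻¹ * (x : E 3) 0 + η) (r * (x : E 3) 1) (σ * (x : E 3) 2 + c) 1
    rw [vec_1]; positivity⟩
  invFun x := ⟨vec (r * ((x : E 3) 0 - η)) (r⁻¹ * (x : E 3) 1) (σ * ((x : E 3) 2 - c)), by
    have h : 0 < (x : E 3) 1 := x.2
    change 0 < vec (r * ((x : E 3) 0 - η)) (r⁻¹ * (x : E 3) 1) (σ * ((x : E 3) 2 - c)) 1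
    rw [vec_1]; positivity⟩
  left_inv x := by
    apply Subtype.ext
    refine ext3 ?_ ?_ ?_
    · simp [mN]; field_simp
    · simp [mN]; field_simp
    · simp [mN]; rw [← mul_assoc, hσ, one_mul]
  right_inv x := by
    apply Subtype.ext
    refine ext3 ?_ ?_ ?_
    · simp [mN]; field_simp; ring
    · simp [mN]; field_simp
    · simp [mN]; rw [← mul_assoc, hσ, one_mul]; ring
  continuous_toFun := by
    refine Continuous.subtype_mk ?_ _
    exact continuous_vec ((continuous_const.mul (continuous_co 0)).add continuous_const)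
      (continuous_const.mul (continuous_co 1))
      ((continuous_const.mul (continuous_co 2)).add continuous_const)
  continuous_invFun := by
    refine Continuous.subtype_mk ?_ _
    exact continuous_vec (continuous_const.mul ((continuous_co 0).sub continuous_const))
      (continuous_const.mul (continuous_co 1))
      (continuous_const.mul ((continuous_co 2).sub continuous_const))

theorem hN_apply (r : ℝ) (hr : 0 < r) (η σ : ℝ) (hσ : σ * σ = 1) (c : ℝ) (x : U3) :
    (hN r hr η σ hσ c x : E 3) = mN r η σ c x := rfl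

theorem isSimilarity_hN (r : ℝ) (hr : 0 < r) (η σ : ℝ) (hσ : σ * σ = 1) (c : ℝ) :
    IsSimilarity U3 g3 (hN r hr η σ hσ c) r := by
  refine ⟨(hN r hr η σ hσ c).bijective, mN r η σ c, ?_, fun x => rfl, ?_⟩
  · unfold mN vec
    fun_prop
  · intro x hx v w
    have h0 : HasFDerivAt (fun x : E 3 => r⁻¹ * pr 0 x + η) (r⁻¹ • pr 0) x :=
      ((pr 0).hasFDerivAt.const_mul r⁻¹).add_const η
    have h1 : HasFDerivAt (fun x : E 3 => r * pr 1 x) (r • pr 1) x :=
      (pr 1).hasFDerivAt.const_mul r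
    have h2 : HasFDerivAt (fun x : E 3 => σ * pr 2 x + c) (σ • pr 2) x :=
      ((pr 2).hasFDerivAt.const_mul σ).add_const c
    have h : HasFDerivAt (mN r η σ c) _ x :=
      ((h0.smul_const (bs 0)).add (h1.smul_const (bs 1))).add (h2.smul_const (bs 2))
    have hv : ∀ v : E 3, fderiv ℝ (mN r η σ c) x v = vec (r⁻¹ * v 0) (r * v 1) (σ * v 2) := by
      intro v
      rw [h.fderiv]
      simp [vec]
    rw [hv, hv, form_g3, form_g3]
    simp only [mN, vec_0, vec_1, vec_2]
    have e2 : σ * v 2 * (σ * w 2) = v 2 * w 2 := by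
      calc σ * v 2 * (σ * w 2) = (σ * σ) * (v 2 * w 2) := by ring
        _ = v 2 * w 2 := by rw [hσ, one_mul]
    rw [e2]
    field_simp

/-! ### Arithmetic of `ℤ[√2]` -/

/-- the contraction ratio `3 - 2√2` -/
noncomputable def lam : ℝ := 3 - 2 * √2

theorem sqrt2_sq : √2 * √2 = (2 : ℝ) := Real.mul_self_sqrt (by norm_num)

theorem lam_pos : 0 < lam := by
  have h : √2 < (3 / 2 : ℝ) := by
    rw [Real.sqrt_lt' (by norm_num)]; norm_num
  unfold lam; linarith

theorem lam_lt_one : lam < 1 := by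
  have h : (1 : ℝ) < √2 := by
    rw [Real.lt_sqrt (by norm_num)]; norm_num
  unfold lam; linarith

theorem lam_inv : lam⁻¹ = 3 + 2 * √2 := by
  rw [inv_eq_iff_eq_inv, eq_comm]
  refine inv_eq_of_mul_eq_one_left ?_
  unfold lam
  nlinarith [sqrt2_sq]

theorem lam_zpow_pos (k : ℤ) : 0 < lam ^ k := zpow_pos lam_pos k

/-- parity sign -/
def sg (a : ℤ) : ℤ := if Even a then 1 else -1

theorem sg_mul_self (a : ℤ) : sg a * sg a = 1 := by
  unfold sg; split_ifs <;> norm_num

theorem sg_cast_mul_self (a : ℤ) : (sg a : ℝ) * sg a = 1 := by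
  exact_mod_cast sg_mul_self a

theorem sg_add (a b : ℤ) : sg (a + b) = sg a * sg b := by
  unfold sg
  by_cases h1 : Even a <;> by_cases h2 : Even b <;> simp [Int.even_add, h1, h2]

theorem sg_eq_of_even_sub {a b : ℤ} (h : Even (a - b)) : sg a = sg b := by
  have h1 : a = (a - b) + b := by ring
  rw [h1, sg_add]
  have : sg (a - b) = 1 := by unfold sg; rw [if_pos h]
  rw [this, one_mul]

theorem unit_action (k : ℤ) : ∀ a b : ℤ, ∃ a' b' : ℤ,
    lam ^ k * ((a : ℝ) + b * √2) = a' + b' * √2 ∧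
    lam ^ (-k) * ((a : ℝ) - b * √2) = a' - b' * √2 ∧ Even (a' - a) := by
  induction k using Int.induction_on with
  | zero =>
    intro a b
    exact ⟨a, b, by simp, by simp, by simp⟩
  | succ n ih =>
    intro a b
    obtain ⟨a', b', h1, h2, h3⟩ := ih (3 * a - 4 * b) (3 * b - 2 * a)
    refine ⟨a', b', ?_, ?_, ?_⟩
    · rw [← h1, zpow_add_one₀ lam_pos.ne']
      push_cast
      unfold lam
      have := sqrt2_sq
      linear_combination ((3 - 2 * √2) ^ (n : ℤ) * (-2 * (b : ℝ))) * this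
    · rw [← h2, neg_add, ← sub_eq_add_neg, zpow_sub_one₀ lam_pos.ne', lam_inv]
      push_cast
      have := sqrt2_sq
      linear_combination (lam ^ (-(n : ℤ)) * (-2 * (b : ℝ))) * this
    · have : a' - a = (a' - (3 * a - 4 * b)) + 2 * (a - 2 * b) := by ring
      rw [this]
      exact h3.add (even_two_mul _)
  | pred n ih =>
    intro a b
    obtain ⟨a', b', h1, h2, h3⟩ := ih (3 * a + 4 * b) (3 * b + 2 * a)
    refine ⟨a', b', ?_, ?_, ?_⟩
    · rw [← h1, zpow_sub_one₀ lam_pos.ne', lam_inv]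
      push_cast
      have := sqrt2_sq
      linear_combination (lam ^ (-(n : ℤ)) * (2 * (b : ℝ))) * this
    · rw [← h2]
      have e : -(-(n : ℤ) - 1) = -(-(n : ℤ)) + 1 := by ring
      rw [e, zpow_add_one₀ lam_pos.ne']
      push_cast
      unfold lam
      have := sqrt2_sq
      linear_combination ((3 - 2 * √2) ^ (- -(n : ℤ)) * (2 * (b : ℝ))) * this
    · have : a' - a = (a' - (3 * a + 4 * b)) + 2 * (a + 2 * b) := by ring
      rw [this]
      exact h3.add (even_two_mul _)

theorem eq_zero_of_add_mul_sqrt2 {a b : ℤ} (h : (a : ℝ) + b * √2 = 0) : a = 0 ∧ b = 0 := by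
  by_cases hb : b = 0
  · subst hb
    simp at h
    exact ⟨h, rfl⟩
  · exfalso
    have h1 : √2 = ((-a : ℤ) : ℝ) / b := by
      have : (b : ℝ) ≠ 0 := by exact_mod_cast hb
      field_simp
      push_cast
      linarith
    have h2 : √2 = (((-a : ℚ) / b : ℚ) : ℝ) := by rw [h1]; push_cast; ring
    exact (irrational_sqrt_two) ⟨_, h2.symm⟩

/-! ### The group -/

/-- the general element `(x; y, t, u) ↦ (λᵏ x + (a+b√2); λ⁻ᵏ y + (a-b√2), λᵏ t, ± u + c)` -/
noncomputable def elt (k a b c : ℤ) : (E 1 ≃ₜ E 1) × (U3 ≃ₜ U3) :=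
  (hE (lam ^ k) (lam_zpow_pos k) (a + b * √2),
    hN (lam ^ k) (lam_zpow_pos k) (a - b * √2) (sg a) (sg_cast_mul_self a) c)

theorem elt_fst (k a b c : ℤ) (x : E 1) :
    (elt k a b c).1 x = lam ^ k • x + ((a : ℝ) + b * √2) • e1 := rfl

theorem elt_snd (k a b c : ℤ) (x : U3) :
    (((elt k a b c).2 x : U3) : E 3) =
      vec (lam ^ (-k) * (x : E 3) 0 + (a - b * √2)) (lam ^ k * (x : E 3) 1)
        (sg a * (x : E 3) 2 + c) := by
  change mN _ _ _ _ _ = _
  unfold mN
  rw [zpow_neg]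

theorem elt_ext {p : (E 1 ≃ₜ E 1) × (U3 ≃ₜ U3)} {k a b c : ℤ}
    (h1 : ∀ x, p.1 x = lam ^ k • x + ((a : ℝ) + b * √2) • e1)
    (h2 : ∀ x : U3, ((p.2 x : U3) : E 3) =
      vec (lam ^ (-k) * (x : E 3) 0 + (a - b * √2)) (lam ^ k * (x : E 3) 1)
        (sg a * (x : E 3) 2 + c)) : p = elt k a b c := by
  refine Prod.ext ?_ ?_
  · ext x : 1
    rw [h1, elt_fst]
  · ext x : 1
    apply Subtype.ext
    rw [h2, elt_snd]

theorem elt_mul (k a b c k' a' b' c' : ℤ) : ∃ K A' B' C' : ℤ,
    elt k a b c * elt k' a' b' c' = elt K A' B' C' := by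
  obtain ⟨a'', b'', h1, h2, h3⟩ := unit_action k a' b'
  refine ⟨k + k', a + a'', b + b'', sg a * c' + c, elt_ext ?_ ?_⟩
  · intro x
    change (elt k a b c).1 ((elt k' a' b' c').1 x) = _
    rw [elt_fst, elt_fst, smul_add, smul_smul, smul_smul, h1, ← zpow_add₀ lam_pos.ne', add_assoc,
      ← add_smul]
    congr 2
    push_cast
    ring
  · intro x
    change (((elt k a b c).2 ((elt k' a' b' c').2 x) : U3) : E 3) = _
    rw [elt_snd, elt_snd]
    refine ext3 ?_ ?_ ?_
    · simp only [vec_0]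
      rw [mul_add, h2, ← mul_assoc, ← zpow_add₀ lam_pos.ne', neg_add]
      push_cast
      ring
    · simp only [vec_1]
      rw [← mul_assoc, ← zpow_add₀ lam_pos.ne']
    · simp only [vec_2]
      have : sg (a + a'') = sg a * sg a' := by
        rw [sg_add, sg_eq_of_even_sub h3]
      rw [this]
      push_cast
      ring

theorem elt_one : elt 0 0 0 0 = 1 := by
  symm
  refine elt_ext ?_ ?_
  · intro x
    change x = _
    simp
  · intro x
    change (x : E 3) = _
    refine ext3 ?_ ?_ ?_ <;> simp [sg]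

theorem elt_inv (k a b c : ℤ) : ∃ K A' B' C' : ℤ, (elt k a b c)⁻¹ = elt K A' B' C' := by
  obtain ⟨a'', b'', h1, h2, h3⟩ := unit_action (-k) a b
  rw [neg_neg] at h2
  have hk : lam ^ k * lam ^ (-k) = 1 := by
    rw [← zpow_add₀ lam_pos.ne']; simp
  have hs : sg (-a'') = sg a := by
    have h4 : Even (-a'' - a) := by
      have : -a'' - a = -(a'' - a) + 2 * (-a) := by ring
      rw [this]
      exact h3.neg.add (even_two_mul _)
    exact sg_eq_of_even_sub h4
  refine ⟨-k, -a'', -b'', -(sg a * c), inv_eq_of_mul_eq_one_right ?_⟩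
  rw [← elt_one]
  refine elt_ext ?_ ?_
  · intro x
    change (elt k a b c).1 ((elt (-k) (-a'') (-b'') _).1 x) = _
    rw [elt_fst, elt_fst, smul_add, smul_smul, smul_smul, hk, add_assoc, ← add_smul]
    have : lam ^ k * (((-a'' : ℤ) : ℝ) + ((-b'' : ℤ) : ℝ) * √2) + ((a : ℝ) + b * √2) = 0 := by
      push_cast
      have : lam ^ k * (-(a'' : ℝ) + -(b'' : ℝ) * √2) = - (lam ^ k * ((a'' : ℝ) + b'' * √2)) := by
        ring
      rw [this, ← h1, ← mul_assoc, hk]; ring
    rw [this]
    simp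
  · intro x
    change (((elt k a b c).2 ((elt (-k) (-a'') (-b'') _).2 x) : U3) : E 3) = _
    rw [elt_snd, elt_snd]
    refine ext3 ?_ ?_ ?_
    · simp only [vec_0]
      rw [mul_add, ← mul_assoc, neg_neg, mul_comm (lam ^ (-k)) (lam ^ k), hk]
      have : lam ^ (-k) * (((-a'' : ℤ) : ℝ) - ((-b'' : ℤ) : ℝ) * √2) + ((a : ℝ) - b * √2) = 0 := by
        push_cast
        have : lam ^ (-k) * (-(a'' : ℝ) - -(b'' : ℝ) * √2) =
            - (lam ^ (-k) * ((a'' : ℝ) - b'' * √2)) := by
          ring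
        rw [this, ← h2, ← mul_assoc, mul_comm (lam ^ (-k)) (lam ^ k), hk]; ring
      rw [add_assoc, this]
      simp
    · simp only [vec_1]
      rw [← mul_assoc, hk]
      simp
    · simp only [vec_2]
      rw [hs]
      push_cast
      have h5 := sg_cast_mul_self a
      have h6 : (sg 0 : ℝ) = 1 := by simp [sg]
      rw [h6]
      linear_combination ((x : E 3) 2 - c) * h5

/-- the fundamental group of the example -/
noncomputable def Grp : Subgroup ((E 1 ≃ₜ E 1) × (U3 ≃ₜ U3)) where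
  carrier := {p | ∃ k a b c : ℤ, p = elt k a b c}
  mul_mem' := by
    rintro _ _ ⟨k, a, b, c, rfl⟩ ⟨k', a', b', c', rfl⟩
    exact elt_mul k a b c k' a' b' c'
  one_mem' := ⟨0, 0, 0, 0, elt_one.symm⟩
  inv_mem' := by
    rintro _ ⟨k, a, b, c, rfl⟩
    exact elt_inv k a b c

/-- elements of the group -/
noncomputable def gelt (k a b c : ℤ) : Grp := ⟨elt k a b c, k, a, b, c, rfl⟩

theorem exists_gelt (γ : Grp) : ∃ k a b c : ℤ, γ = gelt k a b c := by
  obtain ⟨γ, k, a, b, c, rfl⟩ := γ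
  exact ⟨k, a, b, c, rfl⟩

/-- action on the flat factor -/
noncomputable def actE (γ : Grp) : E 1 → E 1 := γ.1.1

/-- action on the non-flat factor -/
noncomputable def actN (γ : Grp) : U3 → U3 := γ.1.2

theorem isContinuousAction_actE : IsContinuousAction actE :=
  ⟨fun _ => rfl, fun _ _ _ => rfl, fun γ => γ.1.1.continuous⟩

theorem isContinuousAction_actN : IsContinuousAction actN :=
  ⟨fun _ => rfl, fun _ _ _ => rfl, fun γ => γ.1.2.continuous⟩

theorem actE_gelt (k a b c : ℤ) (x : E 1) :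
    actE (gelt k a b c) x = lam ^ k • x + ((a : ℝ) + b * √2) • e1 := rfl

theorem actN_gelt (k a b c : ℤ) (x : U3) :
    ((actN (gelt k a b c) x : U3) : E 3) =
      vec (lam ^ (-k) * (x : E 3) 0 + (a - b * √2)) (lam ^ k * (x : E 3) 1)
        (sg a * (x : E 3) 2 + c) := elt_snd k a b c x

theorem similarity_gelt (γ : Grp) : ∃ r : ℝ, 0 < r ∧
    IsEuclSimilarity (actE γ) r ∧ IsSimilarity U3 g3 (actN γ) r := by
  obtain ⟨k, a, b, c, rfl⟩ := exists_gelt γ
  refine ⟨lam ^ k, lam_zpow_pos k, ?_,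
    isSimilarity_hN (lam ^ k) (lam_zpow_pos k) (a - b * √2) (sg a) (sg_cast_mul_self a) c⟩
  intro x y
  rw [actE_gelt, actE_gelt]
  simp only [Fin.sum_univ_one, Pi.add_apply, Pi.smul_apply, smul_eq_mul]
  ring

theorem zpow_eq_one_iff_lam {k : ℤ} (h : lam ^ k = 1) : k = 0 := by
  by_contra hk
  have := (zpow_right_injective₀ lam_pos lam_lt_one.ne) (a₁ := k) (a₂ := 0) (by simpa using h)
  exact hk this

theorem free_gelt (γ : Grp) (x : E 1) (z : U3) (h1 : actE γ x = x) (h2 : actN γ z = z) :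
    γ = 1 := by
  obtain ⟨k, a, b, c, rfl⟩ := exists_gelt γ
  have hz : 0 < (z : E 3) 1 := z.2
  have h3 := congrArg (fun w : U3 => (w : E 3)) h2
  simp only [actN_gelt] at h3
  have c1 := congrArg (fun w : E 3 => w 1) h3
  have c2 := congrArg (fun w : E 3 => w 2) h3
  simp only [vec_1, vec_2] at c1 c2
  have hk : k = 0 := zpow_eq_one_iff_lam (by
    have : lam ^ k * (z : E 3) 1 = 1 * (z : E 3) 1 := by rw [one_mul]; exact c1
    exact mul_right_cancel₀ hz.ne' this)
  subst hk
  rw [actE_gelt, zpow_zero, one_smul] at h1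
  have h4 : ((a : ℝ) + b * √2) • e1 = 0 := by simpa using h1
  have h5 : (a : ℝ) + b * √2 = 0 := by
    rcases smul_eq_zero.1 h4 with h | h
    · exact h
    · exfalso
      have := norm_e1
      rw [h, norm_zero] at this
      exact zero_ne_one this
  obtain ⟨rfl, rfl⟩ := eq_zero_of_add_mul_sqrt2 h5
  have h6 : c = 0 := by
    have : (c : ℝ) = 0 := by
      simp [sg] at c2
      exact_mod_cast c2
    exact_mod_cast this
  subst h6
  apply Subtype.ext
  exact elt_one

end Pool.Agent.Helper86.LCP
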