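import Pool.Agent.Helper86.LCPDefs

/-!
# The metric `dt² + t⁴ dy² + t² du²` on the half space `t > 0`

Coordinates: `x 0 = y`, `x 1 = t`, `x 2 = u`.
-/

open Metric Set Filter Topology
open scoped ContDiff

namespace Pool.Agent.Helper86.LCP

/-- coordinate space -/
abbrev E (n : ℕ) := Fin n → ℝ

/-- coordinate functions -/
noncomputable def pr (i : Fin 3) : E 3 →L[ℝ] ℝ := ContinuousLinearMap.proj i

@[simp] theorem pr_apply (i : Fin 3) (x : E 3) : pr i x = x i := rfl

/-- standard basis -/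
noncomputable def bs (i : Fin 3) : E 3 := Pi.single i 1

theorem bs_apply (i j : Fin 3) : bs i j = if j = i then 1 else 0 := by
  simp [bs, Pi.single_apply]

/-- the half space `t > 0` -/
def U3 : Set (E 3) := {x | 0 < x 1}

/-- the metric -/
noncomputable def g3 (x : E 3) (i j : Fin 3) : ℝ :=
  (!![(x 1) ^ 4, 0, 0; 0, 1, 0; 0, 0, (x 1) ^ 2] : Matrix (Fin 3) (Fin 3) ℝ) i j

theorem form_g3 (x v w : E 3) : form (g3 x) v w = (x 1) ^ 4 * (v 0 * w 0) + v 1 * w 1 +
    (x 1) ^ 2 * (v 2 * w 2) := by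
  simp [form, g3, Fin.sum_univ_three, Matrix.of_apply]
  ring

/-- its Christoffel symbols -/
noncomputable def Gam3 (x : E 3) (i j k : Fin 3) : ℝ :=
  (![!![0, 2 / x 1, 0; 2 / x 1, 0, 0; 0, 0, 0],
    !![-(2 * (x 1) ^ 3), 0, 0; 0, 0, 0; 0, 0, -(x 1)],
    !![0, 0, 0; 0, 0, 1 / x 1; 0, 1 / x 1, 0]] : Fin 3 → Matrix (Fin 3) (Fin 3) ℝ) k i j

theorem form_Gam3_0 (x v w : E 3) :
    form (fun i j => Gam3 x i j 0) v w = 2 / x 1 * (v 1 * w 0 + v 0 * w 1) := by
  simp [form, Gam3, Fin.sum_univ_three, Matrix.of_apply]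
  ring

theorem form_Gam3_1 (x v w : E 3) :
    form (fun i j => Gam3 x i j 1) v w = - (2 * (x 1) ^ 3 * (v 0 * w 0)) - x 1 * (v 2 * w 2) := by
  simp [form, Gam3, Fin.sum_univ_three, Matrix.of_apply]
  ring

theorem form_Gam3_2 (x v w : E 3) :
    form (fun i j => Gam3 x i j 2) v w = 1 / x 1 * (v 1 * w 2 + v 2 * w 1) := by
  simp [form, Gam3, Fin.sum_univ_three, Matrix.of_apply]
  ring

theorem isOpen_U3 : IsOpen U3 := by
  have : U3 = {x : E 3 | 0 < pr 1 x} := rfl
  rw [this]
  exact isOpen_lt continuous_const (pr 1).continuous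

theorem convex_U3 : Convex ℝ U3 := by
  intro x hx y hy a b ha hb hab
  have h1 : 0 < x 1 := hx
  have h2 : 0 < y 1 := hy
  change 0 < (a • x + b • y) 1
  simp only [Pi.add_apply, Pi.smul_apply, smul_eq_mul]
  rcases ha.eq_or_lt with rfl | ha'
  · have : b = 1 := by linarith
    subst this; simpa using h2
  · have : 0 ≤ b * y 1 := mul_nonneg hb h2.le
    have : 0 < a * x 1 := mul_pos ha' h1
    linarith

theorem contDiff_g3 (i j : Fin 3) : ContDiff ℝ ∞ fun x => g3 x i j := by
  have h : ∀ n : ℕ, ContDiff ℝ ∞ fun x : E 3 => (x 1) ^ n := fun n => (pr 1).contDiff.pow n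
  have h0 : ∀ c : ℝ, ContDiff ℝ ∞ fun _ : E 3 => c := fun c => contDiff_const
  fin_cases i <;> fin_cases j
  · exact h 4
  · exact h0 0
  · exact h0 0
  · exact h0 0
  · exact h0 1
  · exact h0 0
  · exact h0 0
  · exact h0 0
  · exact h 2

theorem g3_symm (x : E 3) (i j : Fin 3) : g3 x i j = g3 x j i := by
  fin_cases i <;> fin_cases j <;> rfl

theorem isRiemannianMetric_g3 : IsRiemannianMetric U3 g3 where
  smooth := fun i j => (contDiff_g3 i j).contDiffOn
  symm := fun x _ i j => g3_symm x i j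
  pos := by
    intro x hx v hv
    have hx' : 0 < x 1 := hx
    rw [form_g3]
    have h0 : 0 ≤ (x 1) ^ 4 * (v 0 * v 0) := mul_nonneg (by positivity) (mul_self_nonneg _)
    have h1 : 0 ≤ v 1 * v 1 := mul_self_nonneg _
    have h2 : 0 ≤ (x 1) ^ 2 * (v 2 * v 2) := mul_nonneg (by positivity) (mul_self_nonneg _)
    by_contra hcon
    push Not at hcon
    have e0 : (x 1) ^ 4 * (v 0 * v 0) = 0 := by linarith
    have e1 : v 1 * v 1 = 0 := by linarith
    have e2 : (x 1) ^ 2 * (v 2 * v 2) = 0 := by linarith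
    have f0 : v 0 = 0 := by
      rcases mul_eq_zero.1 e0 with h | h
      · exact absurd h (by positivity)
      · exact mul_self_eq_zero.1 h
    have f1 : v 1 = 0 := mul_self_eq_zero.1 e1
    have f2 : v 2 = 0 := by
      rcases mul_eq_zero.1 e2 with h | h
      · exact absurd h (by positivity)
      · exact mul_self_eq_zero.1 h
    apply hv
    ext i
    fin_cases i
    · exact f0
    · exact f1
    · exact f2

theorem pd_const (c : ℝ) (i : Fin 3) (x : E 3) : pd (fun _ => c) i x = 0 := by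
  simp [pd]

theorem pd_comp {φ : ℝ → ℝ} {φ' : ℝ} {x : E 3} (h : HasDerivAt φ φ' (x 1)) (i : Fin 3) :
    pd (fun y => φ (y 1)) i x = if i = 1 then φ' else 0 := by
  have h1 : HasFDerivAt (fun y : E 3 => φ (pr 1 y)) (φ' • pr 1) x :=
    HasDerivAt.comp_hasFDerivAt x h (pr 1).hasFDerivAt
  have h2 : HasFDerivAt (fun y : E 3 => φ (y 1)) (φ' • pr 1) x := h1
  unfold pd
  rw [h2.fderiv]
  simp [Pi.single_apply, eq_comm]

/-- derivative of the metric -/
theorem pd_g3 (x : E 3) (i j l : Fin 3) : pd (fun y => g3 y j l) i x =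
    if i = 1 then (!![4 * (x 1) ^ 3, 0, 0; 0, 0, 0; 0, 0, 2 * x 1] : Matrix (Fin 3) (Fin 3) ℝ) j l
    else 0 := by
  have h4 : HasDerivAt (fun t : ℝ => t ^ 4) (4 * (x 1) ^ 3) (x 1) := by
    simpa using hasDerivAt_pow 4 (x 1)
  have h2 : HasDerivAt (fun t : ℝ => t ^ 2) (2 * (x 1)) (x 1) := by
    simpa using hasDerivAt_pow 2 (x 1)
  have z : ∀ c : ℝ, pd (fun _ : E 3 => c) i x = if i = 1 then 0 else 0 := by
    intro c; rw [pd_const]; simp
  fin_cases j <;> fin_cases l
  · exact pd_comp h4 i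
  · exact z 0
  · exact z 0
  · exact z 0
  · exact z 1
  · exact z 0
  · exact z 0
  · exact z 0
  · exact pd_comp h2 i

theorem isLeviCivita_Gam3 : IsLeviCivita U3 g3 Gam3 := by
  intro x hx i j l
  have hx' : x 1 ≠ 0 := ne_of_gt hx
  rw [pd_g3, pd_g3, pd_g3]
  fin_cases i <;> fin_cases j <;> fin_cases l <;>
    simp [g3, Gam3, Fin.sum_univ_three, Matrix.of_apply] <;> field_simp <;> norm_num

theorem nonflat_Gam3 : ∃ x ∈ U3, ∃ i j k l, curv Gam3 x i j k l ≠ 0 := by
  refine ⟨bs 1, ?_, 0, 2, 0, 2, ?_⟩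
  · change (0 : ℝ) < bs 1 1
    simp [bs_apply]
  · unfold curv
    have h1 : pd (fun y => Gam3 y 2 0 2) 0 (bs 1) = 0 := pd_const 0 0 _
    have h2 : pd (fun y => Gam3 y 0 0 2) 2 (bs 1) = 0 := pd_const 0 2 _
    rw [h1, h2]
    simp [Fin.sum_univ_three, Gam3, bs_apply]

theorem incomplete_g3 : IsIncomplete U3 g3 := by
  have hder : ∀ r : ℝ, HasDerivAt (fun s : ℝ => (1 - s) • bs 1) (-bs 1) r := by
    intro r
    have := ((hasDerivAt_id r).const_sub 1).smul_const (bs 1)
    simpa using this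
  refine ⟨fun s => (1 - s) • bs 1, by fun_prop, ?_, ⟨1, ?_⟩, ?_⟩
  · intro s hs
    change (0 : ℝ) < ((1 - s) • bs 1) 1
    simp [bs_apply, hs.2]
  · intro s hs
    have : ∀ r : ℝ, √(form (g3 ((1 - r) • bs 1)) (deriv (fun s : ℝ => (1 - s) • bs 1) r)
        (deriv (fun s : ℝ => (1 - s) • bs 1) r)) = 1 := by
      intro r
      rw [(hder r).deriv, form_g3]
      simp [bs_apply]
    simp only [this]
    simp
    exact hs.2.le
  · rintro ⟨z, hz, hlim⟩
    have h1 : Tendsto (fun s : ℝ => (1 - s) • bs 1) (𝓝[<] 1) (𝓝 ((1 - 1 : ℝ) • bs 1)) := by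
      refine Tendsto.mono_left ?_ nhdsWithin_le_nhds
      exact (Continuous.tendsto (by fun_prop) 1)
    have h2 := tendsto_nhds_unique hlim h1
    rw [h2] at hz
    have h3 : (0 : ℝ) < ((1 - 1 : ℝ) • bs 1) 1 := hz
    simp at h3

/-! ### Holonomy -/

/-- A vector by its coordinates. -/
noncomputable def vec (a b c : ℝ) : E 3 := a • bs 0 + b • bs 1 + c • bs 2

@[simp] theorem vec_0 (a b c : ℝ) : vec a b c 0 = a := by simp [vec, bs_apply]
@[simp] theorem vec_1 (a b c : ℝ) : vec a b c 1 = b := by simp [vec, bs_apply]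
@[simp] theorem vec_2 (a b c : ℝ) : vec a b c 2 = c := by simp [vec, bs_apply]

theorem ext3 {v w : E 3} (h0 : v 0 = w 0) (h1 : v 1 = w 1) (h2 : v 2 = w 2) : v = w := by
  ext i
  fin_cases i
  · exact h0
  · exact h1
  · exact h2

theorem vec_self (v : E 3) : vec (v 0) (v 1) (v 2) = v := ext3 (by simp) (by simp) (by simp)

theorem hasDerivAt_vec {a b c : ℝ → ℝ} {a' b' c' s : ℝ} (ha : HasDerivAt a a' s)
    (hb : HasDerivAt b b' s) (hc : HasDerivAt c c' s) :
    HasDerivAt (fun s => vec (a s) (b s) (c s)) (vec a' b' c') s :=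
  ((ha.smul_const (bs 0)).add (hb.smul_const (bs 1))).add (hc.smul_const (bs 2))

/-- The frame vector with orthonormal components `(a, b, c)` at height `t`. -/
noncomputable def fr (t a b c : ℝ) : E 3 := vec (a / t ^ 2) b (c / t)

/-- one step of parallel transport -/
def Step (x v y w : E 3) : Prop := ∃ c V : ℝ → E 3, IsParallelAlong U3 Gam3 c V ∧
  c 0 = x ∧ V 0 = v ∧ c 1 = y ∧ V 1 = w

theorem Step.transport {x v y w : E 3} (h : Step x v y w) {x₀ v₀ : E 3}
    (h0 : Transport U3 Gam3 x₀ v₀ x v) : Transport U3 Gam3 x₀ v₀ y w := by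
  obtain ⟨c, V, h, rfl, rfl, rfl, rfl⟩ := h
  exact Transport.step _ _ c V h0 h


theorem step_of {c : ℝ → E 3} {c' : ℝ → E 3} {V : ℝ → E 3} {x v y w : E 3}
    (hc : ∀ s, HasDerivAt c (c' s) s) (hcc : ContDiff ℝ 1 c)
    (hU : ∀ s ∈ Icc (0 : ℝ) 1, 0 < c s 1) {V' : ℝ → E 3}
    (hV : ∀ s ∈ Icc (0 : ℝ) 1, HasDerivAt V (V' s) s)
    (h0 : ∀ s ∈ Icc (0 : ℝ) 1, V' s 0 = -(2 / c s 1 * (c' s 1 * V s 0 + c' s 0 * V s 1)))
    (h1 : ∀ s ∈ Icc (0 : ℝ) 1, V' s 1 =
      -(- (2 * (c s 1) ^ 3 * (c' s 0 * V s 0)) - c s 1 * (c' s 2 * V s 2)))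
    (h2 : ∀ s ∈ Icc (0 : ℝ) 1, V' s 2 = -(1 / c s 1 * (c' s 1 * V s 2 + c' s 2 * V s 1)))
    (e0 : c 0 = x) (e1 : V 0 = v) (e2 : c 1 = y) (e3 : V 1 = w) : Step x v y w := by
  refine ⟨c, V, ⟨hcc, fun s hs => ⟨hU s hs, fun k => ?_⟩⟩, e0, e1, e2, e3⟩
  have hd := (hasDerivAt_pi.1 (hV s hs) k).hasDerivWithinAt (s := Icc 0 1)
  refine hd.congr_deriv ?_
  rw [(hc s).deriv]
  fin_cases k
  · exact (h0 s hs).trans (by rw [← form_Gam3_0]; rfl)
  · exact (h1 s hs).trans (by rw [← form_Gam3_1]; rfl)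
  · exact (h2 s hs).trans (by rw [← form_Gam3_2]; rfl)

theorem step_y {y t u : ℝ} (ht : 0 < t) (D a b c : ℝ) :
    Step (vec y t u) (fr t a b c)
      (vec (y + D) t u) (fr t (Real.cos (2 * t * D) * a - Real.sin (2 * t * D) * b)
        (Real.sin (2 * t * D) * a + Real.cos (2 * t * D) * b) c) := by
  have hc : ∀ s : ℝ, HasDerivAt (fun s : ℝ => vec (y + s * D) t u) (vec D 0 0) s := by
    intro s
    refine hasDerivAt_vec ?_ (hasDerivAt_const s t) (hasDerivAt_const s u)
    simpa using ((hasDerivAt_id s).mul_const D).const_add y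
  have hθ : ∀ s : ℝ, HasDerivAt (fun s : ℝ => 2 * t * (s * D)) (2 * t * D) s := by
    intro s
    simpa using ((hasDerivAt_id s).mul_const D).const_mul (2 * t)
  refine step_of (c := fun s => vec (y + s * D) t u) (c' := fun _ => vec D 0 0)
    (V := fun s => fr t (Real.cos (2 * t * (s * D)) * a - Real.sin (2 * t * (s * D)) * b)
        (Real.sin (2 * t * (s * D)) * a + Real.cos (2 * t * (s * D)) * b) c) hc
    (by unfold vec; fun_prop) (fun s _ => by simpa using ht)
    (fun s _ => hasDerivAt_vec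
      ((((hθ s).cos.mul_const a).sub ((hθ s).sin.mul_const b)).div_const (t ^ 2))
      (((hθ s).sin.mul_const a).add ((hθ s).cos.mul_const b)) (hasDerivAt_const s (c / t)))
    (fun s _ => ?_) (fun s _ => ?_) (fun s _ => ?_) (by simp) (by simp) (by simp) (by simp)
  · simp only [vec_0, vec_1, fr]
    field_simp
    ring
  · simp only [vec_0, vec_1, vec_2, fr]
    field_simp
    ring
  · simp only [vec_1, vec_2, fr]
    ring

theorem step_u {y t u : ℝ} (ht : 0 < t) (D a b c : ℝ) :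
    Step (vec y t u) (fr t a b c)
      (vec y t (u + D)) (fr t a (Real.cos D * b + Real.sin D * c)
        (-Real.sin D * b + Real.cos D * c)) := by
  have hc : ∀ s : ℝ, HasDerivAt (fun s : ℝ => vec y t (u + s * D)) (vec 0 0 D) s := by
    intro s
    refine hasDerivAt_vec (hasDerivAt_const s y) (hasDerivAt_const s t) ?_
    simpa using ((hasDerivAt_id s).mul_const D).const_add u
  have hθ : ∀ s : ℝ, HasDerivAt (fun s : ℝ => s * D) D s := by
    intro s
    simpa using (hasDerivAt_id s).mul_const D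
  refine step_of (c := fun s => vec y t (u + s * D)) (c' := fun _ => vec 0 0 D)
    (V := fun s => fr t a (Real.cos (s * D) * b + Real.sin (s * D) * c)
        (-Real.sin (s * D) * b + Real.cos (s * D) * c)) hc
    (by unfold vec; fun_prop) (fun s _ => by simpa using ht)
    (fun s _ => hasDerivAt_vec (hasDerivAt_const s (a / t ^ 2))
      (((hθ s).cos.mul_const b).add ((hθ s).sin.mul_const c))
      ((((hθ s).sin.neg.mul_const b).add ((hθ s).cos.mul_const c)).div_const t))
    (fun s _ => ?_) (fun s _ => ?_) (fun s _ => ?_) (by simp) (by simp) (by simp) (by simp)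
  · simp only [vec_0, vec_1, fr]
    ring
  · simp only [vec_0, vec_1, vec_2, fr]
    field_simp
    ring
  · simp only [vec_1, vec_2, fr]
    field_simp
    ring

theorem step_t {y t u : ℝ} (ht : 0 < t) {t' : ℝ} (ht' : 0 < t') (a b c : ℝ) :
    Step (vec y t u) (fr t a b c) (vec y t' u) (fr t' a b c) := by
  have hpos : ∀ s ∈ Icc (0 : ℝ) 1, 0 < t + s * (t' - t) := by
    intro s hs
    have h1 : t + s * (t' - t) = (1 - s) * t + s * t' := by ring
    rw [h1]
    rcases hs.1.eq_or_lt with h | h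
    · rw [← h]; simpa using ht
    · have h2 : 0 ≤ (1 - s) * t := mul_nonneg (by linarith [hs.2]) ht.le
      have h3 : 0 < s * t' := mul_pos h ht'
      linarith
  have hτ : ∀ s : ℝ, HasDerivAt (fun s : ℝ => t + s * (t' - t)) (t' - t) s := by
    intro s
    simpa using ((hasDerivAt_id s).mul_const (t' - t)).const_add t
  have hc : ∀ s : ℝ, HasDerivAt (fun s : ℝ => vec y (t + s * (t' - t)) u)
      (vec 0 (t' - t) 0) s := fun s =>
    hasDerivAt_vec (hasDerivAt_const s y) (hτ s) (hasDerivAt_const s u)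
  have hτ2 : ∀ s : ℝ, HasDerivAt (fun s : ℝ => (t + s * (t' - t)) ^ 2)
      (2 * (t + s * (t' - t)) * (t' - t)) s := by
    intro s
    simpa using (hτ s).fun_pow 2
  refine step_of (c := fun s => vec y (t + s * (t' - t)) u) (c' := fun _ => vec 0 (t' - t) 0)
    (V := fun s => fr (t + s * (t' - t)) a b c) hc
    (by unfold vec; fun_prop) (fun s hs => by simpa using hpos s hs)
    (fun s hs => hasDerivAt_vec
      ((hasDerivAt_const s a).div (hτ2 s) (pow_ne_zero 2 (hpos s hs).ne'))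
      (hasDerivAt_const s b) ((hasDerivAt_const s c).div (hτ s) (hpos s hs).ne'))
    (fun s hs => ?_) (fun s hs => ?_) (fun s hs => ?_) (by simp) (by simp) (by simp) (by simp)
  · have hp := (hpos s hs).ne'
    simp only [vec_0, vec_1, fr]
    field_simp
    ring
  · simp only [vec_0, vec_1, vec_2, fr]
    ring
  · have hp := (hpos s hs).ne'
    simp only [vec_1, vec_2, fr]
    field_simp
    ring

theorem fr_add (t a b c a' b' c' : ℝ) :
    fr t (a + a') (b + b') (c + c') = fr t a b c + fr t a' b' c' := by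
  refine ext3 ?_ ?_ ?_ <;> simp [fr] <;> ring

theorem fr_smul (t k a b c : ℝ) : fr t (k * a) (k * b) (k * c) = k • fr t a b c := by
  refine ext3 ?_ ?_ ?_ <;> simp [fr] <;> ring

theorem fr_surj {t : ℝ} (ht : 0 < t) (v : E 3) : ∃ a b c, v = fr t a b c := by
  refine ⟨v 0 * t ^ 2, v 1, v 2 * t, ext3 ?_ ?_ ?_⟩ <;> simp [fr] <;> field_simp

/-- Holonomy around a `(y,t)` rectangle: rotation by `π` in the `(y,t)` plane. -/
theorem loop_pi {y t u : ℝ} (ht : 0 < t) (a b c : ℝ) :
    Transport U3 Gam3 (vec y t u) (fr t a b c) (vec y t u) (fr t (-a) (-b) c) := by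
  -- rotate by `-π` at height `t`... and by `2π` at height `2t`
  set D : ℝ := -Real.pi / (2 * t) with hD
  have h2t : (0 : ℝ) < 2 * t := by positivity
  have s1 := step_y (y := y) (u := u) ht D a b c
  have e1 : 2 * t * D = -Real.pi := by rw [hD]; field_simp
  rw [e1, Real.cos_neg, Real.sin_neg, Real.cos_pi, Real.sin_pi] at s1
  have s2 := step_t (y := y + D) (u := u) ht h2t (-1 * a - -0 * b) (-0 * a + -1 * b) c
  have s3 := step_y (y := y + D) (u := u) h2t (-D) (-1 * a - -0 * b) (-0 * a + -1 * b) c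
  have e3 : 2 * (2 * t) * (-D) = 2 * Real.pi := by rw [hD]; field_simp
  rw [e3, Real.cos_two_pi, Real.sin_two_pi, add_neg_cancel_right] at s3
  have s4 := step_t (y := y) (u := u) h2t ht (1 * (-1 * a - -0 * b) - 0 * (-0 * a + -1 * b))
    (0 * (-1 * a - -0 * b) + 1 * (-0 * a + -1 * b)) c
  have e4 : fr t (1 * (-1 * a - -0 * b) - 0 * (-0 * a + -1 * b))
    (0 * (-1 * a - -0 * b) + 1 * (-0 * a + -1 * b)) c = fr t (-a) (-b) c := by
    congr 1 <;> ring
  rw [e4] at s4
  exact s4.transport (s3.transport (s2.transport (s1.transport (Transport.refl _ _))))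

/-- Holonomy around a `(y,u)` rectangle: a cyclic permutation of the frame. -/
theorem loop_cyc {y t u : ℝ} (ht : 0 < t) (a b c : ℝ) :
    Transport U3 Gam3 (vec y t u) (fr t a b c) (vec y t u) (fr t c a b) := by
  set D : ℝ := Real.pi / 2 / (2 * t) with hD
  have s1 := step_y (y := y) (u := u) ht D a b c
  have e1 : 2 * t * D = Real.pi / 2 := by rw [hD]; field_simp
  rw [e1, Real.cos_pi_div_two, Real.sin_pi_div_two] at s1
  have e1' : fr t (0 * a - 1 * b) (1 * a + 0 * b) c = fr t (-b) a c := by congr 1 <;> ring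
  rw [e1'] at s1
  have s2 := step_u (y := y + D) (u := u) ht (Real.pi / 2) (-b) a c
  rw [Real.cos_pi_div_two, Real.sin_pi_div_two] at s2
  have e2' : fr t (-b) (0 * a + 1 * c) (-1 * a + 0 * c) = fr t (-b) c (-a) := by
    congr 1 <;> ring
  rw [e2'] at s2
  have s3 := step_y (y := y + D) (u := u + Real.pi / 2) ht (-D) (-b) c (-a)
  have e3 : 2 * t * (-D) = -(Real.pi / 2) := by rw [hD]; field_simp
  rw [e3, Real.cos_neg, Real.sin_neg, Real.cos_pi_div_two, Real.sin_pi_div_two,
    add_neg_cancel_right] at s3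
  have e3' : fr t (0 * -b - -1 * c) (-1 * -b + 0 * c) (-a) = fr t c b (-a) := by
    congr 1 <;> ring
  rw [e3'] at s3
  have s4 := step_u (y := y) (u := u + Real.pi / 2) ht (-(Real.pi / 2)) c b (-a)
  rw [Real.cos_neg, Real.sin_neg, Real.cos_pi_div_two, Real.sin_pi_div_two,
    add_neg_cancel_right] at s4
  have e4' : fr t c (0 * b + -1 * -a) (- -1 * b + 0 * -a) = fr t c a b := by
    congr 1 <;> ring
  rw [e4'] at s4
  exact s4.transport (s3.transport (s2.transport (s1.transport (Transport.refl _ _))))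

theorem irreducible_Gam3 : IrreducibleHolonomy U3 Gam3 := by
  refine ⟨by norm_num, fun x hx W hW => ?_⟩
  have ht : 0 < x 1 := hx
  have hx' : x = vec (x 0) (x 1) (x 2) := (vec_self x).symm
  set t := x 1 with htdef
  have hpi : ∀ a b c, fr t a b c ∈ W → fr t (-a) (-b) c ∈ W := by
    intro a b c h
    refine hW _ h _ ?_
    rw [hx']; exact loop_pi ht a b c
  have hcyc : ∀ a b c, fr t a b c ∈ W → fr t c a b ∈ W := by
    intro a b c h
    refine hW _ h _ ?_
    rw [hx']; exact loop_cyc ht a b c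
  -- projections to the coordinate axes
  have h3 : ∀ a b c, fr t a b c ∈ W → fr t 0 0 c ∈ W := by
    intro a b c h
    have h1 := W.smul_mem (1 / 2 : ℝ) (W.add_mem h (hpi a b c h))
    rw [← fr_add, ← fr_smul] at h1
    convert h1 using 2 <;> ring
  by_cases hW0 : W = ⊥
  · exact Or.inl hW0
  · right
    obtain ⟨v, hv, hv0⟩ := (Submodule.ne_bot_iff W).1 hW0
    obtain ⟨a, b, c, rfl⟩ := fr_surj ht v
    have key : ∀ c : ℝ, c ≠ 0 → fr t 0 0 c ∈ W → W = ⊤ := by
      intro c hc h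
      have hz : ∀ z, fr t 0 0 z ∈ W := by
        intro z
        have h1 := W.smul_mem (z / c) h
        rw [← fr_smul] at h1
        convert h1 using 2
        · ring
        · ring
        · field_simp
      have hxx : ∀ z, fr t z 0 0 ∈ W := fun z => hcyc _ _ _ (hz z)
      have hyy : ∀ z, fr t 0 z 0 ∈ W := fun z => hcyc _ _ _ (hxx z)
      rw [Submodule.eq_top_iff']
      intro w
      obtain ⟨p, q, r, rfl⟩ := fr_surj ht w
      have h2 := W.add_mem (W.add_mem (hxx p) (hyy q)) (hz r)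
      rw [← fr_add, ← fr_add] at h2
      convert h2 using 2 <;> ring
    by_cases hc : c = 0
    · by_cases hb : b = 0
      · by_cases ha : a = 0
        · exfalso
          apply hv0
          rw [ha, hb, hc]
          refine ext3 ?_ ?_ ?_ <;> simp [fr]
        · exact key a ha (h3 _ _ _ (hcyc _ _ _ (hcyc _ _ _ hv)))
      · exact key b hb (h3 _ _ _ (hcyc _ _ _ hv))
    · exact key c hc (h3 _ _ _ hv)

theorem isNonflatFactor_U3 : IsNonflatFactor U3 g3 where
  isOpen := isOpen_U3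
  simplyConnected := by
    have hne : U3.Nonempty := ⟨bs 1, by change (0 : ℝ) < bs 1 1; simp [bs_apply]⟩
    have : ContractibleSpace U3 := convex_U3.contractibleSpace hne
    infer_instance
  metric := isRiemannianMetric_g3
  incomplete := incomplete_g3
  holonomy := ⟨Gam3, isLeviCivita_Gam3, nonflat_Gam3, irreducible_Gam3⟩

end Pool.Agent.Helper86.LCP
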